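import Pool.Agent.Helper585.Wk.Defs

set_option autoImplicit false
set_option linter.unusedSectionVars false
set_option linter.unusedVariables false

/-! Abstract finite complexes versus geometric simplicial complexes. -/

namespace Pool.Agent.H874R2.Geo

open Set Topology
open Pool.Agent.Helper585.Wk

section toGeo

variable {n : ℕ}

/-- standard basis vector -/
noncomputable def ev (v : Fin n) : EuclideanSpace ℝ (Fin n) := EuclideanSpace.single v 1

theorem ev_apply (v w : Fin n) : (ev v : EuclideanSpace ℝ (Fin n)) w = if w = v then 1 else 0 := by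
  simp [ev]

theorem ev_injective : Function.Injective (ev : Fin n → EuclideanSpace ℝ (Fin n)) := by
  intro v w h
  have := congrArg (fun x : EuclideanSpace ℝ (Fin n) => x v) h
  simp only [ev_apply] at this
  by_contra hne
  simp [hne] at this

theorem ev_linearIndependent : LinearIndependent ℝ (ev : Fin n → EuclideanSpace ℝ (Fin n)) := by
  rw [Fintype.linearIndependent_iff]
  intro g hg i
  have := congrArg (fun x : EuclideanSpace ℝ (Fin n) => x i) hg
  simpa [ev_apply] using this

/-- the simplex spanned by `σ` in coordinates -/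
def splx (σ : Finset (Fin n)) : Set (EuclideanSpace ℝ (Fin n)) :=
  {x | (∀ v, 0 ≤ x v) ∧ ∑ v, x v = 1 ∧ ∀ v, v ∉ σ → x v = 0}

theorem convexHull_ev (σ : Finset (Fin n)) :
    convexHull ℝ ((σ.image ev : Finset (EuclideanSpace ℝ (Fin n))) : Set _) = splx σ := by
  apply Subset.antisymm
  · apply convexHull_min
    · intro x hx
      rw [Finset.mem_coe, Finset.mem_image] at hx
      obtain ⟨v, hv, rfl⟩ := hx
      refine ⟨fun w => ?_, ?_, fun w hw => ?_⟩
      · rw [ev_apply]
        split_ifs <;> norm_num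
      · simp [ev_apply]
      · rw [ev_apply, if_neg]
        rintro rfl
        exact hw hv
    · intro x hx y hy a b ha hb hab
      obtain ⟨h1, h2, h3⟩ := hx
      obtain ⟨k1, k2, k3⟩ := hy
      refine ⟨fun v => ?_, ?_, fun v hv => ?_⟩
      · simp only [PiLp.add_apply, PiLp.smul_apply, smul_eq_mul]
        have := h1 v
        have := k1 v
        positivity
      · simp only [PiLp.add_apply, PiLp.smul_apply, smul_eq_mul, Finset.sum_add_distrib,
          ← Finset.mul_sum, h2, k2, mul_one]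
        exact hab
      · simp only [PiLp.add_apply, PiLp.smul_apply, smul_eq_mul, h3 v hv, k3 v hv, mul_zero,
          add_zero]
  · rintro x ⟨h1, h2, h3⟩
    have hx : x = ∑ v ∈ σ, x v • (ev v : EuclideanSpace ℝ (Fin n)) := by
      ext w
      rw [WithLp.ofLp_sum, Finset.sum_apply]
      simp only [PiLp.smul_apply, ev_apply, smul_eq_mul, mul_ite, mul_one, mul_zero]
      rw [Finset.sum_ite_eq]
      split_ifs with hw
      · rfl
      · exact h3 w hw
    rw [hx]
    apply (convex_convexHull ℝ _).sum_mem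
    · intro v _
      exact h1 v
    · rw [← h2]
      apply Finset.sum_subset (Finset.subset_univ σ)
      intro v _ hv
      exact h3 v hv
    · intro v hv
      apply subset_convexHull
      rw [Finset.mem_coe, Finset.mem_image]
      exact ⟨v, hv, rfl⟩

theorem splx_inter (σ τ : Finset (Fin n)) : splx σ ∩ splx τ ⊆ splx (σ ∩ τ) := by
  rintro x ⟨⟨h1, h2, h3⟩, ⟨-, -, k3⟩⟩
  refine ⟨h1, h2, fun v hv => ?_⟩
  rw [Finset.mem_inter] at hv
  by_cases h : v ∈ σ
  · exact k3 v fun hh => hv ⟨h, hh⟩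
  · exact h3 v h

/-- the geometric complex of an abstract one -/
noncomputable def toGeo (K : Cx n) : Geometry.SimplicialComplex ℝ (EuclideanSpace ℝ (Fin n)) where
  faces := {s | ∃ σ ∈ K.faces, σ.Nonempty ∧ s = σ.image ev}
  isRelLowerSet_faces := by
    rintro s ⟨σ, hσ, hne, rfl⟩
    refine ⟨?_, ?_⟩
    · exact hne.image _
    · intro t ht htne
      refine ⟨σ.filter (fun v => ev v ∈ t), K.down σ hσ _ (Finset.filter_subset _ _), ?_, ?_⟩
      · obtain ⟨x, hx⟩ := htne
        have := ht hx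
        rw [Finset.mem_image] at this
        obtain ⟨v, hv, rfl⟩ := this
        exact ⟨v, Finset.mem_filter.2 ⟨hv, hx⟩⟩
      · ext x
        rw [Finset.mem_image]
        constructor
        · intro hx
          have := ht hx
          rw [Finset.mem_image] at this
          obtain ⟨v, hv, rfl⟩ := this
          exact ⟨v, Finset.mem_filter.2 ⟨hv, hx⟩, rfl⟩
        · rintro ⟨v, hv, rfl⟩
          exact (Finset.mem_filter.1 hv).2
  indep := by
    rintro s ⟨σ, hσ, hne, rfl⟩
    have h1 : AffineIndependent ℝ (ev : Fin n → EuclideanSpace ℝ (Fin n)) :=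
      ev_linearIndependent.affineIndependent
    have h2 := h1.range
    apply h2.mono
    intro x hx
    rw [Finset.mem_coe, Finset.mem_image] at hx
    obtain ⟨v, -, rfl⟩ := hx
    exact ⟨v, rfl⟩
  inter_subset_convexHull := by
    rintro s t ⟨σ, hσ, hne, rfl⟩ ⟨τ, hτ, hne', rfl⟩
    rw [convexHull_ev, convexHull_ev, ← Finset.coe_inter, ← Finset.image_inter _ _ ev_injective,
      convexHull_ev]
    exact splx_inter σ τ

theorem toGeo_space (K : Cx n) : (toGeo K).space =
    {x : EuclideanSpace ℝ (Fin n) | (∀ v, 0 ≤ x v) ∧ ∑ v, x v = 1 ∧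
      ∃ σ ∈ K.faces, ∀ v, v ∉ σ → x v = 0} := by
  ext x
  rw [Geometry.SimplicialComplex.mem_space_iff]
  constructor
  · rintro ⟨s, ⟨σ, hσ, hne, rfl⟩, hx⟩
    rw [convexHull_ev] at hx
    exact ⟨hx.1, hx.2.1, σ, hσ, hx.2.2⟩
  · rintro ⟨h1, h2, σ, hσ, h3⟩
    refine ⟨σ.image ev, ⟨σ, hσ, ?_, rfl⟩, ?_⟩
    · rw [Finset.nonempty_iff_ne_empty]
      rintro rfl
      have : ∑ v, x v = 0 := Finset.sum_eq_zero fun v _ => h3 v (Finset.notMem_empty v)
      rw [this] at h2
      exact zero_ne_one h2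
    · rw [convexHull_ev]
      exact ⟨h1, h2, h3⟩

theorem toGeo_finite (K : Cx n) : (toGeo K).faces.Finite := by
  apply ((K.faces.finite_toSet).image (fun σ => σ.image ev)).subset
  rintro s ⟨σ, hσ, -, rfl⟩
  exact ⟨σ, hσ, rfl⟩

theorem toGeo_ncard (K : Cx n) (k : ℕ) (hk : 0 < k) :
    Set.ncard {s ∈ (toGeo K).faces | s.card = k} = (K.faces.filter (fun σ => σ.card = k)).card := by
  have e : {s ∈ (toGeo K).faces | s.card = k} =
      ((K.faces.filter (fun σ => σ.card = k)).image (fun σ => σ.image ev) :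
        Finset (Finset (EuclideanSpace ℝ (Fin n)))) := by
    ext s
    simp only [Finset.coe_image, mem_image, Finset.mem_coe, Finset.mem_filter]
    constructor
    · rintro ⟨⟨σ, hσ, hne, rfl⟩, hc⟩
      refine ⟨σ, ⟨hσ, ?_⟩, rfl⟩
      rw [Finset.card_image_of_injective _ ev_injective] at hc
      exact hc
    · rintro ⟨σ, ⟨hσ, hc⟩, rfl⟩
      refine ⟨⟨σ, hσ, ?_, rfl⟩, ?_⟩
      · rw [← Finset.card_pos]; omega
      · rw [Finset.card_image_of_injective _ ev_injective]
        exact hc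
  rw [e, Set.ncard_coe_finset, Finset.card_image_of_injective]
  exact Finset.image_injective ev_injective

theorem toGeo_homeo (K : Cx n) : Nonempty ((toGeo K).space ≃ₜ K.space) := by
  rw [toGeo_space]
  refine ⟨Homeomorph.sets (EuclideanSpace.equiv (Fin n) ℝ).toHomeomorph ?_⟩
  rfl

end toGeo

section ofGeo

variable {m : ℕ}

/-- points with coordinates supported in `ρ` -/
theorem exists_coord {n : ℕ} (ν : Fin n → EuclideanSpace ℝ (Fin m)) (ρ : Finset (Fin n))
    {p : EuclideanSpace ℝ (Fin m)}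
    (hp : p ∈ convexHull ℝ ((ρ.image ν : Finset (EuclideanSpace ℝ (Fin m))) : Set _)) :
    ∃ z : Fin n → ℝ, (∀ i, 0 ≤ z i) ∧ ∑ i, z i = 1 ∧ (∀ i, i ∉ ρ → z i = 0) ∧
      ∑ i, z i • ν i = p := by
  classical
  have key : convexHull ℝ ((ρ.image ν : Finset (EuclideanSpace ℝ (Fin m))) : Set _) ⊆
      {p | ∃ z : Fin n → ℝ, (∀ i, 0 ≤ z i) ∧ ∑ i, z i = 1 ∧ (∀ i, i ∉ ρ → z i = 0) ∧
        ∑ i, z i • ν i = p} := by
    apply convexHull_min
    · intro x hx
      rw [Finset.mem_coe, Finset.mem_image] at hx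
      obtain ⟨v, hv, rfl⟩ := hx
      refine ⟨fun i => if i = v then 1 else 0, fun i => ?_, by simp, fun i hi => ?_, by simp⟩
      · show (0 : ℝ) ≤ if i = v then 1 else 0
        split_ifs <;> norm_num
      · show (if i = v then (1 : ℝ) else 0) = 0
        rw [if_neg]
        rintro rfl
        exact hi hv
    · rintro x ⟨z, h1, h2, h3, rfl⟩ y ⟨w, k1, k2, k3, rfl⟩ a b ha hb hab
      refine ⟨fun i => a * z i + b * w i, fun i => ?_, ?_, fun i hi => ?_, ?_⟩
      · have := h1 i
        have := k1 i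
        positivity
      · rw [Finset.sum_add_distrib, ← Finset.mul_sum, ← Finset.mul_sum, h2, k2, mul_one, mul_one]
        exact hab
      · show a * z i + b * w i = 0
        rw [h3 i hi, k3 i hi, mul_zero, mul_zero, add_zero]
      · simp only [add_smul, Finset.sum_add_distrib, mul_smul, Finset.smul_sum]
  exact key hp

theorem mem_hull {n : ℕ} (ν : Fin n → EuclideanSpace ℝ (Fin m)) (ρ : Finset (Fin n))
    {z : Fin n → ℝ} (h1 : ∀ i, 0 ≤ z i) (h2 : ∑ i, z i = 1) (h3 : ∀ i, i ∉ ρ → z i = 0) :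
    ∑ i, z i • ν i ∈ convexHull ℝ ((ρ.image ν : Finset (EuclideanSpace ℝ (Fin m))) : Set _) := by
  have e : ∑ i, z i • ν i = ∑ i ∈ ρ, z i • ν i := by
    symm
    apply Finset.sum_subset (Finset.subset_univ ρ)
    intro v _ hv
    rw [h3 v hv, zero_smul]
  rw [e]
  apply (convex_convexHull ℝ _).sum_mem
  · intro v _
    exact h1 v
  · rw [← h2]
    apply Finset.sum_subset (Finset.subset_univ ρ)
    intro v _ hv
    exact h3 v hv
  · intro v hv
    apply subset_convexHull
    rw [Finset.mem_coe, Finset.mem_image]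
    exact ⟨v, hv, rfl⟩

theorem coord_unique {n : ℕ} {ν : Fin n → EuclideanSpace ℝ (Fin m)}
    (hν : Function.Injective ν) {σ : Finset (Fin n)}
    (hσ : AffineIndependent ℝ (Subtype.val : {a // a ∈ σ.image ν} →
      EuclideanSpace ℝ (Fin m))) {x y : Fin n → ℝ} (hx : ∀ i, i ∉ σ → x i = 0)
    (hy : ∀ i, i ∉ σ → y i = 0) (hs : ∑ i, x i = ∑ i, y i)
    (hp : ∑ i, x i • ν i = ∑ i, y i • ν i) : x = y := by
  classical
  have h1 : AffineIndependent ℝ (fun i : σ => ν i) := by
    have := hσ.comp_embedding (⟨fun i : σ => (⟨ν i, Finset.mem_image_of_mem _ i.2⟩ :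
      {a // a ∈ σ.image ν}), fun i j hij => by
        have h2 : ν i = ν j := congrArg Subtype.val hij
        exact Subtype.ext (hν h2)⟩)
    exact this
  rw [affineIndependent_iff] at h1
  have h2 : ∑ i : σ, (x i - y i) = 0 := by
    rw [Finset.sum_coe_sort σ (fun i => x i - y i)]
    rw [Finset.sum_sub_distrib]
    have e1 : ∑ i ∈ σ, x i = ∑ i, x i :=
      Finset.sum_subset (Finset.subset_univ σ) (fun v _ hv => hx v hv)
    have e2 : ∑ i ∈ σ, y i = ∑ i, y i :=
      Finset.sum_subset (Finset.subset_univ σ) (fun v _ hv => hy v hv)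
    rw [e1, e2, hs, sub_self]
  have h3 : ∑ i : σ, (x i - y i) • ν i = 0 := by
    rw [Finset.sum_coe_sort σ (fun i => (x i - y i) • ν i)]
    simp only [sub_smul]
    rw [Finset.sum_sub_distrib]
    have e1 : ∑ i ∈ σ, x i • ν i = ∑ i, x i • ν i :=
      Finset.sum_subset (Finset.subset_univ σ) (fun v _ hv => by rw [hx v hv, zero_smul])
    have e2 : ∑ i ∈ σ, y i • ν i = ∑ i, y i • ν i :=
      Finset.sum_subset (Finset.subset_univ σ) (fun v _ hv => by rw [hy v hv, zero_smul])
    rw [e1, e2, hp, sub_self]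
  funext i
  by_cases hi : i ∈ σ
  · have := h1 Finset.univ (fun i => x i - y i) h2 h3 ⟨i, hi⟩ (Finset.mem_univ _)
    exact sub_eq_zero.1 this
  · rw [hx i hi, hy i hi]

theorem isCompact_space {n : ℕ} (L : Cx n) : IsCompact L.space := by
  have e : L.space = ⋃ σ ∈ L.faces, {x : Fin n → ℝ | (∀ v, 0 ≤ x v) ∧ ∑ v, x v = 1 ∧
      ∀ v, v ∉ σ → x v = 0} := by
    ext x
    simp only [Cx.space, mem_iUnion, exists_prop]
    constructor
    · rintro ⟨h1, h2, σ, hσ, h3⟩
      exact ⟨σ, hσ, h1, h2, h3⟩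
    · rintro ⟨σ, hσ, h1, h2, h3⟩
      exact ⟨h1, h2, σ, hσ, h3⟩
  rw [e]
  apply L.faces.isCompact_biUnion
  intro σ _
  have hcl : IsClosed {x : Fin n → ℝ | ∀ v, v ∉ σ → x v = 0} := by
    simp only [setOf_forall]
    exact isClosed_iInter fun v => isClosed_iInter fun _ =>
      isClosed_eq (continuous_apply v) continuous_const
  have := (isCompact_stdSimplex ℝ (Fin n)).inter_right hcl
  convert this using 1
  ext x
  simp only [stdSimplex, mem_inter_iff, mem_setOf_eq, and_assoc]

/-- every finite geometric complex has an abstract version -/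
theorem exists_abstract (K : Geometry.SimplicialComplex ℝ (EuclideanSpace ℝ (Fin m)))
    (hK : K.faces.Finite) : ∃ (n : ℕ) (L : Cx n), Nonempty (L.space ≃ₜ K.space) ∧
      ∀ k, L.f k = Set.ncard {s ∈ K.faces | s.card = k + 1} := by
  classical
  have hV : K.vertices.Finite := by
    have : K.vertices = (fun x => ({x} : Finset (EuclideanSpace ℝ (Fin m)))) ⁻¹' K.faces := by
      ext x
      rfl
    rw [this]
    exact hK.preimage (Finset.singleton_injective.injOn)
  obtain ⟨n, ν, hν, hrange⟩ : ∃ (n : ℕ) (ν : Fin n → EuclideanSpace ℝ (Fin m)),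
      Function.Injective ν ∧ Set.range ν = K.vertices := by
    have hft := hV.fintype
    let e := (Fintype.equivFin K.vertices).symm
    refine ⟨_, fun i => (e i : EuclideanSpace ℝ (Fin m)), ?_, ?_⟩
    · intro i j hij
      exact e.injective (Subtype.ext hij)
    · ext x
      constructor
      · rintro ⟨i, rfl⟩
        exact (e i).2
      · intro hx
        exact ⟨e.symm ⟨x, hx⟩, by simp⟩
  have himg : ∀ s ∈ K.faces, ∃ σ : Finset (Fin n), s = σ.image ν := by
    intro s hs
    refine ⟨Finset.univ.filter (fun i => ν i ∈ s), ?_⟩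
    ext x
    rw [Finset.mem_image]
    constructor
    · intro hx
      have hxV : x ∈ K.vertices := by
        rw [Geometry.SimplicialComplex.vertices_eq]
        exact mem_biUnion hs hx
      rw [← hrange] at hxV
      obtain ⟨i, rfl⟩ := hxV
      exact ⟨i, Finset.mem_filter.2 ⟨Finset.mem_univ _, hx⟩, rfl⟩
    · rintro ⟨i, hi, rfl⟩
      exact (Finset.mem_filter.1 hi).2
  let L : Cx n :=
    { faces := Finset.univ.filter (fun σ : Finset (Fin n) => σ = ∅ ∨ σ.image ν ∈ K.faces)
      empty_mem := Finset.mem_filter.2 ⟨Finset.mem_univ _, Or.inl rfl⟩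
      down := by
        intro σ hσ τ hτ
        rw [Finset.mem_filter] at hσ ⊢
        refine ⟨Finset.mem_univ _, ?_⟩
        rcases τ.eq_empty_or_nonempty with h0 | h0
        · exact Or.inl h0
        · right
          rcases hσ.2 with h1 | h1
          · rw [h1, Finset.subset_empty] at hτ
            rw [hτ] at h0
            exact absurd h0 Finset.not_nonempty_empty
          · exact K.down_closed h1 (Finset.image_subset_image hτ) (h0.image _) }
  have hLmem : ∀ σ : Finset (Fin n), σ ∈ L.faces ↔ σ = ∅ ∨ σ.image ν ∈ K.faces := by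
    intro σ
    show σ ∈ Finset.univ.filter _ ↔ _
    rw [Finset.mem_filter]
    simp
  have hface : ∀ x ∈ L.space, ∃ σ : Finset (Fin n), σ.image ν ∈ K.faces ∧
      ∀ v, v ∉ σ → x v = 0 := by
    rintro x ⟨h1, h2, σ, hσ, h3⟩
    refine ⟨σ, ?_, h3⟩
    rcases (hLmem σ).1 hσ with h4 | h4
    · exfalso
      have : ∑ v, x v = 0 := Finset.sum_eq_zero fun v _ => h3 v (by rw [h4]; simp)
      rw [this] at h2
      exact zero_ne_one h2
    · exact h4
  have hmaps : ∀ x : L.space, ∑ i, x.1 i • ν i ∈ K.space := by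
    rintro ⟨x, hx⟩
    obtain ⟨σ, hσ, h3⟩ := hface x hx
    exact Geometry.SimplicialComplex.convexHull_subset_space hσ (mem_hull ν σ hx.1 hx.2.1 h3)
  let f : L.space → K.space := fun x => ⟨∑ i, x.1 i • ν i, hmaps x⟩
  have hfc : Continuous f := by
    apply Continuous.subtype_mk
    apply continuous_finset_sum
    intro i _
    have h1 : Continuous (fun a : L.space => a.1 i) :=
      (continuous_apply i).comp continuous_subtype_val
    exact h1.smul continuous_const
  have hfi : Function.Injective f := by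
    rintro ⟨x, hx⟩ ⟨y, hy⟩ hxy
    have hp : ∑ i, x i • ν i = ∑ i, y i • ν i := congrArg Subtype.val hxy
    obtain ⟨σ, hσ, h3⟩ := hface x hx
    obtain ⟨τ, hτ, k3⟩ := hface y hy
    have hmem : ∑ i, x i • ν i ∈
        convexHull ℝ ((σ.image ν : Finset (EuclideanSpace ℝ (Fin m))) : Set _) ∩
        convexHull ℝ ((τ.image ν : Finset (EuclideanSpace ℝ (Fin m))) : Set _) :=
      ⟨mem_hull ν σ hx.1 hx.2.1 h3, by rw [hp]; exact mem_hull ν τ hy.1 hy.2.1 k3⟩
    have hmem2 := K.inter_subset_convexHull hσ hτ hmem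
    rw [← Finset.coe_inter, ← Finset.image_inter _ _ hν] at hmem2
    obtain ⟨z, z1, z2, z3, z4⟩ := exists_coord ν (σ ∩ τ) hmem2
    have e1 : x = z := coord_unique hν (K.indep hσ) h3
      (fun i hi => z3 i (fun hh => hi (Finset.mem_inter.1 hh).1)) (by rw [hx.2.1, z2]) z4.symm
    have e2 : y = z := coord_unique hν (K.indep hτ) k3
      (fun i hi => z3 i (fun hh => hi (Finset.mem_inter.1 hh).2)) (by rw [hy.2.1, z2])
      (by rw [← hp, z4])
    exact Subtype.ext (e1.trans e2.symm)
  have hfs : Function.Surjective f := by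
    rintro ⟨p, hp⟩
    rw [Geometry.SimplicialComplex.mem_space_iff] at hp
    obtain ⟨s, hs, hps⟩ := hp
    obtain ⟨σ, rfl⟩ := himg s hs
    obtain ⟨z, z1, z2, z3, z4⟩ := exists_coord ν σ hps
    exact ⟨⟨z, z1, z2, σ, (hLmem σ).2 (Or.inr hs), z3⟩, Subtype.ext z4⟩
  have : CompactSpace L.space := isCompact_iff_compactSpace.1 (isCompact_space L)
  refine ⟨n, L, ⟨Continuous.homeoOfEquivCompactToT2 (f := Equiv.ofBijective f ⟨hfi, hfs⟩) hfc⟩, ?_⟩
  intro k
  have e : {s ∈ K.faces | s.card = k + 1} =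
      ((L.faces.filter (fun σ => σ.card = k + 1)).image (fun σ => σ.image ν) :
        Finset (Finset (EuclideanSpace ℝ (Fin m)))) := by
    ext s
    simp only [Finset.coe_image, mem_image, Finset.mem_coe, Finset.mem_filter]
    constructor
    · rintro ⟨hs, hc⟩
      obtain ⟨σ, rfl⟩ := himg s hs
      refine ⟨σ, ⟨(hLmem σ).2 (Or.inr hs), ?_⟩, rfl⟩
      rw [Finset.card_image_of_injective _ hν] at hc
      exact hc
    · rintro ⟨σ, ⟨hσ, hc⟩, rfl⟩
      refine ⟨?_, ?_⟩
      · rcases (hLmem σ).1 hσ with h1 | h1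
        · rw [h1, Finset.card_empty] at hc
          omega
        · exact h1
      · rw [Finset.card_image_of_injective _ hν]
        exact hc
  rw [e, Set.ncard_coe_finset, Finset.card_image_of_injective _ (Finset.image_injective hν)]
  rfl

end ofGeo

/-- The set of values in the frozen statement. -/
def Zset (d : ℕ) (M : Type) [TopologicalSpace M] : Set ℤ :=
  {z : ℤ | ∃ n : ℕ, ∃ K : Geometry.SimplicialComplex ℝ (EuclideanSpace ℝ (Fin n)),
      K.faces.Finite ∧ Nonempty (K.space ≃ₜ M) ∧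
      z = ((Set.ncard {s ∈ K.faces | s.card = 2} : ℕ) : ℤ)
        - ((d : ℤ) + 1) * ((Set.ncard {s ∈ K.faces | s.card = 1} : ℕ) : ℤ)}

theorem mem_Zset {d : ℕ} {M : Type} [TopologicalSpace M] {z : ℤ} :
    z ∈ Zset d M ↔ ∃ (n : ℕ) (L : Cx n), IsTriangulation M L ∧
      z = (L.f 1 : ℤ) - ((d : ℤ) + 1) * (L.f 0 : ℤ) := by
  constructor
  · rintro ⟨n, K, hK, ⟨e⟩, rfl⟩
    obtain ⟨n', L, ⟨e'⟩, hf⟩ := exists_abstract K hK
    refine ⟨n', L, ⟨e'.trans e⟩, ?_⟩
    rw [hf 1, hf 0]
  · rintro ⟨n, L, ⟨e⟩, rfl⟩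
    obtain ⟨e'⟩ := toGeo_homeo L
    refine ⟨n, toGeo L, toGeo_finite L, ⟨e'.trans e⟩, ?_⟩
    rw [toGeo_ncard L 2 (by norm_num), toGeo_ncard L 1 (by norm_num)]
    rfl

theorem sInf_Zset {d : ℕ} {M : Type} [TopologicalSpace M] {g : ℤ} (hg : IsGamma d M g) :
    (Zset d M).Nonempty ∧ sInf (Zset d M) = g := by
  have hlb : g ∈ lowerBounds (Zset d M) := by
    intro z hz
    obtain ⟨n, L, hL, rfl⟩ := mem_Zset.1 hz
    have h1 : Adm d M g := hg.1
    have := h1 n L hL
    linarith
  have hmem : g ∈ Zset d M := by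
    by_contra hcon
    have hadm : Adm d M (g + 1) := by
      intro n L hL
      have h1 : Adm d M g := hg.1
      have h2 := h1 n L hL
      have h3 : (L.f 1 : ℤ) - ((d : ℤ) + 1) * (L.f 0 : ℤ) ≠ g := by
        intro h4
        exact hcon (mem_Zset.2 ⟨n, L, hL, h4.symm⟩)
      have h5 : g < (L.f 1 : ℤ) - ((d : ℤ) + 1) * (L.f 0 : ℤ) :=
        lt_of_le_of_ne (by linarith) (Ne.symm h3)
      have h6 : g + 1 ≤ (L.f 1 : ℤ) - ((d : ℤ) + 1) * (L.f 0 : ℤ) := h5
      linarith
    have := hg.2 hadm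
    linarith
  exact ⟨⟨g, hmem⟩, (IsLeast.csInf_eq ⟨hmem, hlb⟩)⟩

end Pool.Agent.H874R2.Geo
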