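import Pool.Agent.Helper585.Wk.Defs

set_option autoImplicit false
set_option linter.unusedSectionVars false

/-! Abstract gluing lemma: from closed gluing to open gluing. -/

namespace Pool.Agent.H874R2.Glue

open Set Topology

variable {X Y P : Type*} [TopologicalSpace X] [TopologicalSpace Y] [TopologicalSpace P]

/-- gluing data -/
structure GD (A : Set X) (B : Set Y) (SX : Set X) (jA : X → P) (jB : Y → P)
    (Ψ : OpenPartialHomeomorph X Y) : Prop where
  clA : IsClosed A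
  clB : IsClosed B
  sub : SX ⊆ A
  subV : SX ⊆ Ψ.source
  opA : IsOpen (A \ SX)
  opB : IsOpen (B \ Ψ '' SX)
  cA : ContinuousOn jA A
  cB : ContinuousOn jB B
  iA : InjOn jA A
  iB : InjOn jB B
  eq : ∀ x ∈ A, ∀ y ∈ B, (jA x = jB y ↔ x ∈ SX ∧ Ψ x = y)
  cov : jA '' A ∪ jB '' B = univ
  op : ∀ O : Set P, (∃ W, IsOpen W ∧ jA ⁻¹' O ∩ A = W ∩ A) →
    (∃ W, IsOpen W ∧ jB ⁻¹' O ∩ B = W ∩ B) → IsOpen O
  m1 : ∀ x ∈ Ψ.source, x ∉ A → Ψ x ∈ B
  m2 : ∀ x ∈ Ψ.source, x ∈ A → (Ψ x ∈ B ↔ x ∈ SX)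

variable {A : Set X} {B : Set Y} {SX : Set X} {jA : X → P} {jB : Y → P}
  {Ψ : OpenPartialHomeomorph X Y}

theorem GD.symm (g : GD A B SX jA jB Ψ) : GD B A (Ψ '' SX) jB jA Ψ.symm := by
  have himg : Ψ.symm '' (Ψ '' SX) = SX := by
    rw [image_image]
    apply Subset.antisymm
    · rintro _ ⟨x, hx, rfl⟩
      show Ψ.symm (Ψ x) ∈ SX
      rw [Ψ.left_inv (g.subV hx)]
      exact hx
    · intro x hx
      exact ⟨x, hx, Ψ.left_inv (g.subV hx)⟩
  refine ⟨g.clB, g.clA, ?_, ?_, g.opB, by rw [himg]; exact g.opA, g.cB, g.cA, g.iB, g.iA, ?_, ?_,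
    fun O h1 h2 => g.op O h2 h1, ?_, ?_⟩
  · rintro _ ⟨x, hx, rfl⟩
    exact (g.m2 x (g.subV hx) (g.sub hx)).2 hx
  · rintro _ ⟨x, hx, rfl⟩
    exact Ψ.map_source (g.subV hx)
  · intro y hy x hx
    rw [eq_comm, g.eq x hx y hy]
    constructor
    · rintro ⟨h1, rfl⟩
      exact ⟨⟨x, h1, rfl⟩, Ψ.left_inv (g.subV h1)⟩
    · rintro ⟨⟨x', hx', rfl⟩, h2⟩
      rw [Ψ.left_inv (g.subV hx')] at h2
      subst h2
      exact ⟨hx', rfl⟩
  · rw [union_comm]; exact g.cov
  · intro y hy hyB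
    by_contra hcon
    apply hyB
    have := g.m1 (Ψ.symm y) (Ψ.map_target hy) hcon
    rwa [Ψ.right_inv hy] at this
  · intro y hy hyB
    constructor
    · intro hyA
      have := (g.m2 (Ψ.symm y) (Ψ.map_target hy) hyA).1 (by rw [Ψ.right_inv hy]; exact hyB)
      exact ⟨_, this, Ψ.right_inv hy⟩
    · rintro ⟨x, hx, rfl⟩
      rw [Ψ.left_inv (g.subV hx)]
      exact g.sub hx

open Classical in
/-- the extended inclusion -/
noncomputable def ext (A : Set X) (jA : X → P) (jB : Y → P) (Ψ : OpenPartialHomeomorph X Y)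
    (x : X) : P := if x ∈ A then jA x else jB (Ψ x)

theorem ext_mem {x : X} (hx : x ∈ A) : ext A jA jB Ψ x = jA x := by simp [ext, hx]

theorem ext_notMem {x : X} (hx : x ∉ A) : ext A jA jB Ψ x = jB (Ψ x) := by simp [ext, hx]

theorem GD.isOpen_dom (g : GD A B SX jA jB Ψ) : IsOpen (A ∪ Ψ.source) := by
  have : A ∪ Ψ.source = (A \ SX) ∪ Ψ.source := by
    ext x
    simp only [mem_union, Set.mem_sdiff]
    constructor
    · rintro (h | h)
      · by_cases hS : x ∈ SX
        · exact Or.inr (g.subV hS)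
        · exact Or.inl ⟨h, hS⟩
      · exact Or.inr h
    · rintro (h | h)
      · exact Or.inl h.1
      · exact Or.inr h
  rw [this]
  exact g.opA.union Ψ.open_source

theorem GD.ext_B (g : GD A B SX jA jB Ψ) {x : X} (hx : x ∈ Ψ.source) (hB : Ψ x ∈ B) :
    ext A jA jB Ψ x = jB (Ψ x) := by
  by_cases hA : x ∈ A
  · rw [ext_mem hA]
    exact (g.eq x hA _ hB).2 ⟨(g.m2 x hx hA).1 hB, rfl⟩
  · exact ext_notMem hA

theorem GD.continuousOn (g : GD A B SX jA jB Ψ) :
    ContinuousOn (ext A jA jB Ψ) (A ∪ Ψ.source) := by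
  intro x hx
  apply ContinuousAt.continuousWithinAt
  by_cases hxA : x ∈ A
  · by_cases hxS : x ∈ SX
    · -- boundary point
      have h1 : ContinuousWithinAt (ext A jA jB Ψ) A x := by
        apply (g.cA x hxA).congr
        · intro y hy
          exact ext_mem hy
        · exact ext_mem hxA
      set C : Set X := Ψ.source ∩ Ψ ⁻¹' B with hC
      have hxC : x ∈ C := ⟨g.subV hxS, (g.m2 x (g.subV hxS) hxA).2 hxS⟩
      have h2 : ContinuousWithinAt (ext A jA jB Ψ) C x := by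
        have h3 : ContinuousWithinAt (fun y => jB (Ψ y)) C x := by
          apply ContinuousWithinAt.comp (t := B) (g.cB _ hxC.2)
          · exact (Ψ.continuousAt hxC.1).continuousWithinAt
          · intro y hy
            exact hy.2
        apply h3.congr
        · intro y hy
          exact g.ext_B hy.1 hy.2
        · exact g.ext_B hxC.1 hxC.2
      have h3 := h1.union h2
      apply h3.continuousAt
      filter_upwards [Ψ.open_source.mem_nhds (g.subV hxS)] with y hy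
      by_cases hyA : y ∈ A
      · exact Or.inl hyA
      · exact Or.inr ⟨hy, g.m1 y hy hyA⟩
    · have h1 : ContinuousWithinAt (ext A jA jB Ψ) A x := by
        apply (g.cA x hxA).congr
        · intro y hy
          exact ext_mem hy
        · exact ext_mem hxA
      apply h1.continuousAt
      filter_upwards [g.opA.mem_nhds ⟨hxA, hxS⟩] with y hy
      exact hy.1
  · have hxs : x ∈ Ψ.source := hx.resolve_left hxA
    set C : Set X := Ψ.source ∩ Aᶜ with hC
    have hCo : IsOpen C := Ψ.open_source.inter g.clA.isOpen_compl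
    have h3 : ContinuousWithinAt (fun y => jB (Ψ y)) C x := by
      apply ContinuousWithinAt.comp (t := B) (g.cB _ (g.m1 x hxs hxA))
      · exact (Ψ.continuousAt hxs).continuousWithinAt
      · intro y hy
        exact g.m1 y hy.1 hy.2
    have h4 : ContinuousWithinAt (ext A jA jB Ψ) C x := by
      apply h3.congr
      · intro y hy
        exact ext_notMem hy.2
      · exact ext_notMem hxA
    exact h4.continuousAt (hCo.mem_nhds ⟨hxs, hxA⟩)

theorem GD.injOn (g : GD A B SX jA jB Ψ) : InjOn (ext A jA jB Ψ) (A ∪ Ψ.source) := by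
  have key : ∀ x ∈ A, ∀ x' ∈ Ψ.source, x' ∉ A → ext A jA jB Ψ x = ext A jA jB Ψ x' → False := by
    intro x hx x' hx' hx'A h
    rw [ext_mem hx, ext_notMem hx'A, g.eq x hx _ (g.m1 x' hx' hx'A)] at h
    have := Ψ.injOn (g.subV h.1) hx' h.2
    exact hx'A (this ▸ hx)
  intro x hx x' hx' h
  by_cases hA : x ∈ A
  · by_cases hA' : x' ∈ A
    · rw [ext_mem hA, ext_mem hA'] at h
      exact g.iA hA hA' h
    · exact (key x hA x' (hx'.resolve_left hA') hA' h).elim
  · by_cases hA' : x' ∈ A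
    · exact (key x' hA' x (hx.resolve_left hA) hA h.symm).elim
    · rw [ext_notMem hA, ext_notMem hA'] at h
      have h1 := hx.resolve_left hA
      have h2 := hx'.resolve_left hA'
      exact Ψ.injOn h1 h2 (g.iB (g.m1 x h1 hA) (g.m1 x' h2 hA') h)

theorem GD.isOpen_image (g : GD A B SX jA jB Ψ) {W : Set X} (hW : IsOpen W)
    (hWs : W ⊆ A ∪ Ψ.source) : IsOpen (ext A jA jB Ψ '' W) := by
  apply g.op
  · refine ⟨W, hW, ?_⟩
    ext x
    constructor
    · rintro ⟨⟨w, hw, hwx⟩, hxA⟩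
      rw [← ext_mem (jA := jA) (jB := jB) (Ψ := Ψ) hxA] at hwx
      have := g.injOn (hWs hw) (Or.inl hxA) hwx
      exact ⟨this ▸ hw, hxA⟩
    · rintro ⟨hxW, hxA⟩
      exact ⟨⟨x, hxW, ext_mem hxA⟩, hxA⟩
  · refine ⟨Ψ '' (Ψ.source ∩ W), Ψ.isOpen_image_source_inter hW, ?_⟩
    ext y
    constructor
    · rintro ⟨⟨w, hw, hwy⟩, hyB⟩
      refine ⟨?_, hyB⟩
      by_cases hwA : w ∈ A
      · rw [ext_mem hwA, g.eq w hwA y hyB] at hwy
        exact ⟨w, ⟨g.subV hwy.1, hw⟩, hwy.2⟩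
      · have hws := (hWs hw).resolve_left hwA
        rw [ext_notMem hwA] at hwy
        exact ⟨w, ⟨hws, hw⟩, g.iB (g.m1 w hws hwA) hyB hwy⟩
    · rintro ⟨⟨w, ⟨hws, hw⟩, rfl⟩, hyB⟩
      exact ⟨⟨w, hw, g.ext_B hws hyB⟩, hyB⟩

theorem GD.ext_eq_iff (g : GD A B SX jA jB Ψ) {p : X} {q : Y} (hp : p ∈ A ∪ Ψ.source)
    (hq : q ∈ B ∪ Ψ.target) :
    ext A jA jB Ψ p = ext B jB jA Ψ.symm q ↔ p ∈ Ψ.source ∧ Ψ p = q := by
  have gs := g.symm
  constructor
  · intro h
    by_cases hpA : p ∈ A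
    · by_cases hqB : q ∈ B
      · rw [ext_mem hpA, ext_mem hqB, g.eq p hpA q hqB] at h
        exact ⟨g.subV h.1, h.2⟩
      · have hqt := hq.resolve_left hqB
        rw [ext_mem hpA, ext_notMem hqB] at h
        have := g.iA hpA (gs.m1 q hqt hqB) h
        rw [this]
        exact ⟨Ψ.map_target hqt, Ψ.right_inv hqt⟩
    · have hps := hp.resolve_left hpA
      by_cases hqB : q ∈ B
      · rw [ext_notMem hpA, ext_mem hqB] at h
        exact ⟨hps, g.iB (g.m1 p hps hpA) hqB h⟩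
      · have hqt := hq.resolve_left hqB
        rw [ext_notMem hpA, ext_notMem hqB, eq_comm, g.eq _ (gs.m1 q hqt hqB) _
          (g.m1 p hps hpA)] at h
        rw [Ψ.right_inv hqt] at h
        exact absurd (h.2 ▸ g.m1 p hps hpA) hqB
  · rintro ⟨hps, rfl⟩
    by_cases hqB : Ψ p ∈ B
    · rw [g.ext_B hps hqB, ext_mem hqB]
    · have hpA : p ∈ A := by
        by_contra hh
        exact hqB (g.m1 p hps hh)
      rw [ext_mem hpA, ext_notMem hqB]
      congr 1
      exact (Ψ.left_inv hps).symm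

theorem GD.openEmbedding (g : GD A B SX jA jB Ψ) {X0 : Set X} (hX0 : X0 = A ∪ Ψ.source) :
    IsOpenEmbedding (fun p : X0 => ext A jA jB Ψ p) := by
  subst hX0
  apply IsOpenEmbedding.of_continuous_injective_isOpenMap
  · exact continuousOn_iff_continuous_domRestrict.1 g.continuousOn
  · intro p q h
    exact Subtype.ext (g.injOn p.2 q.2 h)
  · intro W hW
    have h1 : IsOpen (Subtype.val '' W : Set X) := g.isOpen_dom.isOpenMap_subtype_val W hW
    have h2 := g.isOpen_image h1 (by rintro _ ⟨x, -, rfl⟩; exact x.2)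
    rw [image_image] at h2
    exact h2

end Pool.Agent.H874R2.Glue
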