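import Pool.Agent.H874R2.Glue

set_option autoImplicit false
set_option linter.unusedSectionVars false

/-! Radial maps of Euclidean space. -/

namespace Pool.Agent.H874R2.Glue

open Set Topology Metric

section radial

variable {E : Type*} [NormedAddCommGroup E] [NormedSpace ℝ E]

/-- radial homeomorphism onto the open ball of radius `r`, fixing the unit sphere -/
noncomputable def rho (r : ℝ) (x : E) : E := (r / (r - 1 + ‖x‖)) • x

theorem rho_norm {r : ℝ} (hr : 1 < r) (x : E) : ‖rho r x‖ = r * ‖x‖ / (r - 1 + ‖x‖) := by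
  have h : 0 < r - 1 + ‖x‖ := by have := norm_nonneg x; linarith
  rw [rho, norm_smul, Real.norm_of_nonneg (by positivity)]
  ring

theorem rho_norm_lt {r : ℝ} (hr : 1 < r) (x : E) : ‖rho r x‖ < r := by
  have h : 0 < r - 1 + ‖x‖ := by have := norm_nonneg x; linarith
  rw [rho_norm hr, div_lt_iff₀ h]
  nlinarith

theorem rho_norm_lt_one {r : ℝ} (hr : 1 < r) (x : E) : ‖rho r x‖ < 1 ↔ ‖x‖ < 1 := by
  have h : 0 < r - 1 + ‖x‖ := by have := norm_nonneg x; linarith
  rw [rho_norm hr, div_lt_iff₀ h]
  constructor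
  · intro h1; nlinarith
  · intro h1; nlinarith

theorem rho_norm_eq_one {r : ℝ} (hr : 1 < r) (x : E) : ‖rho r x‖ = 1 ↔ ‖x‖ = 1 := by
  have h : 0 < r - 1 + ‖x‖ := by have := norm_nonneg x; linarith
  rw [rho_norm hr, div_eq_iff h.ne']
  constructor
  · intro h1
    have : (r - 1) * ‖x‖ = (r - 1) * 1 := by linarith
    exact mul_left_cancel₀ (by linarith) this
  · intro h1; rw [h1]; ring

theorem rho_of_norm_one {r : ℝ} (hr : 1 < r) {x : E} (hx : ‖x‖ = 1) : rho r x = x := by
  rw [rho, hx]
  have : r / (r - 1 + 1) = 1 := by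
    rw [sub_add_cancel]
    exact div_self (by linarith)
  rw [this, one_smul]

/-- the radial homeomorphism as a partial homeomorphism -/
noncomputable def rhoPH (r : ℝ) (hr : 1 < r) : OpenPartialHomeomorph E E where
  toFun := rho r
  invFun := fun y => ((r - 1) / (r - ‖y‖)) • y
  source := univ
  target := ball 0 r
  map_source' := fun x _ => by
    rw [mem_ball_zero_iff]
    exact rho_norm_lt hr x
  map_target' := fun y _ => mem_univ _
  left_inv' := fun x _ => by
    have h : 0 < r - 1 + ‖x‖ := by have := norm_nonneg x; linarith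
    have h2 : r - ‖rho r x‖ = r * (r - 1) / (r - 1 + ‖x‖) := by
      rw [rho_norm hr]
      field_simp
      ring
    show ((r - 1) / (r - ‖rho r x‖)) • rho r x = x
    rw [h2, rho, smul_smul]
    have h3 : (r - 1) / (r * (r - 1) / (r - 1 + ‖x‖)) * (r / (r - 1 + ‖x‖)) = 1 := by
      have h4 : r - 1 ≠ 0 := by linarith
      have h5 : r ≠ 0 := by linarith
      field_simp
    rw [h3, one_smul]
  right_inv' := fun y hy => by
    rw [mem_ball_zero_iff] at hy
    have h : 0 < r - ‖y‖ := by linarith
    have h1 : ‖((r - 1) / (r - ‖y‖)) • y‖ = (r - 1) * ‖y‖ / (r - ‖y‖) := by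
      rw [norm_smul, Real.norm_of_nonneg (div_nonneg (by linarith) h.le)]
      ring
    show rho r (((r - 1) / (r - ‖y‖)) • y) = y
    rw [rho, h1, smul_smul]
    have h2 : r - 1 + (r - 1) * ‖y‖ / (r - ‖y‖) = (r - 1) * r / (r - ‖y‖) := by
      field_simp
      ring
    rw [h2]
    have h3 : r / ((r - 1) * r / (r - ‖y‖)) * ((r - 1) / (r - ‖y‖)) = 1 := by
      have h4 : r - 1 ≠ 0 := by linarith
      have h5 : r ≠ 0 := by linarith
      field_simp
    rw [h3, one_smul]
  open_source := isOpen_univ
  open_target := isOpen_ball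
  continuousOn_toFun := by
    apply Continuous.continuousOn
    apply Continuous.smul _ continuous_id
    apply Continuous.div continuous_const (by fun_prop)
    intro x
    have := norm_nonneg x
    linarith
  continuousOn_invFun := by
    apply ContinuousOn.smul _ continuousOn_id
    apply ContinuousOn.div continuousOn_const (by fun_prop)
    intro x hx
    rw [mem_ball_zero_iff] at hx
    linarith

theorem rho_isOpenEmbedding (r : ℝ) (hr : 1 < r) : IsOpenEmbedding (rho r : E → E) :=
  (rhoPH r hr).to_isOpenEmbedding rfl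

theorem rho_surj {r : ℝ} (hr : 1 < r) {y : E} (hy : ‖y‖ < r) : ∃ x, rho r x = y :=
  ⟨_, (rhoPH r hr).right_inv (x := y) (by
    show y ∈ ball 0 r
    rw [mem_ball_zero_iff]; exact hy)⟩

theorem rho_zero (r : ℝ) : rho r (0 : E) = 0 := smul_zero _

open Classical in
/-- radial extension of a self-map of the unit sphere -/
noncomputable def rad (g : sphere (0 : E) 1 → sphere (0 : E) 1) (x : E) : E :=
  if h : x = 0 then 0 else ‖x‖ • (g ⟨(‖x‖)⁻¹ • x, by
    rw [mem_sphere_zero_iff_norm, norm_smul, norm_inv, norm_norm]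
    exact inv_mul_cancel₀ (norm_ne_zero_iff.2 h)⟩ : E)

theorem rad_zero (g : sphere (0 : E) 1 → sphere (0 : E) 1) : rad g 0 = 0 := by
  simp [rad]

theorem rad_ne (g : sphere (0 : E) 1 → sphere (0 : E) 1) {x : E} (h : x ≠ 0)
    (h' : (‖x‖)⁻¹ • x ∈ sphere (0 : E) 1) : rad g x = ‖x‖ • (g ⟨(‖x‖)⁻¹ • x, h'⟩ : E) := by
  simp [rad, h]

theorem unit_mem {x : E} (h : x ≠ 0) : (‖x‖)⁻¹ • x ∈ sphere (0 : E) 1 := by
  rw [mem_sphere_zero_iff_norm, norm_smul, norm_inv, norm_norm]
  exact inv_mul_cancel₀ (norm_ne_zero_iff.2 h)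

theorem rad_norm (g : sphere (0 : E) 1 → sphere (0 : E) 1) (x : E) : ‖rad g x‖ = ‖x‖ := by
  by_cases h : x = 0
  · rw [h, rad_zero]
  · rw [rad_ne g h (unit_mem h), norm_smul, norm_norm]
    have := (g ⟨(‖x‖)⁻¹ • x, unit_mem h⟩).2
    rw [mem_sphere_zero_iff_norm] at this
    rw [this, mul_one]

theorem rad_unit (g : sphere (0 : E) 1 → sphere (0 : E) 1) (x : sphere (0 : E) 1) :
    rad g x = g x := by
  have hx : ‖(x : E)‖ = 1 := mem_sphere_zero_iff_norm.1 x.2
  have h0 : (x : E) ≠ 0 := by
    intro h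
    rw [h, norm_zero] at hx
    exact zero_ne_one hx
  have key : (⟨(‖(x : E)‖)⁻¹ • (x : E), unit_mem h0⟩ : sphere (0 : E) 1) = x := by
    apply Subtype.ext
    show (‖(x : E)‖)⁻¹ • (x : E) = x
    rw [hx, _root_.inv_one, one_smul]
  rw [rad_ne g h0 (unit_mem h0), key, hx, one_smul]

theorem rad_comp (f g : sphere (0 : E) 1 → sphere (0 : E) 1) (x : E) :
    rad f (rad g x) = rad (f ∘ g) x := by
  by_cases h : x = 0
  · rw [h, rad_zero, rad_zero, rad_zero]
  · have h1 : rad g x ≠ 0 := by
      intro hh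
      have := rad_norm g x
      rw [hh, norm_zero] at this
      exact h (norm_eq_zero.1 this.symm)
    have key : (⟨(‖rad g x‖)⁻¹ • rad g x, unit_mem h1⟩ : sphere (0 : E) 1) =
        g ⟨(‖x‖)⁻¹ • x, unit_mem h⟩ := by
      apply Subtype.ext
      show (‖rad g x‖)⁻¹ • rad g x = _
      rw [rad_norm, rad_ne g h (unit_mem h), smul_smul, inv_mul_cancel₀ (norm_ne_zero_iff.2 h),
        one_smul]
    rw [rad_ne f h1 (unit_mem h1), key, rad_norm, rad_ne (f ∘ g) h (unit_mem h)]
    rfl

theorem rad_id (x : E) : rad (id : sphere (0 : E) 1 → sphere (0 : E) 1) x = x := by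
  by_cases h : x = 0
  · rw [h, rad_zero]
  · rw [rad_ne id h (unit_mem h)]
    show ‖x‖ • ((‖x‖)⁻¹ • x) = x
    rw [smul_smul, mul_inv_cancel₀ (norm_ne_zero_iff.2 h), one_smul]

theorem rad_continuous {g : sphere (0 : E) 1 → sphere (0 : E) 1} (hg : Continuous g) :
    Continuous (rad g) := by
  rw [continuous_iff_continuousAt]
  intro x
  by_cases h : x = 0
  · subst h
    rw [ContinuousAt, rad_zero, tendsto_zero_iff_norm_tendsto_zero]
    have : (fun x : E => ‖rad g x‖) = fun x => ‖x‖ := by
      funext x; exact rad_norm g x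
    rw [this]
    have := (continuous_norm (E := E)).tendsto 0
    rwa [norm_zero] at this
  · have hopen : IsOpen ({0}ᶜ : Set E) := isOpen_compl_singleton
    have h1 : ContinuousOn (rad g) ({0}ᶜ : Set E) := by
      rw [continuousOn_iff_continuous_domRestrict]
      have h2 : Continuous (fun x : ({0}ᶜ : Set E) => ‖(x : E)‖ •
          (g ⟨(‖(x : E)‖)⁻¹ • (x : E), unit_mem x.2⟩ : E)) := by
        apply Continuous.smul (by fun_prop)
        apply continuous_subtype_val.comp
        apply hg.comp
        apply Continuous.subtype_mk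
        apply Continuous.smul _ continuous_subtype_val
        apply Continuous.inv₀ (by fun_prop)
        intro x
        exact norm_ne_zero_iff.2 x.2
      convert h2 using 1
      funext x
      exact rad_ne g x.2 (unit_mem x.2)
    exact h1.continuousAt (hopen.mem_nhds h)

/-- radial extension of a homeomorphism of the unit sphere -/
noncomputable def radHomeo (g : sphere (0 : E) 1 ≃ₜ sphere (0 : E) 1) : E ≃ₜ E where
  toFun := rad g
  invFun := rad g.symm
  left_inv := fun x => by
    rw [rad_comp]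
    have : (g.symm ∘ g : sphere (0 : E) 1 → sphere (0 : E) 1) = id := by
      funext y; simp
    rw [this, rad_id]
  right_inv := fun x => by
    rw [rad_comp]
    have : (g ∘ g.symm : sphere (0 : E) 1 → sphere (0 : E) 1) = id := by
      funext y; simp
    rw [this, rad_id]
  continuous_toFun := rad_continuous g.continuous
  continuous_invFun := rad_continuous g.symm.continuous

/-- inversion in the unit sphere -/
noncomputable def inv (x : E) : E := (‖x‖ ^ 2)⁻¹ • x

theorem inv_norm (x : E) : ‖inv x‖ = ‖x‖⁻¹ := by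
  by_cases h : x = 0
  · rw [h]; simp [inv]
  · have := norm_ne_zero_iff.2 h
    rw [inv, norm_smul, norm_inv, norm_pow, norm_norm]
    field_simp

theorem inv_inv {x : E} (h : x ≠ 0) : inv (inv x) = x := by
  have := norm_ne_zero_iff.2 h
  rw [inv, inv_norm, inv, smul_smul]
  have : ((‖x‖⁻¹) ^ 2)⁻¹ * (‖x‖ ^ 2)⁻¹ = 1 := by
    field_simp
  rw [this, one_smul]

theorem inv_ne {x : E} (h : x ≠ 0) : inv x ≠ 0 := by
  intro hh
  have := inv_norm x
  rw [hh, norm_zero] at this
  have h2 := norm_ne_zero_iff.2 h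
  exact h2 (inv_eq_zero.1 this.symm)

theorem inv_unit {x : E} (h : ‖x‖ = 1) : inv x = x := by
  rw [inv, h]; simp

/-- inversion as a partial homeomorphism -/
noncomputable def invPH : OpenPartialHomeomorph E E where
  toFun := inv
  invFun := inv
  source := {0}ᶜ
  target := {0}ᶜ
  map_source' := fun x hx => inv_ne hx
  map_target' := fun x hx => inv_ne hx
  left_inv' := fun x hx => inv_inv hx
  right_inv' := fun x hx => inv_inv hx
  open_source := isOpen_compl_singleton
  open_target := isOpen_compl_singleton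
  continuousOn_toFun := by
    apply ContinuousOn.smul _ continuousOn_id
    apply ContinuousOn.inv₀ (by fun_prop)
    intro x hx
    exact pow_ne_zero _ (norm_ne_zero_iff.2 hx)
  continuousOn_invFun := by
    apply ContinuousOn.smul _ continuousOn_id
    apply ContinuousOn.inv₀ (by fun_prop)
    intro x hx
    exact pow_ne_zero _ (norm_ne_zero_iff.2 hx)

end radial

end Pool.Agent.H874R2.Glue
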