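import Pool.Agent.H874R2.Glue2

set_option autoImplicit false
set_option linter.unusedSectionVars false
set_option linter.unusedVariables false

/-! From the closed gluing along cells to the open gluing by inversion. -/

namespace Pool.Agent.H874R2.Glue

open Set Topology Metric
open Pool.Agent.Helper585.Wk

/-- a disk chart with given interior and boundary -/
structure DC {E M : Type*} [NormedAddCommGroup E] [NormedSpace ℝ E] [TopologicalSpace M]
    (I Bd : Set M) (c : E → M) : Prop where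
  emb : IsOpenEmbedding c
  inter : I = c '' {x | ‖x‖ < 1}
  bdry : Bd = c '' {x | ‖x‖ = 1}

section dc

variable {E M N P : Type*} [NormedAddCommGroup E] [NormedSpace ℝ E] [ProperSpace E]
  [TopologicalSpace M] [TopologicalSpace N] [TopologicalSpace P]
  {I Bd : Set M} {c : E → M} {I' Bd' : Set N} {c' : E → N}

theorem DC.mem_inter (h : DC I Bd c) (x : E) : c x ∈ I ↔ ‖x‖ < 1 := by
  rw [h.inter]
  constructor
  · rintro ⟨y, hy, hyx⟩
    rw [← h.emb.injective hyx]
    exact hy
  · intro hx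
    exact ⟨x, hx, rfl⟩

theorem DC.mem_bdry (h : DC I Bd c) (x : E) : c x ∈ Bd ↔ ‖x‖ = 1 := by
  rw [h.bdry]
  constructor
  · rintro ⟨y, hy, hyx⟩
    rw [← h.emb.injective hyx]
    exact hy
  · intro hx
    exact ⟨x, hx, rfl⟩

theorem DC.isOpen (h : DC I Bd c) : IsOpen I := by
  rw [h.inter]
  exact h.emb.isOpenMap _ (isOpen_lt continuous_norm continuous_const)

theorem DC.sub (h : DC I Bd c) : Bd ⊆ Iᶜ := by
  intro x hx
  rw [h.bdry] at hx
  obtain ⟨y, hy, rfl⟩ := hx
  rw [mem_compl_iff, h.mem_inter]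
  have hy' : ‖y‖ = 1 := hy
  rw [hy']
  exact lt_irrefl _

theorem DC.opA [T2Space M] (h : DC I Bd c) : IsOpen (Iᶜ \ Bd) := by
  have e : Iᶜ \ Bd = (c '' closedBall 0 1)ᶜ := by
    rw [h.inter, h.bdry]
    ext x
    simp only [Set.mem_sdiff, mem_compl_iff, mem_image, mem_setOf_eq, mem_closedBall_zero_iff,
      not_exists, not_and]
    constructor
    · rintro ⟨h1, h2⟩ y hy hyx
      rcases lt_or_eq_of_le hy with h3 | h3
      · exact h1 y h3 hyx
      · exact h2 y h3 hyx
    · intro h1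
      exact ⟨fun y hy => h1 y hy.le, fun y hy => h1 y hy.le⟩
  rw [e]
  exact (((isCompact_closedBall 0 1).image h.emb.continuous).isClosed).isOpen_compl

/-- the transition map -/
noncomputable def psi (h : DC I Bd c) (h' : DC I' Bd' c') : OpenPartialHomeomorph M N :=
  (h.emb.toOpenPartialHomeomorph c).symm.trans
    ((invPH (E := E)).trans (h'.emb.toOpenPartialHomeomorph c'))

theorem psi_source (h : DC I Bd c) (h' : DC I' Bd' c') :
    (psi h h').source = c '' {0}ᶜ := by
  ext x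
  simp only [psi, OpenPartialHomeomorph.trans_source, OpenPartialHomeomorph.symm_source,
    mem_inter_iff, mem_preimage, mem_image, IsOpenEmbedding.toOpenPartialHomeomorph_source,
    IsOpenEmbedding.toOpenPartialHomeomorph_target, mem_univ, and_true]
  constructor
  · rintro ⟨⟨y, rfl⟩, h2⟩
    have : (h.emb.toOpenPartialHomeomorph c).symm (c y) = y :=
      (h.emb.toOpenPartialHomeomorph c).left_inv (mem_univ y)
    rw [this] at h2
    exact ⟨y, h2, rfl⟩
  · rintro ⟨y, hy, rfl⟩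
    refine ⟨⟨y, rfl⟩, ?_⟩
    have : (h.emb.toOpenPartialHomeomorph c).symm (c y) = y :=
      (h.emb.toOpenPartialHomeomorph c).left_inv (mem_univ y)
    rw [this]
    exact hy

theorem psi_apply (h : DC I Bd c) (h' : DC I' Bd' c') (y : E) :
    psi h h' (c y) = c' (inv y) := by
  have : (h.emb.toOpenPartialHomeomorph c).symm (c y) = y :=
    (h.emb.toOpenPartialHomeomorph c).left_inv (mem_univ y)
  show c' (inv ((h.emb.toOpenPartialHomeomorph c).symm (c y))) = c' (inv y)
  rw [this]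

theorem psi_target (h : DC I Bd c) (h' : DC I' Bd' c') :
    (psi h h').target = c' '' {0}ᶜ := by
  rw [← (psi h h').image_source_eq_target, psi_source, image_image]
  ext y
  constructor
  · rintro ⟨x, hx, rfl⟩
    exact ⟨inv x, inv_ne hx, (psi_apply h h' x).symm⟩
  · rintro ⟨x, hx, rfl⟩
    refine ⟨inv x, inv_ne hx, ?_⟩
    show psi h h' (c (inv x)) = c' x
    rw [psi_apply, inv_inv hx]

theorem psi_image_bdry (h : DC I Bd c) (h' : DC I' Bd' c') : psi h h' '' Bd = Bd' := by
  ext y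
  constructor
  · rintro ⟨z, hz, rfl⟩
    have hz' := hz
    rw [h.bdry] at hz'
    obtain ⟨x, hx, rfl⟩ := hz'
    rw [psi_apply, inv_unit hx, h'.mem_bdry]
    exact hx
  · intro hy
    have hy' := hy
    rw [h'.bdry] at hy'
    obtain ⟨x, hx, rfl⟩ := hy'
    exact ⟨c x, (h.mem_bdry x).2 hx, by rw [psi_apply, inv_unit hx]⟩

theorem gd_of_dc [T2Space M] [T2Space N] (h : DC I Bd c) (h' : DC I' Bd' c')
    {jA : M → P} {jB : N → P} (cA : ContinuousOn jA Iᶜ) (cB : ContinuousOn jB I'ᶜ)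
    (iA : InjOn jA Iᶜ) (iB : InjOn jB I'ᶜ)
    (eq : ∀ x ∈ Iᶜ, ∀ y ∈ I'ᶜ, (jA x = jB y ↔ ∃ t : E, ‖t‖ = 1 ∧ c t = x ∧ c' t = y))
    (cov : jA '' Iᶜ ∪ jB '' I'ᶜ = univ)
    (op : ∀ O : Set P, (∃ W, IsOpen W ∧ jA ⁻¹' O ∩ Iᶜ = W ∩ Iᶜ) →
      (∃ W, IsOpen W ∧ jB ⁻¹' O ∩ I'ᶜ = W ∩ I'ᶜ) → IsOpen O) :
    GD Iᶜ I'ᶜ Bd jA jB (psi h h') := by
  have m : ∀ x : E, x ≠ 0 → (psi h h' (c x) ∈ I'ᶜ ↔ ‖x‖ ≤ 1) := by
    intro x hx
    rw [psi_apply, mem_compl_iff, h'.mem_inter, inv_norm, not_lt]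
    have := norm_pos_iff.2 hx
    rw [one_le_inv₀ this]
  refine ⟨h.isOpen.isClosed_compl, h'.isOpen.isClosed_compl, h.sub, ?_, h.opA, ?_, cA, cB, iA, iB,
    ?_, cov, op, ?_, ?_⟩
  · rw [psi_source, h.bdry]
    apply image_mono
    intro x hx hx0
    rw [mem_singleton_iff] at hx0
    have hx' : ‖x‖ = 1 := hx
    rw [hx0, norm_zero] at hx'
    exact zero_ne_one hx'
  · rw [psi_image_bdry]
    exact h'.opA
  · intro x hx y hy
    rw [eq x hx y hy]
    constructor
    · rintro ⟨t, ht, rfl, rfl⟩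
      exact ⟨(h.mem_bdry t).2 ht, by rw [psi_apply, inv_unit ht]⟩
    · rintro ⟨hxB, hxy⟩
      rw [h.bdry] at hxB
      obtain ⟨t, ht, rfl⟩ := hxB
      rw [psi_apply, inv_unit ht] at hxy
      exact ⟨t, ht, rfl, hxy⟩
  · intro x hx hxA
    rw [psi_source] at hx
    obtain ⟨t, ht, rfl⟩ := hx
    rw [m t ht]
    rw [mem_compl_iff, not_not, h.mem_inter] at hxA
    exact hxA.le
  · intro x hx hxA
    rw [psi_source] at hx
    obtain ⟨t, ht, rfl⟩ := hx
    rw [m t ht, h.mem_bdry]
    rw [mem_compl_iff, h.mem_inter, not_lt] at hxA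
    exact ⟨fun hh => le_antisymm hh hxA, fun hh => hh.le⟩

theorem dom_eq (h : DC I Bd c) : Iᶜ ∪ c '' {0}ᶜ = {c 0}ᶜ := by
  ext x
  simp only [mem_union, mem_compl_iff, mem_singleton_iff]
  constructor
  · rintro (hx | ⟨y, hy, rfl⟩) h0
    · rw [h0, h.mem_inter, norm_zero] at hx
      exact hx one_pos
    · exact hy (h.emb.injective h0)
  · intro hx
    by_cases hxI : x ∈ I
    · right
      rw [h.inter] at hxI
      obtain ⟨y, hy, rfl⟩ := hxI
      refine ⟨y, ?_, rfl⟩
      rintro h0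
      rw [mem_singleton_iff] at h0
      rw [h0] at hx
      exact hx rfl
    · exact Or.inl hxI

end dc

/-- the open gluing data of the frozen statement -/
def OpenSum (d : ℕ) (M N P : Type) [TopologicalSpace M] [TopologicalSpace N]
    [TopologicalSpace P] : Prop :=
  ∃ a : EuclideanSpace ℝ (Fin d) → M, ∃ b : EuclideanSpace ℝ (Fin d) → N,
    ∃ u : ({a 0}ᶜ : Set M) → P, ∃ v : ({b 0}ᶜ : Set N) → P,
      Topology.IsOpenEmbedding a ∧ Topology.IsOpenEmbedding b ∧
      Topology.IsOpenEmbedding u ∧ Topology.IsOpenEmbedding v ∧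
      Set.range u ∪ Set.range v = Set.univ ∧
      ∀ (p : ({a 0}ᶜ : Set M)) (q : ({b 0}ᶜ : Set N)),
        (u p = v q ↔ ∃ x : EuclideanSpace ℝ (Fin d), x ≠ 0 ∧ (p : M) = a x ∧
          (q : N) = b ((‖x‖ ^ 2)⁻¹ • x))

section main

variable {d : ℕ} {M N : Type} [TopologicalSpace M] [TopologicalSpace N]

theorem openSum_of_gd {P : Type} [TopologicalSpace P] [T2Space M] [T2Space N]
    {I Bd : Set M} {c : EuclideanSpace ℝ (Fin d) → M}
    {I' Bd' : Set N} {c' : EuclideanSpace ℝ (Fin d) → N} (h : DC I Bd c) (h' : DC I' Bd' c')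
    {jA : M → P} {jB : N → P} (g : GD Iᶜ I'ᶜ Bd jA jB (psi h h')) : OpenSum d M N P := by
  have gs := g.symm
  have eX : ({c 0}ᶜ : Set M) = Iᶜ ∪ (psi h h').source := by rw [psi_source, dom_eq h]
  have eY : ({c' 0}ᶜ : Set N) = I'ᶜ ∪ (psi h h').symm.source := by
    rw [OpenPartialHomeomorph.symm_source, psi_target, dom_eq h']
  refine ⟨c, c', fun p => ext Iᶜ jA jB (psi h h') p, fun q => ext I'ᶜ jB jA (psi h h').symm q,
    h.emb, h'.emb, g.openEmbedding eX, gs.openEmbedding eY, ?_, ?_⟩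
  · rw [eq_univ_iff_forall]
    intro z
    have : z ∈ jA '' Iᶜ ∪ jB '' I'ᶜ := by rw [g.cov]; exact mem_univ z
    rcases this with ⟨x, hx, rfl⟩ | ⟨y, hy, rfl⟩
    · exact Or.inl ⟨⟨x, by rw [eX]; exact Or.inl hx⟩, ext_mem hx⟩
    · exact Or.inr ⟨⟨y, by rw [eY]; exact Or.inl hy⟩, ext_mem hy⟩
  · rintro ⟨p, hp⟩ ⟨q, hq⟩
    rw [eX] at hp
    rw [eY] at hq
    show ext Iᶜ jA jB (psi h h') p = ext I'ᶜ jB jA (psi h h').symm q ↔ _
    rw [g.ext_eq_iff hp hq, psi_source]
    constructor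
    · rintro ⟨⟨x, hx, rfl⟩, h2⟩
      rw [psi_apply] at h2
      exact ⟨x, hx, rfl, h2.symm⟩
    · rintro ⟨x, hx, h1, h2⟩
      simp only at h1 h2
      subst h1
      subst h2
      exact ⟨⟨x, hx, rfl⟩, psi_apply h h' x⟩

theorem cell_radius (a : Cell d M) :
    ∃ r : ℝ, 1 < r ∧ ball (0 : EuclideanSpace ℝ (Fin d)) r ⊆ a.U := by
  obtain ⟨δ, hδ, h⟩ := (isCompact_closedBall (0 : EuclideanSpace ℝ (Fin d)) 1).exists_thickening_subset_open
    a.isOpen a.ball_subset
  refine ⟨δ + 1, by linarith, ?_⟩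
  rw [thickening_closedBall hδ zero_le_one] at h
  exact h

/-- the chart of a cell, precomposed with a norm preserving homeomorphism -/
noncomputable def cm (a : Cell d M) (r : ℝ) (hr : 1 < r)
    (hU : ball (0 : EuclideanSpace ℝ (Fin d)) r ⊆ a.U)
    (Φ : EuclideanSpace ℝ (Fin d) ≃ₜ EuclideanSpace ℝ (Fin d))
    (x : EuclideanSpace ℝ (Fin d)) : M :=
  a.toFun ⟨rho r (Φ x), hU (by rw [mem_ball_zero_iff]; exact rho_norm_lt hr _)⟩

theorem cm_dc (a : Cell d M) (r : ℝ) (hr : 1 < r)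
    (hU : ball (0 : EuclideanSpace ℝ (Fin d)) r ⊆ a.U)
    (Φ : EuclideanSpace ℝ (Fin d) ≃ₜ EuclideanSpace ℝ (Fin d)) (hΦ : ∀ x, ‖Φ x‖ = ‖x‖) :
    DC a.inter a.bdry (cm a r hr hU Φ) := by
  have hmem : ∀ x, rho r (Φ x) ∈ a.U := fun x =>
    hU (by rw [mem_ball_zero_iff]; exact rho_norm_lt hr _)
  refine ⟨?_, ?_, ?_⟩
  · have h1 : IsOpenEmbedding (fun x => (⟨rho r (Φ x), hmem x⟩ : a.U)) := by
      apply IsOpenEmbedding.of_comp _ (a.isOpen.isOpenEmbedding_subtypeVal)
      exact (rho_isOpenEmbedding r hr).comp Φ.isOpenEmbedding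
    exact a.emb.comp h1
  · ext x
    constructor
    · rintro ⟨u, hu, rfl⟩
      have hu' : ‖(u : EuclideanSpace ℝ (Fin d))‖ < 1 := mem_ball_zero_iff.1 hu
      obtain ⟨y, hy⟩ := rho_surj hr (hu'.trans hr)
      refine ⟨Φ.symm y, ?_, ?_⟩
      · show ‖Φ.symm y‖ < 1
        rw [← hΦ, Φ.apply_symm_apply, ← rho_norm_lt_one hr, hy]
        exact hu'
      · unfold cm
        congr 1
        apply Subtype.ext
        show rho r (Φ (Φ.symm y)) = u
        rw [Φ.apply_symm_apply, hy]
    · rintro ⟨y, hy, rfl⟩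
      refine ⟨⟨rho r (Φ y), hmem y⟩, ?_, rfl⟩
      show rho r (Φ y) ∈ ball (0 : EuclideanSpace ℝ (Fin d)) 1
      rw [mem_ball_zero_iff, rho_norm_lt_one hr, hΦ]
      exact hy
  · ext x
    constructor
    · rintro ⟨u, hu, rfl⟩
      have hu' : ‖(u : EuclideanSpace ℝ (Fin d))‖ = 1 := mem_sphere_zero_iff_norm.1 hu
      obtain ⟨y, hy⟩ := rho_surj hr (hu'.symm ▸ hr : ‖(u : EuclideanSpace ℝ (Fin d))‖ < r)
      refine ⟨Φ.symm y, ?_, ?_⟩
      · show ‖Φ.symm y‖ = 1
        rw [← hΦ, Φ.apply_symm_apply, ← rho_norm_eq_one hr, hy]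
        exact hu'
      · unfold cm
        congr 1
        apply Subtype.ext
        show rho r (Φ (Φ.symm y)) = u
        rw [Φ.apply_symm_apply, hy]
    · rintro ⟨y, hy, rfl⟩
      refine ⟨⟨rho r (Φ y), hmem y⟩, ?_, rfl⟩
      show rho r (Φ y) ∈ sphere (0 : EuclideanSpace ℝ (Fin d)) 1
      rw [mem_sphere_zero_iff_norm, rho_norm_eq_one hr, hΦ]
      exact hy

/-- the parametrisation of the boundary sphere of a cell -/
theorem bdry_homeo (a : Cell d M) :
    ∃ s : sphere (0 : EuclideanSpace ℝ (Fin d)) 1 ≃ₜ a.bdry,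
      ∀ x, (s x : M) = a.toFun ⟨x, a.ball_subset (sphere_subset_closedBall x.2)⟩ := by
  have hemb : IsEmbedding (fun x : sphere (0 : EuclideanSpace ℝ (Fin d)) 1 =>
      a.toFun ⟨x, a.ball_subset (sphere_subset_closedBall x.2)⟩) := by
    apply a.emb.isEmbedding.comp
    apply IsEmbedding.of_comp _ continuous_subtype_val
    · exact IsEmbedding.subtypeVal
    · exact Continuous.subtype_mk continuous_subtype_val _
  have hrange : range (fun x : sphere (0 : EuclideanSpace ℝ (Fin d)) 1 =>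
      a.toFun ⟨x, a.ball_subset (sphere_subset_closedBall x.2)⟩) = a.bdry := by
    ext y
    constructor
    · rintro ⟨x, rfl⟩
      exact ⟨⟨x, a.ball_subset (sphere_subset_closedBall x.2)⟩, x.2, rfl⟩
    · rintro ⟨u, hu, rfl⟩
      exact ⟨⟨u, hu⟩, rfl⟩
  exact ⟨hemb.toHomeomorph.trans (Homeomorph.setCongr hrange), fun x => rfl⟩

theorem quot_eq (a : Cell d M) (b : Cell d N) (φ : a.bdry ≃ₜ b.bdry)
    (s t : ((a.inter)ᶜ : Set M) ⊕ ((b.inter)ᶜ : Set N)) :
    Quot.mk (GlueRel a b φ) s = Quot.mk (GlueRel a b φ) t ↔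
      s = t ∨ GlueRel a b φ s t ∨ GlueRel a b φ t s := by
  constructor
  · intro h
    rw [Quot.eq] at h
    induction h with
    | rel x y h => exact Or.inr (Or.inl h)
    | refl x => exact Or.inl rfl
    | symm x y _ ih =>
      rcases ih with h | h | h
      · exact Or.inl h.symm
      · exact Or.inr (Or.inr h)
      · exact Or.inr (Or.inl h)
    | trans x y z _ _ ih1 ih2 =>
      rcases ih1 with rfl | h1 | h1
      · exact ih2
      · rcases ih2 with rfl | h2 | h2
        · exact Or.inr (Or.inl h1)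
        · cases h1 with
          | mk x hx hy => cases h2
        · left
          cases h1 with
          | mk x hx hy =>
            generalize hw : (Sum.inr ⟨((φ x : b.bdry) : N), hy⟩ : ((a.inter)ᶜ : Set M) ⊕ ((b.inter)ᶜ : Set N)) = w at h2
            cases h2 with
            | mk x' hx' hy' =>
              have h3 := Sum.inr.inj hw
              have h4 : ((φ x : b.bdry) : N) = (φ x' : b.bdry) :=
                congrArg (Subtype.val : ((b.inter)ᶜ : Set N) → N) h3
              have h5 : x = x' := φ.injective (Subtype.ext h4)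
              subst h5
              rfl
      · rcases ih2 with rfl | h2 | h2
        · exact Or.inr (Or.inr h1)
        · left
          cases h1 with
          | mk x hx hy =>
            generalize hw : (Sum.inl ⟨(x : M), hx⟩ : ((a.inter)ᶜ : Set M) ⊕ ((b.inter)ᶜ : Set N)) = w at h2
            cases h2 with
            | mk x' hx' hy' =>
              have h3 := Sum.inl.inj hw
              have h4 : ((x : a.bdry) : M) = (x' : a.bdry) :=
                congrArg (Subtype.val : ((a.inter)ᶜ : Set M) → M) h3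
              have h5 : x = x' := Subtype.ext h4
              subst h5
              rfl
        · cases h1 with
          | mk x hx hy => cases h2
  · rintro (rfl | h | h)
    · rfl
    · exact Quot.sound h
    · exact (Quot.sound h).symm

open Classical in
theorem openSum_quot [T2Space M] [T2Space N] (a : Cell d M) (b : Cell d N)
    (φ : a.bdry ≃ₜ b.bdry) (q0 : Quot (GlueRel a b φ)) :
    OpenSum d M N (Quot (GlueRel a b φ)) := by
  obtain ⟨r, hr, hU⟩ := cell_radius a
  obtain ⟨r', hr', hU'⟩ := cell_radius b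
  obtain ⟨s, hs⟩ := bdry_homeo a
  obtain ⟨s', hs'⟩ := bdry_homeo b
  set φ₀ : sphere (0 : EuclideanSpace ℝ (Fin d)) 1 ≃ₜ sphere (0 : EuclideanSpace ℝ (Fin d)) 1 :=
    s.trans (φ.trans s'.symm) with hφ₀
  have h := cm_dc a r hr hU (Homeomorph.refl _) (fun x => rfl)
  have h' := cm_dc b r' hr' hU' (radHomeo φ₀) (fun x => rad_norm _ x)
  set c := cm a r hr hU (Homeomorph.refl _) with hc
  set c' := cm b r' hr' hU' (radHomeo φ₀) with hc'
  -- values on the unit sphere
  have hcs : ∀ x : sphere (0 : EuclideanSpace ℝ (Fin d)) 1, c x = s x := by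
    intro x
    rw [hs, hc]
    unfold cm
    congr 1
    apply Subtype.ext
    show rho r (x : EuclideanSpace ℝ (Fin d)) = x
    exact rho_of_norm_one hr (mem_sphere_zero_iff_norm.1 x.2)
  have hcs' : ∀ x : sphere (0 : EuclideanSpace ℝ (Fin d)) 1, c' x = φ (s x) := by
    intro x
    have e1 : (φ (s x) : N) = s' (φ₀ x) := by
      rw [hφ₀]
      simp
    rw [e1, hs', hc']
    unfold cm
    congr 1
    apply Subtype.ext
    show rho r' (rad φ₀ (x : EuclideanSpace ℝ (Fin d))) = φ₀ x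
    rw [rad_unit]
    exact rho_of_norm_one hr' (mem_sphere_zero_iff_norm.1 (φ₀ x).2)
  set jA : M → Quot (GlueRel a b φ) := fun x =>
    if hx : x ∈ (a.inter)ᶜ then Quot.mk _ (Sum.inl ⟨x, hx⟩) else q0 with hjA
  set jB : N → Quot (GlueRel a b φ) := fun y =>
    if hy : y ∈ (b.inter)ᶜ then Quot.mk _ (Sum.inr ⟨y, hy⟩) else q0 with hjB
  have jA_mem : ∀ (x : M) (hx : x ∈ (a.inter)ᶜ), jA x = Quot.mk _ (Sum.inl ⟨x, hx⟩) := by
    intro x hx
    simp only [hjA]
    rw [dif_pos hx]
  have jB_mem : ∀ (y : N) (hy : y ∈ (b.inter)ᶜ), jB y = Quot.mk _ (Sum.inr ⟨y, hy⟩) := by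
    intro y hy
    simp only [hjB]
    rw [dif_pos hy]
  have rA : (a.inter)ᶜ.domRestrict jA = fun x => Quot.mk (GlueRel a b φ) (Sum.inl x) := by
    funext x
    exact jA_mem x x.2
  have rB : (b.inter)ᶜ.domRestrict jB = fun x => Quot.mk (GlueRel a b φ) (Sum.inr x) := by
    funext x
    exact jB_mem x x.2
  have gd : GD (a.inter)ᶜ (b.inter)ᶜ a.bdry jA jB (psi h h') := by
    apply gd_of_dc
    · rw [continuousOn_iff_continuous_domRestrict, rA]
      exact continuous_quot_mk.comp continuous_inl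
    · rw [continuousOn_iff_continuous_domRestrict, rB]
      exact continuous_quot_mk.comp continuous_inr
    · intro x hx x' hx' hxx
      rw [jA_mem x hx, jA_mem x' hx', quot_eq] at hxx
      rcases hxx with hh | hh | hh
      · exact congrArg Subtype.val (Sum.inl.inj hh)
      · cases hh
      · cases hh
    · intro x hx x' hx' hxx
      rw [jB_mem x hx, jB_mem x' hx', quot_eq] at hxx
      rcases hxx with hh | hh | hh
      · exact congrArg Subtype.val (Sum.inr.inj hh)
      · cases hh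
      · cases hh
    · intro x hx y hy
      rw [jA_mem x hx, jB_mem y hy, quot_eq]
      constructor
      · rintro (hh | hh | hh)
        · exact absurd hh (by simp)
        · cases hh with
          | mk z hz1 hz2 =>
            refine ⟨s.symm z, mem_sphere_zero_iff_norm.1 (s.symm z).2, ?_, ?_⟩
            · rw [hcs, s.apply_symm_apply]
            · rw [hcs', s.apply_symm_apply]
        · cases hh
      · rintro ⟨t, ht, rfl, rfl⟩
        right; left
        have ht' : t ∈ sphere (0 : EuclideanSpace ℝ (Fin d)) 1 := mem_sphere_zero_iff_norm.2 ht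
        have e1 := hcs ⟨t, ht'⟩
        have e2 := hcs' ⟨t, ht'⟩
        simp only at e1 e2
        have h1 : ((s ⟨t, ht'⟩ : a.bdry) : M) ∉ a.inter := by rw [← e1]; exact hx
        have h2 : ((φ (s ⟨t, ht'⟩) : b.bdry) : N) ∉ b.inter := by rw [← e2]; exact hy
        have := GlueRel.mk (a := a) (b := b) (φ := φ) (s ⟨t, ht'⟩) h1 h2
        convert this using 3
    · rw [eq_univ_iff_forall]
      intro z
      obtain ⟨w, rfl⟩ := Quot.exists_rep z
      rcases w with ⟨x, hx⟩ | ⟨y, hy⟩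
      · exact Or.inl ⟨x, hx, jA_mem x hx⟩
      · exact Or.inr ⟨y, hy, jB_mem y hy⟩
    · rintro O ⟨W, hW, hW'⟩ ⟨V, hV, hV'⟩
      rw [← isQuotientMap_quot_mk.isOpen_preimage, isOpen_sum_iff]
      constructor
      · have : Sum.inl ⁻¹' (Quot.mk (GlueRel a b φ) ⁻¹' O) =
            (Subtype.val ⁻¹' W : Set ((a.inter)ᶜ : Set M)) := by
          ext ⟨x, hx⟩
          have h1 : x ∈ jA ⁻¹' O ∩ (a.inter)ᶜ ↔ x ∈ W ∩ (a.inter)ᶜ := by rw [hW']
          simp only [mem_inter_iff, hx, and_true, mem_preimage] at h1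
          rw [jA_mem x hx] at h1
          exact h1
        rw [this]
        exact hW.preimage continuous_subtype_val
      · have : Sum.inr ⁻¹' (Quot.mk (GlueRel a b φ) ⁻¹' O) =
            (Subtype.val ⁻¹' V : Set ((b.inter)ᶜ : Set N)) := by
          ext ⟨x, hx⟩
          have h1 : x ∈ jB ⁻¹' O ∩ (b.inter)ᶜ ↔ x ∈ V ∩ (b.inter)ᶜ := by rw [hV']
          simp only [mem_inter_iff, hx, and_true, mem_preimage] at h1
          rw [jB_mem x hx] at h1
          exact h1
        rw [this]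
        exact hV.preimage continuous_subtype_val
  exact openSum_of_gd h h' gd

theorem OpenSum.congr {P P' : Type} [TopologicalSpace P] [TopologicalSpace P'] (e : P ≃ₜ P')
    (h : OpenSum d M N P) : OpenSum d M N P' := by
  obtain ⟨a, b, u, v, ha, hb, hu, hv, hcov, hiff⟩ := h
  refine ⟨a, b, e ∘ u, e ∘ v, ha, hb, e.isOpenEmbedding.comp hu, e.isOpenEmbedding.comp hv, ?_, ?_⟩
  · rw [range_comp, range_comp, ← image_union, hcov, image_univ, e.surjective.range_eq]
  · intro p q
    rw [← hiff p q]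
    exact e.injective.eq_iff

/-- **The bridge.** -/
theorem openSum_of_manifoldSum {P : Type} [TopologicalSpace P] [T2Space M] [T2Space N]
    [Nonempty P] (h : IsManifoldSum d M N P) : OpenSum d M N P := by
  obtain ⟨a, b, φ, ⟨e⟩⟩ := h
  obtain ⟨p⟩ := ‹Nonempty P›
  exact (openSum_quot a b φ (e p)).congr e.symm

end main

end Pool.Agent.H874R2.Glue
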