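import Pool.Agent.Helper739.CTBasic

set_option autoImplicit false
set_option linter.unusedSectionVars false
set_option linter.unusedVariables false
set_option linter.deprecated false

/-! Jones's set function `T` on a compact connected Hausdorff space: if it is continuous then
the sets `T {p}` partition the space and `T` is additive. -/

namespace Pool.Agent.H874R2.JT

open Set Topology Filter
open Pool.Agent.Helper739.CT (Ctm bump ctm_component)

section basic

variable {S : Type*} [TopologicalSpace S]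

/-- Jones's set function. -/
def T (A : Set S) : Set S :=
  {x | ∀ W : Set S, IsClosed W → IsConnected W → x ∈ interior W → (W ∩ A).Nonempty}

theorem T_mono {A B : Set S} (h : A ⊆ B) : T A ⊆ T B := by
  intro x hx W hW hWc hxW
  exact (hx W hW hWc hxW).mono (inter_subset_inter_right _ h)

theorem subset_T (A : Set S) : A ⊆ T A := by
  intro x hx W hW hWc hxW
  exact ⟨x, interior_subset hxW, hx⟩

theorem notMem_T {A : Set S} {x : S} : x ∉ T A ↔
    ∃ W : Set S, IsClosed W ∧ IsConnected W ∧ x ∈ interior W ∧ W ∩ A = ∅ := by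
  simp only [T, mem_setOf_eq, not_forall, not_nonempty_iff_eq_empty, exists_prop]

theorem isClosed_T (A : Set S) : IsClosed (T A) := by
  rw [← isOpen_compl_iff, isOpen_iff_mem_nhds]
  intro x hx
  obtain ⟨W, hW, hWc, hxW, hWA⟩ := notMem_T.1 hx
  filter_upwards [isOpen_interior.mem_nhds hxW] with y hy
  exact notMem_T.2 ⟨W, hW, hWc, hy, hWA⟩

theorem T_empty [ConnectedSpace S] : T (∅ : Set S) = ∅ := by
  rw [eq_empty_iff_forall_notMem]
  intro x hx
  obtain ⟨y, hy, hy'⟩ := hx univ isClosed_univ isConnected_univ (by simp)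
  exact hy'

theorem mem_T_self (x : S) : x ∈ T {x} := subset_T {x} rfl

/-- a point in the interior of a finite union of closed connected sets is interior to its
component -/
theorem interior_component_of_finite {ι : Type*} [Finite ι] {K : Set S} (C : ι → Set S)
    (hC : ∀ i, IsClosed (C i)) (hCc : ∀ i, IsPreconnected (C i)) (hK : K = ⋃ i, C i) {e : S}
    (he : e ∈ interior K) : e ∈ interior (connectedComponentIn K e) := by
  set L := connectedComponentIn K e with hL
  have heK : e ∈ K := interior_subset he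
  have heL : e ∈ L := mem_connectedComponentIn heK
  set D := ⋃ i ∈ {i | C i ∩ L = ∅}, C i with hDdef
  have hD : IsClosed D := Set.Finite.isClosed_biUnion (Set.toFinite _) (fun i _ => hC i)
  refine mem_interior.2 ⟨interior K \ D, ?_, isOpen_interior.sdiff hD, ⟨he, ?_⟩⟩
  · rintro x ⟨hx, hxD⟩
    have hxK := interior_subset hx
    rw [hK] at hxK
    obtain ⟨i, hi⟩ := mem_iUnion.1 hxK
    have hne : (C i ∩ L).Nonempty := by
      rw [nonempty_iff_ne_empty]
      intro h0
      exact hxD (mem_biUnion (x := i) h0 hi)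
    obtain ⟨y, hyC, hyL⟩ := hne
    have h1 : C i ⊆ connectedComponentIn K y :=
      (hCc i).subset_connectedComponentIn hyC (by rw [hK]; exact subset_iUnion C i)
    rw [← connectedComponentIn_eq hyL] at h1
    exact h1 hi
  · intro h
    obtain ⟨i, hi0, hi⟩ := mem_iUnion₂.1 h
    have : e ∈ C i ∩ L := ⟨hi, heL⟩
    rw [mem_setOf_eq] at hi0
    rw [hi0] at this
    exact this

/-- patching lemma -/
theorem patch [CompactSpace S] [T2Space S] {N O D : Set S} (hN : Ctm N) (hO : IsOpen O)
    (hNO : (N ∩ O).Nonempty) {e : S} (heN : e ∈ interior N) (heO : e ∉ closure O)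
    (hND : (N \ O) ∩ D = ∅) (hfr : ∀ y ∈ frontier O, y ∉ T D) : e ∉ T D := by
  classical
  have hfr' : ∀ y : frontier O, ∃ W : Set S, IsClosed W ∧ IsConnected W ∧ (y : S) ∈ interior W ∧
      W ∩ D = ∅ := fun y => notMem_T.1 (hfr y y.2)
  choose W hW hWc hyW hWD using hfr'
  have hcpt : IsCompact (frontier O) := isClosed_frontier.isCompact
  obtain ⟨t, ht⟩ := hcpt.elim_finite_subcover (fun y : frontier O => interior (W y))
    (fun y => isOpen_interior) (fun y hy => mem_iUnion.2 ⟨⟨y, hy⟩, hyW ⟨y, hy⟩⟩)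
  set K : Set S := (N \ O) ∪ ⋃ y ∈ t, W y with hKdef
  have hKc : IsClosed K := (hN.1.isClosed.sdiff hO).union
    (Set.Finite.isClosed_biUnion t.finite_toSet (fun y _ => hW y))
  have hKD : K ∩ D = ∅ := by
    rw [eq_empty_iff_forall_notMem]
    rintro x ⟨hx, hxD⟩
    rcases hx with hx | hx
    · have : x ∈ (N \ O) ∩ D := ⟨hx, hxD⟩
      rw [hND] at this
      exact this
    · obtain ⟨y, hy, hxy⟩ := mem_iUnion₂.1 hx
      have : x ∈ W y ∩ D := ⟨hxy, hxD⟩
      rw [hWD] at this
      exact this
  have heK : e ∈ interior K := by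
    refine mem_interior.2 ⟨interior N \ closure O, ?_, isOpen_interior.sdiff isClosed_closure,
      ⟨heN, heO⟩⟩
    rintro x ⟨hx, hxO⟩
    exact Or.inl ⟨interior_subset hx, fun h => hxO (subset_closure h)⟩
  have hWK : ∀ y ∈ t, W y ⊆ K := fun y hy x hx => Or.inr (mem_biUnion (x := y) hy hx)
  have hcov : K = ⋃ y : t, connectedComponentIn K (y : frontier O) := by
    apply Subset.antisymm
    · intro z hz
      rw [mem_iUnion]
      rcases hz with hz | hz
      · obtain ⟨w, hw, hwO⟩ := bump hN hO hNO hz.1 hz.2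
        have hw' := connectedComponentIn_subset _ _ hw
        have hwf : w ∈ frontier O := by
          rw [hO.frontier_eq]
          exact ⟨hwO, hw'.2⟩
        obtain ⟨y, hy, hwy⟩ := mem_iUnion₂.1 (ht hwf)
        refine ⟨⟨y, hy⟩, ?_⟩
        have e1 : W y ⊆ connectedComponentIn K (y : S) :=
          (hWc y).isPreconnected.subset_connectedComponentIn (interior_subset (hyW y)) (hWK y hy)
        have e2 : w ∈ connectedComponentIn K (y : S) := e1 (interior_subset hwy)
        have e3 : connectedComponentIn (N \ O) z ⊆ connectedComponentIn K w :=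
          isPreconnected_connectedComponentIn.subset_connectedComponentIn hw
            ((connectedComponentIn_subset _ _).trans subset_union_left)
        rw [connectedComponentIn_eq e2]
        exact e3 (mem_connectedComponentIn hz)
      · obtain ⟨y, hy, hzy⟩ := mem_iUnion₂.1 hz
        refine ⟨⟨y, hy⟩, ?_⟩
        exact (hWc y).isPreconnected.subset_connectedComponentIn (interior_subset (hyW y))
          (hWK y hy) hzy
    · intro z hz
      obtain ⟨y, hy⟩ := mem_iUnion.1 hz
      exact connectedComponentIn_subset _ _ hy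
  have hint := interior_component_of_finite (fun y : t => connectedComponentIn K (y : frontier O))
    (fun y => (ctm_component hKc.isCompact (hWK y y.2 (interior_subset (hyW y)))).1.isClosed)
    (fun y => isPreconnected_connectedComponentIn) hcov heK
  have hcomp := ctm_component hKc.isCompact (interior_subset heK)
  refine notMem_T.2 ⟨_, hcomp.1.isClosed, hcomp.2, hint, ?_⟩
  rw [eq_empty_iff_forall_notMem]
  rintro x ⟨hx, hxD⟩
  have : x ∈ K ∩ D := ⟨connectedComponentIn_subset _ _ hx, hxD⟩
  rw [hKD] at this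
  exact this

/-- the splitting lemma -/
theorem split [CompactSpace S] [T2Space S] {A B E R : Set S} (hE : IsClosed E)
    (hR : IsClosed R) (hER : Disjoint E R) (hT : T (A ∪ B) = E ∪ R) (hB : B ⊆ E) (hA : A ⊆ R) :
    E ⊆ T B := by
  intro e he
  by_contra heB
  obtain ⟨W, hW, hWc, heW, hWB⟩ := notMem_T.1 heB
  have heT : e ∈ T (A ∪ B) := by rw [hT]; exact Or.inl he
  obtain ⟨O, hO, hRO, hOE⟩ := normal_exists_closure_subset hR hE.isOpen_compl
    (disjoint_right.1 hER)
  have hWB' : ∀ x ∈ W, x ∉ B := by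
    intro x hx hxB
    have : x ∈ W ∩ B := ⟨hx, hxB⟩
    rw [hWB] at this
    exact this
  by_cases hWO : (W ∩ O).Nonempty
  · refine patch ⟨hW.isCompact, hWc⟩ hO hWO heW (fun h => hOE h he) ?_ ?_ heT
    · rw [eq_empty_iff_forall_notMem]
      rintro x ⟨⟨hxW, hxO⟩, hx | hx⟩
      · exact hxO (hRO (hA hx))
      · exact hWB' x hxW hx
    · intro y hy
      rw [hO.frontier_eq] at hy
      rw [hT]
      rintro (h | h)
      · exact hOE hy.1 h
      · exact hy.2 (hRO h)
  · obtain ⟨x, hxW, hx⟩ := heT W hW hWc heW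
    rcases hx with hx | hx
    · exact hWO ⟨x, hxW, hRO (hA hx)⟩
    · exact hWB' x hxW hx

/-- either `T F` is preconnected or it splits along a partition of `F` -/
theorem conn_or_split [CompactSpace S] [T2Space S] [ConnectedSpace S] {F : Set S}
    (h : ¬ IsPreconnected (T F)) : ∃ E R : Set S, IsClosed E ∧ IsClosed R ∧ Disjoint E R ∧
      T F = E ∪ R ∧ (F ∩ E).Nonempty ∧ (F ∩ R).Nonempty ∧ E ⊆ T (F ∩ E) ∧ R ⊆ T (F ∩ R) := by
  rw [isPreconnected_closed_iff] at h
  push Not at h
  obtain ⟨t, t', ht, ht', hcov, hn, hn', hcon⟩ := h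
  have hE : IsClosed (T F ∩ t) := (isClosed_T F).inter ht
  have hR : IsClosed (T F ∩ t') := (isClosed_T F).inter ht'
  have hdis : Disjoint (T F ∩ t) (T F ∩ t') := by
    rw [disjoint_left]
    rintro x ⟨hx, hxt⟩ ⟨-, hxt'⟩
    have : x ∈ T F ∩ (t ∩ t') := ⟨hx, hxt, hxt'⟩
    rw [hcon] at this
    exact this
  have hTF : T F = (T F ∩ t) ∪ (T F ∩ t') := by
    rw [← inter_union_distrib_left]
    exact (inter_eq_left.2 hcov).symm
  have hF : F = (F ∩ (T F ∩ t')) ∪ (F ∩ (T F ∩ t)) := by
    apply Subset.antisymm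
    · intro x hx
      have := subset_T F hx
      rcases hcov this with h | h
      · exact Or.inr ⟨hx, this, h⟩
      · exact Or.inl ⟨hx, this, h⟩
    · rintro x (hx | hx) <;> exact hx.1
  have e1 : T F ∩ t ⊆ T (F ∩ (T F ∩ t)) := by
    apply split (A := F ∩ (T F ∩ t')) hE hR hdis _ inter_subset_right inter_subset_right
    rw [← hF]
    exact hTF
  have e2 : T F ∩ t' ⊆ T (F ∩ (T F ∩ t')) := by
    apply split (A := F ∩ (T F ∩ t)) hR hE hdis.symm _ inter_subset_right inter_subset_right
    rw [union_comm, ← hF, union_comm]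
    exact hTF
  refine ⟨T F ∩ t, T F ∩ t', hE, hR, hdis, hTF, ?_, ?_, e1, e2⟩
  · by_contra hemp
    rw [not_nonempty_iff_eq_empty] at hemp
    rw [hemp, T_empty] at e1
    obtain ⟨x, hx⟩ := hn
    exact e1 hx
  · by_contra hemp
    rw [not_nonempty_iff_eq_empty] at hemp
    rw [hemp, T_empty] at e2
    obtain ⟨x, hx⟩ := hn'
    exact e2 hx

theorem isConnected_T_singleton [CompactSpace S] [T2Space S] [ConnectedSpace S] (p : S) :
    IsConnected (T {p}) := by
  refine ⟨⟨p, mem_T_self p⟩, ?_⟩
  by_contra h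
  obtain ⟨E, R, -, -, hd, -, ⟨x, hx, hxE⟩, ⟨y, hy, hyR⟩, -, -⟩ := conn_or_split h
  rw [mem_singleton_iff] at hx hy
  subst hx
  subst hy
  exact disjoint_left.1 hd hxE hyR

end basic

/-- The consequences of the continuity of `T` that are used. -/
structure TCont (S : Type*) [TopologicalSpace S] : Prop where
  lower : ∀ F : Set S, IsClosed F → ∀ U : Set S, IsOpen U →
    IsOpen {q : S | (T (insert q F) ∩ U).Nonempty}
  upper : ∀ F : Set S, IsClosed F → ∀ U : Set S, IsOpen U → IsOpen {q : S | T (insert q F) ⊆ U}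
  approx : ∀ A D U : Set S, IsClosed A → A.Nonempty → IsOpen U → A ⊆ closure D →
    (T A ∩ U).Nonempty → ∃ B : Set S, B.Finite ∧ B.Nonempty ∧ B ⊆ D ∧ (T B ∩ U).Nonempty

section cont

variable {S : Type*} [TopologicalSpace S] [CompactSpace S] [T2Space S] [ConnectedSpace S]

theorem TCont.lower1 (h : TCont S) {U : Set S} (hU : IsOpen U) :
    IsOpen {q : S | (T {q} ∩ U).Nonempty} := by
  have := h.lower ∅ isClosed_empty U hU
  simpa using this

theorem TCont.upper1 (h : TCont S) {U : Set S} (hU : IsOpen U) :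
    IsOpen {q : S | T {q} ⊆ U} := by
  have := h.upper ∅ isClosed_empty U hU
  simpa using this

theorem TCont.key (h : TCont S) {A W : Set S} (hA : IsClosed A) (hne : A.Nonempty)
    (hW : IsClosed W) (hWc : IsConnected W) (hAW : A ∩ interior W = ∅) :
    T A ∩ interior W = ∅ := by
  by_contra hcon
  rw [← ne_eq, ← nonempty_iff_ne_empty] at hcon
  obtain ⟨B, -, -, hBD, y, hyB, hyW⟩ := h.approx A Wᶜ (interior W) hA hne isOpen_interior (by
    rw [closure_compl]
    intro x hx hxW
    have : x ∈ A ∩ interior W := ⟨hx, hxW⟩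
    rw [hAW] at this
    exact this) hcon
  obtain ⟨z, hzW, hzB⟩ := hyB W hW hWc hyW
  exact hBD hzB hzW

theorem TCont.idem (h : TCont S) {A : Set S} (hA : IsClosed A) (hne : A.Nonempty) :
    T (T A) ⊆ T A := by
  intro x hx
  by_contra hxA
  obtain ⟨W, hW, hWc, hxW, hWA⟩ := notMem_T.1 hxA
  have e1 : T A ∩ interior W = ∅ := h.key hA hne hW hWc (by
    rw [eq_empty_iff_forall_notMem]
    rintro y ⟨hyA, hyW⟩
    have : y ∈ W ∩ A := ⟨interior_subset hyW, hyA⟩
    rw [hWA] at this
    exact this)
  have e2 : T (T A) ∩ interior W = ∅ := h.key (isClosed_T A) (hne.mono (subset_T A)) hW hWc e1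
  have : x ∈ T (T A) ∩ interior W := ⟨hx, hxW⟩
  rw [e2] at this
  exact this

theorem TCont.le (h : TCont S) {A B : Set S} (hA : IsClosed A) (hne : A.Nonempty)
    (hB : B ⊆ T A) : T B ⊆ T A := (T_mono hB).trans (h.idem hA hne)

theorem TCont.le1 (h : TCont S) {x y : S} (hy : y ∈ T {x}) : T {y} ⊆ T {x} :=
  h.le isClosed_singleton (singleton_nonempty x) (singleton_subset_iff.2 hy)

/-- minimal points -/
def Min (S : Type*) [TopologicalSpace S] : Set S := {x | ∀ y ∈ T {x}, x ∈ T {y}}

theorem TCont.min_down (h : TCont S) {m y : S} (hm : m ∈ Min S) (hy : y ∈ T {m}) :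
    y ∈ Min S := by
  intro z hz
  have h1 : z ∈ T {m} := h.le1 hy hz
  have h2 : m ∈ T {z} := hm z h1
  exact h.le1 h2 hy

theorem TCont.isClosed_min (h : TCont S) : IsClosed (Min S) := by
  rw [← isOpen_compl_iff, isOpen_iff_mem_nhds]
  intro x hx
  have hx' : ∃ y ∈ T {x}, x ∉ T {y} := by
    by_contra hcon
    push Not at hcon
    exact hx hcon
  obtain ⟨y, hy, hxy⟩ := hx'
  obtain ⟨V', V, hV', hV, hyV', hxV, hVV'⟩ :=
    SeparatedNhds.of_isCompact_isCompact (isClosed_T {y}).isCompact
      (isCompact_singleton (x := x)) (disjoint_singleton_right.2 hxy)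
  have hxV : x ∈ V := hxV rfl
  have n1 : {q : S | T {q} ⊆ V'} ∈ 𝓝 y := (h.upper1 hV').mem_nhds hyV'
  obtain ⟨N, hN, hNo, hyN⟩ := mem_nhds_iff.1 n1
  have n2 : {q : S | (T {q} ∩ N).Nonempty} ∈ 𝓝 x := (h.lower1 hNo).mem_nhds ⟨y, hy, hyN⟩
  filter_upwards [n2, hV.mem_nhds hxV] with x' hx' hx'V hx'm
  obtain ⟨y', hy', hy'N⟩ := hx'
  have := hx'm y' hy'
  exact disjoint_left.1 hVV' (hN hy'N this) hx'V

theorem TCont.exists_min (h : TCont S) (z : S) : ∃ m ∈ T {z}, m ∈ Min S := by
  classical
  obtain ⟨M, hM1, hM2⟩ := zorn_superset_nonempty {X : Set S | ∃ y ∈ T {z}, X = T {y}} (by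
    intro c hc hchain hne
    have hne' : (⋂₀ c).Nonempty := by
      have := hne.to_subtype
      rw [sInter_eq_iInter]
      apply IsCompact.nonempty_iInter_of_directed_nonempty_isCompact_isClosed
        (fun i : c => (i : Set S))
      · intro a b
        rcases hchain.total a.2 b.2 with hab | hab
        · exact ⟨a, Subset.rfl, hab⟩
        · exact ⟨b, hab, Subset.rfl⟩
      · intro a
        obtain ⟨y, -, hy⟩ := hc a.2
        rw [hy]
        exact ⟨y, mem_T_self y⟩
      · intro a
        obtain ⟨y, -, hy⟩ := hc a.2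
        rw [hy]
        exact (isClosed_T _).isCompact
      · intro a
        obtain ⟨y, -, hy⟩ := hc a.2
        rw [hy]
        exact isClosed_T _
    obtain ⟨w, hw⟩ := hne'
    obtain ⟨X0, hX0⟩ := hne
    obtain ⟨y0, hy0, hXy0⟩ := hc hX0
    refine ⟨T {w}, ⟨w, ?_, rfl⟩, ?_⟩
    · have : w ∈ T {y0} := by rw [← hXy0]; exact hw X0 hX0
      exact h.le1 hy0 this
    · intro X hX
      obtain ⟨y, hy, hXy⟩ := hc hX
      rw [hXy]
      apply h.le1
      rw [← hXy]
      exact hw X hX) (T {z}) ⟨z, mem_T_self z, rfl⟩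
  obtain ⟨⟨m, hm, hMm⟩, hmin⟩ := hM2
  refine ⟨m, hm, ?_⟩
  intro y hy
  have h1 : T {y} ⊆ T {m} := h.le1 hy
  have h2 := hmin (y := T {y}) ⟨y, h.le1 hm hy, rfl⟩ (by rw [hMm]; exact h1)
  rw [hMm] at h2
  exact h2 (mem_T_self m)

/-- All points are minimal. -/
theorem TCont.min_univ (h : TCont S) (p : S) : p ∈ Min S := by
  by_contra hp
  obtain ⟨O, hO, hMO, hOp⟩ := normal_exists_closure_subset h.isClosed_min
    (isOpen_compl_singleton (x := p)) (by
      intro m hm hmp
      rw [mem_singleton_iff] at hmp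
      rw [hmp] at hm
      exact hp hm)
  have hpO : p ∉ closure O := fun hh => hOp hh rfl
  set F : Set S := {x | T {x} ⊆ closure O} with hF
  set G : Set S := {x | T {x} ⊆ O} with hG
  have hFc : IsClosed F := by
    rw [← isOpen_compl_iff]
    convert h.lower1 (isClosed_closure (s := O)).isOpen_compl using 1
    ext x
    simp only [hF, mem_compl_iff, mem_setOf_eq, not_subset]
    rfl
  have hGo : IsOpen G := h.upper1 hO
  have hMG : Min S ⊆ G := fun m hm y hy => hMO (h.min_down hm hy)
  have hGF : G ⊆ F := fun x hx => Subset.trans hx subset_closure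
  have hdown : ∀ z ∈ F, T {z} ⊆ F := fun z hz y hy => (h.le1 hy).trans hz
  have hFconn : IsPreconnected F := by
    rw [isPreconnected_closed_iff]
    intro t t' ht ht' hcov hn hn'
    by_contra hcon
    rw [not_nonempty_iff_eq_empty] at hcon
    have hdis : ∀ x ∈ F, x ∈ t → x ∈ t' → False := by
      intro x hx h1 h2
      have : x ∈ F ∩ (t ∩ t') := ⟨hx, h1, h2⟩
      rw [hcon] at this
      exact this
    -- for z in F, T z stays on one side
    have side : ∀ {a b : Set S}, IsClosed a → IsClosed b → F ⊆ a ∪ b →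
        (∀ x ∈ F, x ∈ a → x ∈ b → False) → ∀ z ∈ F, z ∈ a → T {z} ⊆ a := by
      intro a b ha hb hab hd z hz hza y hy
      by_contra hya
      have hyF := hdown z hz hy
      have hyb := (hab hyF).resolve_left hya
      have := (isConnected_T_singleton z).isPreconnected
      rw [isPreconnected_closed_iff] at this
      obtain ⟨w, hw, hwa, hwb⟩ := this a b ha hb ((hdown z hz).trans hab) ⟨z, mem_T_self z, hza⟩
        ⟨y, hy, hyb⟩
      exact hd w (hdown z hz hw) hwa hwb
    set Q : Set S := {q | (T {q} ∩ (F ∩ t')).Nonempty} with hQ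
    have hQc : IsClosed Q := by
      rw [← isOpen_compl_iff]
      convert h.upper1 (hFc.inter ht').isOpen_compl using 1
      ext x
      simp only [hQ, mem_compl_iff, mem_setOf_eq, not_nonempty_iff_eq_empty]
      rw [← disjoint_iff_inter_eq_empty, subset_compl_iff_disjoint_right]
    have hQo : IsOpen Q := by
      rw [isOpen_iff_mem_nhds]
      rintro q ⟨z, hzq, hzF, hzt'⟩
      obtain ⟨m, hmz, hm⟩ := h.exists_min z
      have hmt' : m ∈ t' := side ht' ht (by rw [union_comm]; exact hcov)
        (fun x hx h1 h2 => hdis x hx h2 h1) z hzF hzt' hmz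
      have hmG : m ∈ G := hMG hm
      have hmt : m ∉ t := fun hh => hdis m (hGF hmG) hh hmt'
      have hopen : IsOpen (G \ t) := hGo.sdiff ht
      filter_upwards [(h.lower1 hopen).mem_nhds ⟨m, h.le1 hzq hmz, hmG, hmt⟩] with q' hq'
      obtain ⟨w, hw, hwG, hwt⟩ := hq'
      exact ⟨w, hw, hGF hwG, (hcov (hGF hwG)).resolve_left hwt⟩
    have hQuniv : Q = univ := by
      rcases isClopen_iff.1 ⟨hQc, hQo⟩ with hh | hh
      · obtain ⟨z, hzF, hzt'⟩ := hn'
        have : z ∈ Q := ⟨z, mem_T_self z, hzF, hzt'⟩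
        rw [hh] at this
        exact this.elim
      · exact hh
    obtain ⟨z, hzF, hzt⟩ := hn
    have hzQ : z ∈ Q := by rw [hQuniv]; exact mem_univ z
    obtain ⟨w, hw, hwF, hwt'⟩ := hzQ
    exact hdis w hwF (side ht ht' hcov hdis z hzF hzt hw) hwt'
  obtain ⟨m, hmp, hm⟩ := h.exists_min p
  have hmG : m ∈ G := hMG hm
  obtain ⟨x, hxF, hxp⟩ := hmp F hFc ⟨⟨m, hGF hmG⟩, hFconn⟩
    (mem_interior.2 ⟨G, hGF, hGo, hmG⟩)
  rw [mem_singleton_iff] at hxp
  subst hxp
  exact hpO (hxF (mem_T_self x))

theorem TCont.symm (h : TCont S) {x y : S} (hy : y ∈ T {x}) : x ∈ T {y} := h.min_univ x y hy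

theorem TCont.eq_of_mem (h : TCont S) {x y : S} (hy : y ∈ T {x}) : T {y} = T {x} :=
  Subset.antisymm (h.le1 hy) (h.le1 (h.symm hy))

theorem TCont.partition (h : TCont S) (p q : S) : T {p} = T {q} ∨ Disjoint (T {p}) (T {q}) := by
  by_cases hd : Disjoint (T {p}) (T {q})
  · exact Or.inr hd
  · left
    rw [not_disjoint_iff] at hd
    obtain ⟨x, hx, hx'⟩ := hd
    rw [← h.eq_of_mem hx, h.eq_of_mem hx']

/-- the union of the classes that meet `A` -/
def sat (A : Set S) : Set S := {x | (T {x} ∩ A).Nonempty}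

theorem subset_sat (A : Set S) : A ⊆ sat A := fun x hx => ⟨x, mem_T_self x, hx⟩

theorem sat_mono {A B : Set S} (h : A ⊆ B) : sat A ⊆ sat B :=
  fun _ hx => hx.mono (inter_subset_inter_right _ h)

theorem TCont.isClosed_sat (h : TCont S) {A : Set S} (hA : IsClosed A) : IsClosed (sat A) := by
  rw [← isOpen_compl_iff]
  convert h.upper1 hA.isOpen_compl using 1
  ext x
  simp only [sat, mem_compl_iff, mem_setOf_eq, not_nonempty_iff_eq_empty]
  rw [← disjoint_iff_inter_eq_empty, subset_compl_iff_disjoint_right]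

theorem TCont.sat_subset_T (h : TCont S) (A : Set S) : sat A ⊆ T A := by
  rintro x ⟨y, hy, hyA⟩
  exact T_mono (singleton_subset_iff.2 hyA) (h.symm hy)

theorem TCont.mem_sat (h : TCont S) {A : Set S} {x : S} : x ∈ sat A ↔ ∃ y ∈ A, x ∈ T {y} :=
  ⟨fun ⟨y, hy, hyA⟩ => ⟨y, hyA, h.symm hy⟩, fun ⟨y, hyA, hy⟩ => ⟨y, h.symm hy, hyA⟩⟩

theorem TCont.sat_singleton (h : TCont S) (a : S) : sat {a} = T {a} := by
  ext x
  rw [h.mem_sat]
  simp

theorem TCont.sat_insert (h : TCont S) (a : S) (F : Set S) : sat (insert a F) = T {a} ∪ sat F := by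
  ext x
  rw [mem_union, h.mem_sat, h.mem_sat]
  simp

theorem TCont.sat_class (h : TCont S) {A : Set S} {x y : S} (hx : x ∈ sat A) (hy : y ∈ T {x}) :
    y ∈ sat A := by
  obtain ⟨z, hz, hzA⟩ := hx
  exact ⟨z, by rw [h.eq_of_mem hy]; exact hz, hzA⟩

theorem TCont.good_or_conn (_h : TCont S) {F : Set S} (hp : ∀ F' ⊂ F, T F' ⊆ sat F') :
    T F ⊆ sat F ∨ IsPreconnected (T F) := by
  by_cases hc : IsPreconnected (T F)
  · exact Or.inr hc
  · left
    obtain ⟨E, R, -, -, hd, hT, ⟨x, hx, hxE⟩, ⟨y, hy, hyR⟩, hE, hR⟩ := conn_or_split hc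
    have e1 : F ∩ E ⊂ F := by
      rw [ssubset_iff_exists]
      exact ⟨inter_subset_left, y, hy, fun hh => disjoint_left.1 hd hh.2 hyR⟩
    have e2 : F ∩ R ⊂ F := by
      rw [ssubset_iff_exists]
      exact ⟨inter_subset_left, x, hx, fun hh => disjoint_left.1 hd hxE hh.2⟩
    rw [hT]
    exact union_subset (hE.trans ((hp _ e1).trans (sat_mono inter_subset_left)))
      (hR.trans ((hp _ e2).trans (sat_mono inter_subset_left)))

/-- good points relative to `F` -/
def NN (F : Set S) : Set S := {q | T (insert q F) ⊆ sat (insert q F)}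

/-- points whose union with `F` has connected `T` -/
def MM (F : Set S) : Set S := {q | IsPreconnected (T (insert q F))}

theorem TCont.isClosed_NN (h : TCont S) {F : Set S} (hF : IsClosed F) : IsClosed (NN F) := by
  rw [← isOpen_compl_iff, isOpen_iff_mem_nhds]
  intro b hb
  have hb' : ∃ x ∈ T (insert b F), x ∉ sat (insert b F) := not_subset.1 hb
  obtain ⟨x, hx, hxs⟩ := hb'
  have hcl : IsClosed (sat (insert b F)) := h.isClosed_sat (by
    rw [insert_eq]; exact isClosed_singleton.union hF)
  obtain ⟨V', V, hV', hV, hyV', hxV, hVV'⟩ :=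
    SeparatedNhds.of_isCompact_isCompact hcl.isCompact
      (isCompact_singleton (x := x)) (disjoint_singleton_right.2 hxs)
  have hxV : x ∈ V := hxV rfl
  rw [h.sat_insert, union_subset_iff] at hyV'
  filter_upwards [(h.lower F hF V hV).mem_nhds ⟨x, hx, hxV⟩, (h.upper1 hV').mem_nhds hyV'.1]
    with q hq hq' hqN
  obtain ⟨y, hy, hyV⟩ := hq
  have := hqN hy
  rw [h.sat_insert] at this
  exact disjoint_left.1 hVV' (this.elim (fun hh => hq' hh) (fun hh => hyV'.2 hh)) hyV

theorem TCont.isClosed_MM (h : TCont S) {F : Set S} (hF : IsClosed F) : IsClosed (MM F) := by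
  rw [← isOpen_compl_iff, isOpen_iff_mem_nhds]
  intro b hb
  obtain ⟨E, R, hE, hR, hd, hT, ⟨x, hx, hxE⟩, ⟨y, hy, hyR⟩, -, -⟩ := conn_or_split hb
  obtain ⟨U, V, hU, hV, hEU, hRV, hUV⟩ :=
    SeparatedNhds.of_isCompact_isCompact hE.isCompact hR.isCompact hd
  have hsub : T (insert b F) ⊆ U ∪ V := by rw [hT]; exact union_subset_union hEU hRV
  filter_upwards [(h.lower F hF U hU).mem_nhds ⟨x, subset_T _ hx, hEU hxE⟩,
    (h.lower F hF V hV).mem_nhds ⟨y, subset_T _ hy, hRV hyR⟩,
    (h.upper F hF _ (hU.union hV)).mem_nhds hsub] with q h1 h2 h3 h4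
  obtain ⟨w, -, hw1, hw2⟩ := h4 U V hU hV h3 h1 h2
  exact disjoint_left.1 hUV hw1 hw2

theorem TCont.NN_inter_MM (h : TCont S) {F : Set S} (hF : IsClosed F) (hne : F.Nonempty) {q : S}
    (h1 : q ∈ NN F) (h2 : q ∈ MM F) : q ∈ sat F := by
  have hT : T (insert q F) = T {q} ∪ sat F := by
    apply Subset.antisymm
    · rw [← h.sat_insert]; exact h1
    · rw [← h.sat_insert]; exact h.sat_subset_T _
  have hpc : IsPreconnected (T (insert q F)) := h2
  rw [isPreconnected_closed_iff] at hpc
  obtain ⟨x, -, hx, hx'⟩ := hpc (T {q}) (sat F) (isClosed_T _) (h.isClosed_sat hF) (by rw [hT])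
    ⟨q, by rw [hT]; exact Or.inl (mem_T_self q), mem_T_self q⟩
    (by
      obtain ⟨p, hp⟩ := hne
      exact ⟨p, by rw [hT]; exact Or.inr (subset_sat F hp), subset_sat F hp⟩)
  exact h.sat_class hx' (h.symm hx)

/-- the topological lemma: if a connected space is the union of two closed sets with connected
intersection then both are connected -/
theorem conn_of_union {P Q : Set S} (hP : IsClosed P) (hQ : IsClosed Q) (hu : P ∪ Q = univ)
    (hi : IsPreconnected (P ∩ Q)) (hQne : Q.Nonempty) : IsPreconnected P := by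
  rw [isPreconnected_closed_iff]
  -- reduce to the case where the intersection is on one side
  have key : ∀ t t' : Set S, IsClosed t → IsClosed t' → P ⊆ t ∪ t' → (P ∩ t').Nonempty →
      (P ∩ Q) ∩ t' = ∅ → (P ∩ (t ∩ t')).Nonempty := by
    intro t t' ht ht' hcov hn' hside
    by_contra hcon
    rw [not_nonempty_iff_eq_empty] at hcon
    have hpc := (isPreconnected_univ (α := S))
    rw [isPreconnected_closed_iff] at hpc
    obtain ⟨x, -, hx1, hx2⟩ := hpc (P ∩ t') ((P ∩ t) ∪ Q) (hP.inter ht') ((hP.inter ht).union hQ)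
      (by
        intro x _
        by_cases hxQ : x ∈ Q
        · exact Or.inr (Or.inr hxQ)
        · have hxP : x ∈ P := by
            have : x ∈ P ∪ Q := by rw [hu]; exact mem_univ x
            exact this.resolve_right hxQ
          rcases hcov hxP with hh | hh
          · exact Or.inr (Or.inl ⟨hxP, hh⟩)
          · exact Or.inl ⟨hxP, hh⟩)
      (by obtain ⟨x, hx⟩ := hn'; exact ⟨x, mem_univ x, hx⟩)
      (by obtain ⟨x, hx⟩ := hQne; exact ⟨x, mem_univ x, Or.inr hx⟩)
    rcases hx2 with hx2 | hx2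
    · have : x ∈ P ∩ (t ∩ t') := ⟨hx1.1, hx2.2, hx1.2⟩
      rw [hcon] at this
      exact this
    · have : x ∈ (P ∩ Q) ∩ t' := ⟨⟨hx1.1, hx2⟩, hx1.2⟩
      rw [hside] at this
      exact this
  intro t t' ht ht' hcov hn hn'
  by_cases h1 : ((P ∩ Q) ∩ t').Nonempty
  · by_cases h2 : ((P ∩ Q) ∩ t).Nonempty
    · rw [isPreconnected_closed_iff] at hi
      obtain ⟨x, hx, hx'⟩ := hi t t' ht ht' (inter_subset_left.trans hcov) h2 h1
      exact ⟨x, hx.1, hx'⟩
    · rw [not_nonempty_iff_eq_empty] at h2
      rw [inter_comm t t']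
      exact key t' t ht' ht (by rw [union_comm]; exact hcov) hn h2
  · rw [not_nonempty_iff_eq_empty] at h1
    exact key t t' ht ht' hcov hn' h1

/-! ### pairs -/

theorem TCont.T_pair_congr (h : TCont S) {a b b' : S} (hb : b' ∈ T {b}) :
    T (insert b' {a} : Set S) = T (insert b {a} : Set S) := by
  have key : ∀ b b' : S, b' ∈ T {b} →
      T (insert b' {a} : Set S) ⊆ T (insert b {a} : Set S) := by
    intro b b' hb
    apply h.le (Set.toFinite _).isClosed (insert_nonempty _ _)
    rw [insert_subset_iff, singleton_subset_iff]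
    exact ⟨T_mono (by simp) hb, subset_T _ (by simp)⟩
  exact Subset.antisymm (key b b' hb) (key b' b (h.symm hb))

theorem TCont.sat_pair_congr (h : TCont S) {a b b' : S} (hb : b' ∈ T {b}) :
    sat (insert b' {a} : Set S) = sat (insert b {a} : Set S) := by
  rw [h.sat_insert, h.sat_insert, h.eq_of_mem hb]

theorem TCont.NN_sat (h : TCont S) {a b b' : S} (hN : b ∈ NN {a}) (hb : b' ∈ T {b}) :
    b' ∈ NN {a} := by
  have : T (insert b {a} : Set S) ⊆ sat (insert b {a}) := hN
  show T (insert b' {a} : Set S) ⊆ sat (insert b' {a})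
  rw [h.T_pair_congr hb, h.sat_pair_congr hb]
  exact this

theorem TCont.MM_sat (h : TCont S) {a b b' : S} (hM : b ∈ MM {a}) (hb : b' ∈ T {b}) :
    b' ∈ MM {a} := by
  have : IsPreconnected (T (insert b {a} : Set S)) := hM
  show IsPreconnected (T (insert b' {a} : Set S))
  rw [h.T_pair_congr hb]
  exact this

theorem NN_symm {a b : S} (hN : b ∈ NN {a}) : a ∈ NN {b} := by
  have : T (insert b {a} : Set S) ⊆ sat (insert b {a}) := hN
  show T (insert a {b} : Set S) ⊆ sat (insert a {b})
  rw [pair_comm]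
  exact this

theorem MM_symm {a b : S} (hM : b ∈ MM {a}) : a ∈ MM {b} := by
  have : IsPreconnected (T (insert b {a} : Set S)) := hM
  show IsPreconnected (T (insert a {b} : Set S))
  rw [pair_comm]
  exact this

theorem TCont.good_singleton (h : TCont S) (a : S) : T {a} ⊆ sat {a} := by
  rw [h.sat_singleton]

theorem TCont.NN_union_MM (h : TCont S) (a : S) : NN {a} ∪ MM {a} = univ := by
  rw [eq_univ_iff_forall]
  intro b
  apply h.good_or_conn
  intro F' hF'
  have hcases : F' = ∅ ∨ F' = {a} ∨ F' = {b} := by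
    obtain ⟨hsub, x, hx, hxF'⟩ := ssubset_iff_exists.1 hF'
    rcases eq_empty_or_nonempty F' with h0 | ⟨y, hy⟩
    · exact Or.inl h0
    · right
      rcases hx with rfl | hx
      · left
        apply Subset.antisymm
        · intro z hz
          rcases hsub hz with rfl | hz'
          · exact absurd hz hxF'
          · exact hz'
        · rw [singleton_subset_iff]
          rcases hsub hy with rfl | hy'
          · exact absurd hy hxF'
          · rw [mem_singleton_iff] at hy'
            rw [← hy']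
            exact hy
      · right
        rw [mem_singleton_iff] at hx
        subst hx
        apply Subset.antisymm
        · intro z hz
          rcases hsub hz with rfl | hz'
          · exact rfl
          · rw [mem_singleton_iff] at hz'
            subst hz'
            exact absurd hz hxF'
        · rw [singleton_subset_iff]
          rcases hsub hy with rfl | hy'
          · exact hy
          · rw [mem_singleton_iff] at hy'
            subst hy'
            exact absurd hy hxF'
  rcases hcases with rfl | rfl | rfl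
  · rw [T_empty]
    exact empty_subset _
  · exact h.good_singleton _
  · exact h.good_singleton _

theorem TCont.T_pair_of_mem (h : TCont S) {a q : S} (hq : q ∈ T {a}) :
    T (insert q {a} : Set S) = T {a} := by
  rw [h.T_pair_congr (h.symm (h.symm hq)), pair_eq_singleton]

theorem TCont.T_subset_NN (h : TCont S) (a : S) : T {a} ⊆ NN {a} := by
  intro q hq
  show T (insert q {a} : Set S) ⊆ sat (insert q {a})
  rw [h.T_pair_of_mem hq, h.sat_insert]
  exact subset_union_of_subset_right (h.good_singleton a) _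

theorem TCont.T_subset_MM (h : TCont S) (a : S) : T {a} ⊆ MM {a} := by
  intro q hq
  show IsPreconnected (T (insert q {a} : Set S))
  rw [h.T_pair_of_mem hq]
  exact (isConnected_T_singleton a).isPreconnected

theorem TCont.NN_inter_MM_eq (h : TCont S) (a : S) : NN {a} ∩ MM {a} = T {a} := by
  apply Subset.antisymm
  · rintro q ⟨h1, h2⟩
    rw [← h.sat_singleton]
    exact h.NN_inter_MM isClosed_singleton (singleton_nonempty a) h1 h2
  · exact subset_inter (h.T_subset_NN a) (h.T_subset_MM a)

theorem TCont.conn_NN (h : TCont S) (a : S) : IsPreconnected (NN ({a} : Set S)) :=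
  conn_of_union (h.isClosed_NN isClosed_singleton) (h.isClosed_MM isClosed_singleton)
    (h.NN_union_MM a) (by rw [h.NN_inter_MM_eq]; exact (isConnected_T_singleton a).isPreconnected)
    ⟨a, h.T_subset_MM a (mem_T_self a)⟩

theorem TCont.conn_MM (h : TCont S) (a : S) : IsPreconnected (MM ({a} : Set S)) :=
  conn_of_union (h.isClosed_MM isClosed_singleton) (h.isClosed_NN isClosed_singleton)
    (by rw [union_comm]; exact h.NN_union_MM a)
    (by rw [inter_comm, h.NN_inter_MM_eq]; exact (isConnected_T_singleton a).isPreconnected)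
    ⟨a, h.T_subset_NN a (mem_T_self a)⟩

theorem TCont.dichotomy (h : TCont S) (a : S) : NN {a} ⊆ T {a} ∨ MM {a} ⊆ T {a} := by
  by_contra hcon
  push Not at hcon
  obtain ⟨h1, h2⟩ := hcon
  obtain ⟨b, hb, hba⟩ := not_subset.1 h1
  obtain ⟨c, hc, hca⟩ := not_subset.1 h2
  have hcov : ∀ u q : S, q ∈ NN {u} ∪ MM {u} := fun u q => by rw [h.NN_union_MM]; exact mem_univ q
  have hint : ∀ u q : S, q ∈ NN {u} → q ∈ MM {u} → q ∈ T {u} := fun u q h1 h2 => by
    rw [← h.NN_inter_MM_eq]; exact ⟨h1, h2⟩
  -- N a ⊆ M c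
  have k1 : NN {a} ⊆ MM {c} := by
    intro q hq
    by_contra hqM
    have hqN : q ∈ NN {c} := (hcov c q).resolve_right hqM
    have hpc := h.conn_NN a
    rw [isPreconnected_closed_iff] at hpc
    obtain ⟨w, hw, hw1, hw2⟩ := hpc (NN {c}) (MM {c}) (h.isClosed_NN isClosed_singleton)
      (h.isClosed_MM isClosed_singleton) (fun x _ => hcov c x) ⟨q, hq, hqN⟩
      ⟨a, h.T_subset_NN a (mem_T_self a), MM_symm hc⟩
    have hwc := hint c w hw1 hw2
    exact hca (hint a c (h.NN_sat hw (h.symm hwc)) hc)
  have k2 : MM {a} ⊆ NN {b} := by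
    intro q hq
    by_contra hqN
    have hqM : q ∈ MM {b} := (hcov b q).resolve_left hqN
    have hpc := h.conn_MM a
    rw [isPreconnected_closed_iff] at hpc
    obtain ⟨w, hw, hw1, hw2⟩ := hpc (NN {b}) (MM {b}) (h.isClosed_NN isClosed_singleton)
      (h.isClosed_MM isClosed_singleton) (fun x _ => hcov b x)
      ⟨a, h.T_subset_MM a (mem_T_self a), NN_symm hb⟩ ⟨q, hq, hqM⟩
    have hwb := hint b w hw1 hw2
    exact hba (hint a b hb (h.MM_sat hw (h.symm hwb)))
  have e1 : c ∈ MM {b} := MM_symm (k1 hb)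
  have e2 : c ∈ NN {b} := k2 hc
  have e3 := hint b c e2 e1
  exact hca (hint a c (h.NN_sat hb e3) hc)

theorem TCont.all_conn (h : TCont S) {a₀ c₀ : S} (hbad : c₀ ∉ NN {a₀}) (b : S) :
    MM ({b} : Set S) = univ := by
  have hcov : ∀ u q : S, q ∈ NN {u} ∪ MM {u} := fun u q => by rw [h.NN_union_MM]; exact mem_univ q
  have gen : ∀ u v : S, v ∈ MM {u} → v ∉ T {u} → MM ({u} : Set S) = univ := by
    intro u v hv hvu
    rcases h.dichotomy u with hd | hd
    · rw [eq_univ_iff_forall]
      intro q
      rcases hcov u q with hq | hq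
      · exact h.T_subset_MM u (hd hq)
      · exact hq
    · exact absurd (hd hv) hvu
  have hc0 : c₀ ∈ MM {a₀} := (hcov a₀ c₀).resolve_left hbad
  have hc0' : c₀ ∉ T {a₀} := fun hh => hbad (h.T_subset_NN a₀ hh)
  have hA : MM ({a₀} : Set S) = univ := gen a₀ c₀ hc0 hc0'
  by_cases hb : b ∈ T {a₀}
  · apply gen b c₀
    · have : b ∈ MM {c₀} := h.MM_sat (MM_symm hc0) hb
      exact MM_symm this
    · rw [h.eq_of_mem hb]
      exact hc0'
  · apply gen b a₀
    · exact MM_symm (by rw [hA]; exact mem_univ b)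
    · exact fun hh => hb (h.symm hh)

theorem TCont.good_of_all_conn (h : TCont S) (hM : ∀ b : S, MM ({b} : Set S) = univ) {A : Set S}
    (hA : IsClosed A) : T A ⊆ sat A := by
  intro x hx
  by_contra hxs
  have hd : Disjoint (T {x}) A := by
    rw [disjoint_iff_inter_eq_empty, ← not_nonempty_iff_eq_empty]
    exact hxs
  obtain ⟨O, hO, hTO, hOA⟩ := normal_exists_closure_subset (isClosed_T {x}) hA.isOpen_compl
    (subset_compl_iff_disjoint_right.2 hd)
  set N' : Set S := {q | T (insert q {x}) ⊆ O} with hN'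
  have hN'o : IsOpen N' := h.upper {x} isClosed_singleton O hO
  have hxN' : x ∈ N' := by
    show T (insert x {x}) ⊆ O
    rw [pair_eq_singleton]
    exact hTO
  set L₀ : Set S := ⋃ q ∈ N', T (insert q {x}) with hL₀
  have hxL : ∀ q : S, x ∈ T (insert q {x} : Set S) := fun q => subset_T _ (by simp)
  have hL₀c : IsConnected L₀ := by
    refine ⟨⟨x, mem_biUnion hxN' (hxL x)⟩, ?_⟩
    apply isPreconnected_of_forall x
    intro y hy
    obtain ⟨q, hq, hyq⟩ := mem_iUnion₂.1 hy
    refine ⟨T (insert q {x}), fun z hz => mem_biUnion hq hz, hxL q, hyq, ?_⟩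
    have : q ∈ MM {x} := by rw [hM]; exact mem_univ q
    exact this
  have hLsub : closure L₀ ⊆ closure O := by
    apply closure_mono
    intro y hy
    obtain ⟨q, hq, hyq⟩ := mem_iUnion₂.1 hy
    exact hq hyq
  obtain ⟨y, hyL, hyA⟩ := hx (closure L₀) isClosed_closure hL₀c.closure
    (mem_interior.2 ⟨N', fun q hq => subset_closure (mem_biUnion hq (subset_T _ (by simp))),
      hN'o, hxN'⟩)
  exact hOA (hLsub hyL) hyA

theorem TCont.good_finite (h : TCont S) (hpair : ∀ a b : S, b ∈ NN {a}) (F : Finset S) :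
    T (F : Set S) ⊆ sat (F : Set S) := by
  classical
  induction hn : F.card using Nat.strong_induction_on generalizing F with
  | _ n ih =>
  by_cases hcoll : ∃ p ∈ F, ∃ p' ∈ F, p ≠ p' ∧ p' ∈ T {p}
  · obtain ⟨p, hp, p', hp', hne, hpp⟩ := hcoll
    have hlt : (F.erase p').card < n := by rw [← hn]; exact Finset.card_erase_lt_of_mem hp'
    have e1 := ih _ hlt (F.erase p') rfl
    have hpe : p ∈ F.erase p' := Finset.mem_erase.2 ⟨hne, hp⟩
    have e2 : T (F : Set S) ⊆ T (F.erase p' : Set S) := by
      apply h.le (Finset.finite_toSet _).isClosed ⟨p, hpe⟩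
      intro z hz
      by_cases hzp : z = p'
      · subst hzp
        exact T_mono (singleton_subset_iff.2 (Finset.mem_coe.2 hpe)) hpp
      · exact subset_T _ (Finset.mem_coe.2 (Finset.mem_erase.2 ⟨hzp, hz⟩))
    exact e2.trans (e1.trans (sat_mono (Finset.coe_subset.2 (Finset.erase_subset _ _))))
  · push Not at hcoll
    rcases F.eq_empty_or_nonempty with rfl | ⟨q, hq⟩
    · rw [Finset.coe_empty, T_empty]; exact empty_subset _
    set F' := F.erase q with hF'
    have hFins : (F : Set S) = insert q (F' : Set S) := by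
      rw [hF', ← Finset.coe_insert, Finset.insert_erase hq]
    have hlt : F'.card < n := by rw [← hn]; exact Finset.card_erase_lt_of_mem hq
    have hF'cl : IsClosed (F' : Set S) := (Finset.finite_toSet _).isClosed
    rcases F'.eq_empty_or_nonempty with h0 | ⟨p, hp⟩
    · rw [hFins, h0]
      simp only [Finset.coe_empty, insert_empty_eq]
      exact h.good_singleton q
    set F'' := F'.erase p with hF''
    have hF'ins : (F' : Set S) = insert p (F'' : Set S) := by
      rw [hF'', ← Finset.coe_insert, Finset.insert_erase hp]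
    rcases F''.eq_empty_or_nonempty with h0 | ⟨r, hr⟩
    · rw [hFins, hF'ins, h0]
      simp only [Finset.coe_empty, insert_empty_eq]
      exact hpair p q
    -- now sat F' is disconnected
    have hpF : p ∈ F := Finset.mem_of_mem_erase hp
    have hnotconn : ¬ IsPreconnected (sat (F' : Set S)) := by
      intro hpc
      rw [isPreconnected_closed_iff] at hpc
      obtain ⟨w, -, hw1, hw2⟩ := hpc (T {p}) (sat (F'' : Set S)) (isClosed_T _)
        (h.isClosed_sat (Finset.finite_toSet _).isClosed)
        (by rw [hF'ins, h.sat_insert])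
        ⟨p, by rw [hF'ins, h.sat_insert]; exact Or.inl (mem_T_self p), mem_T_self p⟩
        ⟨r, by rw [hF'ins, h.sat_insert]; exact Or.inr (subset_sat _ hr), subset_sat _ hr⟩
      obtain ⟨z, hz, hwz⟩ := h.mem_sat.1 hw2
      have hz := Finset.mem_coe.1 hz
      have hzF' : z ∈ F' := Finset.mem_of_mem_erase hz
      have hzF : z ∈ F := Finset.mem_of_mem_erase hzF'
      have hzp : p ≠ z := by
        rintro rfl
        exact Finset.notMem_erase p F' hz
      apply hcoll p hpF z hzF hzp
      have : T {z} = T {p} := by rw [← h.eq_of_mem hwz, h.eq_of_mem hw1]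
      rw [← this]
      exact mem_T_self z
    have hcov : NN (F' : Set S) ∪ MM (F' : Set S) = univ := by
      rw [eq_univ_iff_forall]
      intro u
      apply h.good_or_conn
      intro G hG
      have hGfin : G.Finite := (Set.Finite.insert u (Finset.finite_toSet F')).subset hG.subset
      obtain ⟨G', rfl⟩ := hGfin.exists_finset_coe
      have hcard : G'.card < n := by
        have h1 : (G' : Set S) ⊂ ((insert u F' : Finset S) : Set S) := by
          rw [Finset.coe_insert]; exact hG
        have h2 := Finset.card_lt_card (Finset.coe_ssubset.1 h1)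
        have h3 := Finset.card_insert_le u F'
        have h4 : F'.card + 1 = n := by
          rw [hF', Finset.card_erase_of_mem hq, ← hn]
          have := Finset.card_pos.2 ⟨q, hq⟩
          omega
        omega
      exact ih _ hcard G' rfl
    have hNNne : (NN (F' : Set S)).Nonempty := by
      refine ⟨p, ?_⟩
      show T (insert p (F' : Set S)) ⊆ sat (insert p (F' : Set S))
      rw [insert_eq_of_mem (Finset.mem_coe.2 hp)]
      exact ih _ hlt F' rfl
    have hq' : q ∈ NN (F' : Set S) := by
      by_contra hqN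
      have hqM : q ∈ MM (F' : Set S) := by
        have : q ∈ NN (F' : Set S) ∪ MM (F' : Set S) := by rw [hcov]; exact mem_univ q
        exact this.resolve_left hqN
      have hpc := (isPreconnected_univ (α := S))
      rw [isPreconnected_closed_iff] at hpc
      obtain ⟨w, -, hw1, hw2⟩ := hpc (NN (F' : Set S)) (MM (F' : Set S)) (h.isClosed_NN hF'cl)
        (h.isClosed_MM hF'cl) (by rw [hcov]) (by
          obtain ⟨x, hx⟩ := hNNne; exact ⟨x, mem_univ x, hx⟩) ⟨q, mem_univ q, hqM⟩
      have hws : w ∈ sat (F' : Set S) := h.NN_inter_MM hF'cl ⟨p, hp⟩ hw1 hw2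
      apply hnotconn
      have hTw : T (insert w (F' : Set S)) = sat (F' : Set S) := by
        apply Subset.antisymm
        · have : T (insert w (F' : Set S)) ⊆ sat (insert w (F' : Set S)) := hw1
          rw [h.sat_insert] at this
          exact this.trans (union_subset (fun y hy => h.sat_class hws hy) Subset.rfl)
        · exact (h.sat_subset_T _).trans (T_mono (subset_insert _ _))
      rw [← hTw]
      exact hw2
    rw [hFins]
    exact hq'

/-- **Main theorem.** If `T` is continuous then `T A` is the union of the classes meeting `A`. -/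
theorem TCont.T_eq_sat (h : TCont S) {A : Set S} (hA : IsClosed A) : T A = sat A := by
  apply Subset.antisymm _ (h.sat_subset_T A)
  by_cases hpair : ∀ a b : S, b ∈ NN ({a} : Set S)
  · intro x hx
    by_contra hxs
    rcases A.eq_empty_or_nonempty with rfl | hne
    · rw [T_empty] at hx
      exact hx
    obtain ⟨B, hBf, -, hBA, y, hyB, hy⟩ := h.approx A A (sat A)ᶜ hA hne
      (h.isClosed_sat hA).isOpen_compl subset_closure ⟨x, hx, hxs⟩
    obtain ⟨B', rfl⟩ := hBf.exists_finset_coe
    exact hy (sat_mono hBA (h.good_finite hpair B' hyB))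
  · push Not at hpair
    obtain ⟨a, c, hc⟩ := hpair
    exact h.good_of_all_conn (fun b => h.all_conn hc b) hA

theorem TCont.additive (h : TCont S) {A B : Set S} (hA : IsClosed A) (hB : IsClosed B) :
    T (A ∪ B) = T A ∪ T B := by
  rw [h.T_eq_sat hA, h.T_eq_sat hB, h.T_eq_sat (hA.union hB)]
  ext x
  simp only [sat, mem_setOf_eq, mem_union, inter_union_distrib_left, union_nonempty]

/-- if some `T {p}` has nonempty interior then `T {x}` is the whole space for all `x` -/
theorem TCont.eq_univ_of_interior (h : TCont S) {p : S} (hp : (interior (T {p})).Nonempty)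
    (x : S) : T {x} = univ := by
  have hop : T {p} = {q : S | (T {q} ∩ interior (T {p})).Nonempty} := by
    ext q
    constructor
    · intro hq
      obtain ⟨y, hy⟩ := hp
      refine ⟨y, ?_, hy⟩
      rw [h.eq_of_mem hq]
      exact interior_subset hy
    · rintro ⟨y, hy, hyp⟩
      have h1 := h.eq_of_mem hy
      have h2 := h.eq_of_mem (interior_subset hyp)
      rw [← h2, h1]
      exact mem_T_self q
  have hopen : IsOpen (T {p}) := by
    rw [hop]
    exact h.lower1 isOpen_interior
  have huniv : T {p} = univ := by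
    rcases isClopen_iff.1 ⟨isClosed_T {p}, hopen⟩ with hh | hh
    · have := mem_T_self p
      rw [hh] at this
      exact this.elim
    · exact hh
  have hx : x ∈ T {p} := by rw [huniv]; exact mem_univ x
  rw [h.eq_of_mem hx, huniv]

/-- the quotient by the classes is locally connected -/
theorem TCont.locallyConnected (h : TCont S) (r : S → S → Prop)
    (hr : ∀ p q : S, r p q ↔ T {p} = T {q}) : LocallyConnectedSpace (Quot r) := by
  have heq : ∀ p q : S, Quot.mk r p = Quot.mk r q ↔ T {p} = T {q} := by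
    intro p q
    have hequiv : Equivalence r := ⟨fun x => (hr x x).2 rfl, fun hxy => (hr _ _).2 ((hr _ _).1 hxy).symm,
      fun h1 h2 => (hr _ _).2 (((hr _ _).1 h1).trans ((hr _ _).1 h2))⟩
    rw [Quot.eq, Equivalence.eqvGen_iff hequiv, hr]
  have hopen : IsOpenMap (Quot.mk r) := by
    intro U hU
    rw [← isQuotientMap_quot_mk.isOpen_preimage]
    convert h.lower1 hU using 1
    ext x
    simp only [mem_preimage, mem_image, mem_setOf_eq]
    constructor
    · rintro ⟨u, hu, hux⟩
      rw [heq] at hux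
      exact ⟨u, by rw [← hux]; exact mem_T_self u, hu⟩
    · rintro ⟨u, hux, hu⟩
      exact ⟨u, hu, (heq _ _).2 (h.eq_of_mem hux)⟩
  rw [locallyConnectedSpace_iff_connected_subsets]
  intro x U hU
  obtain ⟨s, rfl⟩ := Quot.exists_rep x
  obtain ⟨U', hU'U, hU'o, hsU'⟩ := mem_nhds_iff.1 hU
  set A : Set S := (Quot.mk r ⁻¹' U')ᶜ with hA
  have hAc : IsClosed A := (hU'o.preimage continuous_quot_mk).isClosed_compl
  have hs : s ∉ T A := by
    rw [h.T_eq_sat hAc]
    rintro ⟨y, hy, hyA⟩
    apply hyA
    show Quot.mk r y ∈ U'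
    rw [(heq y s).2 (h.eq_of_mem hy)]
    exact hsU'
  obtain ⟨W, hW, hWc, hsW, hWA⟩ := notMem_T.1 hs
  refine ⟨Quot.mk r '' W, ?_, ?_, ?_⟩
  · exact Filter.mem_of_superset (hopen.image_mem_nhds (isOpen_interior.mem_nhds hsW))
      (image_mono interior_subset)
  · exact hWc.isPreconnected.image _ continuous_quot_mk.continuousOn
  · rintro _ ⟨w, hw, rfl⟩
    apply hU'U
    by_contra hcon
    have : w ∈ W ∩ A := ⟨hw, hcon⟩
    rw [hWA] at this
    exact this

end cont

section vietoris

variable {S : Type*} [TopologicalSpace S]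

/-- the Vietoris subbasis -/
def subb (S : Type*) [TopologicalSpace S] : Set (Set (Set S)) :=
  {𝒰 : Set (Set S) | ∃ U : Set S, IsOpen U ∧ 𝒰 = {A : Set S | A ⊆ U}} ∪
    {𝒰 : Set (Set S) | ∃ U : Set S, IsOpen U ∧ 𝒰 = {A : Set S | (A ∩ U).Nonempty}}

/-- the Vietoris topology on all subsets -/
@[reducible] def viet (S : Type*) [TopologicalSpace S] : TopologicalSpace (Set S) :=
  TopologicalSpace.generateFrom (subb S)

theorem continuous_insert (F : Set S) :
    @Continuous S (Set S) _ (viet S) (fun q => insert q F) := by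
  apply continuous_generateFrom_iff.2
  rintro s (⟨U, hU, rfl⟩ | ⟨U, hU, rfl⟩)
  · by_cases hF : F ⊆ U
    · convert hU using 1
      ext q
      simp only [mem_preimage, mem_setOf_eq, insert_subset_iff, hF, and_true]
    · convert isOpen_empty using 1
      ext q
      simp only [mem_preimage, mem_setOf_eq, insert_subset_iff, hF, and_false, mem_empty_iff_false]
  · by_cases hF : (F ∩ U).Nonempty
    · convert isOpen_univ using 1
      ext q
      simp only [mem_preimage, mem_setOf_eq, mem_univ, iff_true]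
      exact hF.mono (inter_subset_inter_left _ (subset_insert _ _))
    · convert hU using 1
      ext q
      simp only [mem_preimage, mem_setOf_eq]
      constructor
      · rintro ⟨y, hy, hyU⟩
        rcases hy with rfl | hy
        · exact hyU
        · exact absurd ⟨y, hy, hyU⟩ hF
      · intro hq
        exact ⟨q, mem_insert _ _, hq⟩

/-- finite approximation of closed sets in the Vietoris topology -/
theorem exists_finite_mem {A D : Set S} (hne : A.Nonempty) (hAD : A ⊆ closure D)
    {𝒰 : Set (Set S)} (h𝒰 : @IsOpen (Set S) (viet S) 𝒰) (hA : A ∈ 𝒰) :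
    ∃ B : Set S, B.Finite ∧ B.Nonempty ∧ B ⊆ D ∧ B ∈ 𝒰 := by
  classical
  -- every finite family of open sets is handled by some finite set
  have key : ∀ 𝒪 : Finset (Set S), ∃ B : Set S, B.Finite ∧ B.Nonempty ∧ B ⊆ D ∧
      ∀ U ∈ 𝒪, IsOpen U → (A ⊆ U → B ⊆ U) ∧ ((A ∩ U).Nonempty → (B ∩ U).Nonempty) := by
    intro 𝒪
    set V : Set S := ⋂ U ∈ 𝒪.filter (fun U => IsOpen U ∧ A ⊆ U), U with hV
    have hVo : IsOpen V := by
      apply isOpen_biInter_finset
      intro U hU
      exact (Finset.mem_filter.1 hU).2.1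
    have hAV : A ⊆ V := by
      intro x hx
      rw [hV, mem_iInter₂]
      intro U hU
      exact (Finset.mem_filter.1 hU).2.2 hx
    have pick : ∀ U : Set S, IsOpen U → (A ∩ U).Nonempty → ∃ b, b ∈ D ∩ (U ∩ V) := by
      rintro U hU ⟨a, haA, haU⟩
      have := hAD haA
      rw [mem_closure_iff] at this
      obtain ⟨b, hb, hb'⟩ := this (U ∩ V) (hU.inter hVo) ⟨haU, hAV haA⟩
      exact ⟨b, hb', hb⟩
    obtain ⟨b₀, hb₀⟩ := pick univ isOpen_univ (by simpa using hne)
    set g : Set S → S := fun U => if hU : IsOpen U ∧ (A ∩ U).Nonempty then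
      Classical.choose (pick U hU.1 hU.2) else b₀ with hg
    have hgD : ∀ U, g U ∈ D ∩ V := by
      intro U
      by_cases hU : IsOpen U ∧ (A ∩ U).Nonempty
      · have := Classical.choose_spec (pick U hU.1 hU.2)
        simp only [hg, hU, and_self, dite_true]
        exact ⟨this.1, this.2.2⟩
      · simp only [hg, hU, dite_false]
        exact ⟨hb₀.1, hb₀.2.2⟩
    have hgU : ∀ U, IsOpen U → (A ∩ U).Nonempty → g U ∈ U := by
      intro U h1 h2
      have hU : IsOpen U ∧ (A ∩ U).Nonempty := ⟨h1, h2⟩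
      have := Classical.choose_spec (pick U hU.1 hU.2)
      simp only [hg, hU, and_self, dite_true]
      exact this.2.1
    refine ⟨insert b₀ (g '' (𝒪 : Set (Set S))), (𝒪.finite_toSet.image g).insert b₀,
      insert_nonempty _ _, ?_, ?_⟩
    · rw [insert_subset_iff]
      refine ⟨hb₀.1, ?_⟩
      rintro _ ⟨U, -, rfl⟩
      exact (hgD U).1
    · intro U hU hUo
      refine ⟨?_, ?_⟩
      · intro hAU
        have hVU : V ⊆ U := by
          intro x hx
          rw [hV, mem_iInter₂] at hx
          exact hx U (Finset.mem_filter.2 ⟨hU, hUo, hAU⟩)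
        rw [insert_subset_iff]
        refine ⟨hVU hb₀.2.2, ?_⟩
        rintro _ ⟨U', -, rfl⟩
        exact hVU (hgD U').2
      · intro hAU
        exact ⟨g U, mem_insert_of_mem _ ⟨U, hU, rfl⟩, hgU U hUo hAU⟩
  choose f hf1 hf2 hf3 hf4 using key
  have htend : Tendsto f atTop (@nhds (Set S) (viet S) A) := by
    rw [viet, TopologicalSpace.tendsto_nhds_generateFrom_iff]
    rintro s (⟨U, hU, rfl⟩ | ⟨U, hU, rfl⟩) hAs
    · filter_upwards [eventually_ge_atTop ({U} : Finset (Set S))] with 𝒪 h𝒪
      exact (hf4 𝒪 U (h𝒪 (Finset.mem_singleton_self U)) hU).1 hAs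
    · filter_upwards [eventually_ge_atTop ({U} : Finset (Set S))] with 𝒪 h𝒪
      exact (hf4 𝒪 U (h𝒪 (Finset.mem_singleton_self U)) hU).2 hAs
  have hmem : 𝒰 ∈ @nhds (Set S) (viet S) A := @IsOpen.mem_nhds (Set S) (viet S) A 𝒰 h𝒰 hA
  obtain ⟨𝒪, h𝒪⟩ := (htend.eventually hmem).exists
  exact ⟨f 𝒪, hf1 𝒪, hf2 𝒪, hf3 𝒪, h𝒪⟩

/-- continuity of `T` on nonempty closed sets gives the structure used above -/
theorem tcont_of_continuous [T1Space S]
    (hT : @Continuous {A : Set S // IsClosed A ∧ A.Nonempty} (Set S)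
      (TopologicalSpace.induced Subtype.val (viet S)) (viet S) (fun A => T A.1)) : TCont S := by
  have hcomp : ∀ F : Set S, IsClosed F →
      @Continuous S (Set S) _ (viet S) (fun q => T (insert q F)) := by
    intro F hF
    have h1 : @Continuous S {A : Set S // IsClosed A ∧ A.Nonempty} _
        (TopologicalSpace.induced Subtype.val (viet S))
        (fun q => ⟨insert q F, by rw [insert_eq]; exact isClosed_singleton.union hF,
          insert_nonempty _ _⟩) := by
      let _ : TopologicalSpace (Set S) := viet S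
      exact continuous_induced_rng.2 (continuous_insert F)
    exact @Continuous.comp S {A : Set S // IsClosed A ∧ A.Nonempty} (Set S) _
      (TopologicalSpace.induced Subtype.val (viet S)) (viet S) _ _ hT h1
  refine ⟨?_, ?_, ?_⟩
  · intro F hF U hU
    have := continuous_generateFrom_iff.1 (hcomp F hF) {A : Set S | (A ∩ U).Nonempty}
      (Or.inr ⟨U, hU, rfl⟩)
    exact this
  · intro F hF U hU
    have := continuous_generateFrom_iff.1 (hcomp F hF) {A : Set S | A ⊆ U}
      (Or.inl ⟨U, hU, rfl⟩)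
    exact this
  · intro A D U hA hne hU hAD hTA
    have h1 := continuous_generateFrom_iff.1 hT {A : Set S | (A ∩ U).Nonempty}
      (Or.inr ⟨U, hU, rfl⟩)
    obtain ⟨𝒰, h𝒰, heq⟩ := (@isOpen_induced_iff _ _ (viet S) _ _).1 h1
    have hA𝒰 : A ∈ 𝒰 := by
      have : (⟨A, hA, hne⟩ : {A : Set S // IsClosed A ∧ A.Nonempty}) ∈ Subtype.val ⁻¹' 𝒰 := by
        rw [heq]; exact hTA
      exact this
    obtain ⟨B, hBf, hBne, hBD, hB⟩ := exists_finite_mem hne hAD h𝒰 hA𝒰
    refine ⟨B, hBf, hBne, hBD, ?_⟩
    have : (⟨B, hBf.isClosed, hBne⟩ : {A : Set S // IsClosed A ∧ A.Nonempty}) ∈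
        Subtype.val ⁻¹' 𝒰 := hB
    rw [heq] at this
    exact this

end vietoris

end Pool.Agent.H874R2.JT
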