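import Mathlib

/-!
Explicit retraction of the hyperspace `2^F` onto `C(F)` for a planar fan `F` over a compact
set `K ⊆ [0,1]` with empty interior.
-/

namespace Helper874.Retr

open Set TopologicalSpace Metric Filter Topology

abbrev P := ℝ × ℝ
abbrev N := NonemptyCompacts P

lemma mem_sup' {A B : N} {p : P} : p ∈ A ⊔ B ↔ p ∈ A ∨ p ∈ B := by
  rw [← SetLike.mem_coe, NonemptyCompacts.coe_sup]; rfl

lemma dist_le_of {A B : N} {r : ℝ} (hr : 0 ≤ r)
    (h1 : ∀ p ∈ A, ∃ q ∈ B, dist p q ≤ r) (h2 : ∀ q ∈ B, ∃ p ∈ A, dist q p ≤ r) :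
    dist A B ≤ r := by
  rw [NonemptyCompacts.dist_eq]
  exact hausdorffDist_le_of_mem_dist hr h1 h2

lemma exists_of_dist {A B : N} {p : P} (hp : p ∈ A) : ∃ q ∈ B, dist p q ≤ dist A B := by
  obtain ⟨q, hq, hq'⟩ := B.isCompact.exists_infDist_eq_dist B.nonempty p
  refine ⟨q, hq, ?_⟩
  rw [← hq', NonemptyCompacts.dist_eq]
  refine infDist_le_hausdorffDist_of_mem hp ?_
  exact hausdorffEDist_ne_top_of_nonempty_of_bounded A.nonempty B.nonempty
    A.isCompact.isBounded B.isCompact.isBounded

/-- supremum of a compact set of reals, as a function of the set. -/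
noncomputable def sup (A : NonemptyCompacts ℝ) : ℝ := sSup (A : Set ℝ)

lemma sup_mem (A : NonemptyCompacts ℝ) : sup A ∈ A := A.isCompact.sSup_mem A.nonempty

lemma le_sup {A : NonemptyCompacts ℝ} {x : ℝ} (hx : x ∈ A) : x ≤ sup A :=
  le_csSup A.isCompact.bddAbove hx

lemma exists_of_dist' {A B : NonemptyCompacts ℝ} {p : ℝ} (hp : p ∈ A) :
    ∃ q ∈ B, dist p q ≤ dist A B := by
  obtain ⟨q, hq, hq'⟩ := B.isCompact.exists_infDist_eq_dist B.nonempty p
  refine ⟨q, hq, ?_⟩
  rw [← hq', NonemptyCompacts.dist_eq]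
  refine infDist_le_hausdorffDist_of_mem hp ?_
  exact hausdorffEDist_ne_top_of_nonempty_of_bounded A.nonempty B.nonempty
    A.isCompact.isBounded B.isCompact.isBounded

lemma continuous_sup : Continuous sup := by
  have : LipschitzWith 1 sup := by
    refine LipschitzWith.of_dist_le_mul ?_
    intro A B
    have key : ∀ A B : NonemptyCompacts ℝ, sup A ≤ sup B + dist A B := by
      intro A B
      obtain ⟨q, hq, hq'⟩ := exists_of_dist' (B := B) (sup_mem A)
      have := le_sup hq
      rw [Real.dist_eq] at hq'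
      have := abs_le.1 hq'
      linarith [this.2]
    have h1 := key A B
    have h2 := key B A
    rw [dist_comm B A] at h2
    rw [Real.dist_eq, abs_le]
    simp only [NNReal.coe_one, one_mul]
    constructor <;> linarith
  exact this.continuous

/-- maximum of a continuous function on `A`. -/
noncomputable def mx (g : P → ℝ) (hg : Continuous g) (A : N) : ℝ := sup (A.map g hg)

lemma continuous_mx (g : P → ℝ) (hg : Continuous g) : Continuous (mx g hg) :=
  continuous_sup.comp hg.nonemptyCompacts_map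

lemma mx_mem (g : P → ℝ) (hg : Continuous g) (A : N) : ∃ p ∈ A, g p = mx g hg A := by
  have := sup_mem (A.map g hg)
  rw [← SetLike.mem_coe, NonemptyCompacts.coe_map] at this
  obtain ⟨p, hp, h⟩ := this
  exact ⟨p, hp, h⟩

lemma le_mx (g : P → ℝ) (hg : Continuous g) {A : N} {p : P} (hp : p ∈ A) : g p ≤ mx g hg A := by
  apply le_sup
  rw [← SetLike.mem_coe, NonemptyCompacts.coe_map]
  exact ⟨p, hp, rfl⟩

/-- maximal height -/
noncomputable def bb (A : N) : ℝ := mx Prod.fst continuous_fst A
/-- minimal height -/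
noncomputable def aa (A : N) : ℝ := - mx (fun p => - p.1) (by fun_prop) A

lemma continuous_bb : Continuous bb := continuous_mx _ _
lemma continuous_aa : Continuous aa := (continuous_mx _ _).neg

lemma bb_mem (A : N) : ∃ p ∈ A, p.1 = bb A := mx_mem _ _ A
lemma le_bb {A : N} {p : P} (hp : p ∈ A) : p.1 ≤ bb A := le_mx Prod.fst _ hp
lemma aa_mem (A : N) : ∃ p ∈ A, p.1 = aa A := by
  obtain ⟨p, hp, h⟩ := mx_mem (fun p : P => - p.1) (by fun_prop) A
  exact ⟨p, hp, by unfold aa; linarith⟩
lemma aa_le {A : N} {p : P} (hp : p ∈ A) : aa A ≤ p.1 := by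
  have := le_mx (fun p : P => - p.1) (by fun_prop) hp
  unfold aa; linarith
lemma aa_le_bb (A : N) : aa A ≤ bb A := by
  obtain ⟨p, hp, h⟩ := aa_mem A
  rw [← h]; exact le_bb hp

/-- slope with cut off -/
noncomputable def slp (ε : ℝ) (p : P) : ℝ := p.2 / max p.1 ε

lemma continuous_slp {ε : ℝ} (hε : 0 < ε) : Continuous (slp ε) := by
  unfold slp
  refine Continuous.div (by fun_prop) (by fun_prop) ?_
  intro p
  have : 0 < max p.1 ε := lt_max_of_lt_right hε
  exact this.ne'

/-- maximal slope -/
noncomputable def kap (A : N) : ℝ := sSup ((fun p : P => p.2 / p.1) '' (A : Set P))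

lemma kap_eq {A : N} {ε : ℝ} (hε : 0 < ε) (hA : ε ≤ aa A) :
    kap A = mx (slp ε) (continuous_slp hε) A := by
  unfold kap mx sup
  rw [NonemptyCompacts.coe_map]
  congr 1
  apply image_congr
  intro p hp
  have := aa_le (SetLike.mem_coe.1 hp)
  simp only [slp]
  rw [max_eq_left (hA.trans this)]

lemma kap_mem {A : N} (hA : 0 < aa A) : ∃ p ∈ A, p.2 / p.1 = kap A := by
  obtain ⟨p, hp, h⟩ := mx_mem (slp (aa A)) (continuous_slp hA) A
  refine ⟨p, hp, ?_⟩
  rw [kap_eq hA le_rfl, ← h, slp, max_eq_left (aa_le hp)]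

lemma continuousAt_kap {A : N} (hA : 0 < aa A) : ContinuousAt kap A := by
  have h2 : 0 < aa A / 2 := by positivity
  have : kap =ᶠ[𝓝 A] mx (slp (aa A / 2)) (continuous_slp h2) := by
    have : ∀ᶠ B in 𝓝 A, aa A / 2 < aa B :=
      continuous_aa.continuousAt.eventually_const_lt (by linarith)
    filter_upwards [this] with B hB
    exact kap_eq h2 hB.le
  exact (continuous_mx _ _).continuousAt.congr this.symm

/-- the unit interval as a compact set -/
def I01 : NonemptyCompacts ℝ := ⟨⟨Icc 0 1, isCompact_Icc⟩, ⟨0, by simp⟩⟩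

lemma coe_I01 : (I01 : Set ℝ) = Icc 0 1 := rfl

/-- segment -/
noncomputable def arc (κ α β : ℝ) : N :=
  NonemptyCompacts.map (fun t => (α + t * (β - α), κ * (α + t * (β - α)))) (by fun_prop) I01

lemma continuous_arc : Continuous (fun z : ℝ × ℝ × ℝ => arc z.1 z.2.1 z.2.2) := by
  unfold arc
  exact Continuous.nonemptyCompacts_map' (f := fun _ : ℝ × ℝ × ℝ => I01)
    (g := fun z : ℝ × ℝ × ℝ => fun t =>
    (z.2.1 + t * (z.2.2 - z.2.1), z.1 * (z.2.1 + t * (z.2.2 - z.2.1)))) (by fun_prop) (by
      simp only [Function.uncurry_def]; fun_prop)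

lemma mem_arc {κ α β : ℝ} (h : α ≤ β) (p : P) :
    p ∈ arc κ α β ↔ ∃ x, α ≤ x ∧ x ≤ β ∧ p = (x, κ * x) := by
  rw [← SetLike.mem_coe, arc, NonemptyCompacts.coe_map, coe_I01]
  constructor
  · rintro ⟨t, ⟨ht0, ht1⟩, rfl⟩
    refine ⟨α + t * (β - α), ?_, ?_, rfl⟩
    · nlinarith
    · nlinarith
  · rintro ⟨x, hx1, hx2, rfl⟩
    rcases eq_or_lt_of_le h with h' | h'
    · refine ⟨0, by simp, ?_⟩
      have : x = α := by linarith
      simp [this]
    · refine ⟨(x - α) / (β - α), ⟨?_, ?_⟩, ?_⟩
      · apply div_nonneg <;> linarith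
      · rw [div_le_one (by linarith)]; linarith
      · have : α + (x - α) / (β - α) * (β - α) = x := by
          rw [div_mul_cancel₀ _ (by linarith)]; ring
        simp only [this]

/-- star hull -/
noncomputable def hull (A : N) : N :=
  NonemptyCompacts.map (fun z : ℝ × P => z.1 • z.2) (by fun_prop) (I01 ×ˢ A)

lemma continuous_hull : Continuous hull := by
  unfold hull
  exact Continuous.nonemptyCompacts_map (by fun_prop) |>.comp
    (NonemptyCompacts.continuous_prod.comp (by fun_prop : Continuous fun A : N => (I01, A)))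

lemma mem_hull {A : N} {p : P} : p ∈ hull A ↔ ∃ s : ℝ, 0 ≤ s ∧ s ≤ 1 ∧ ∃ q ∈ A, p = s • q := by
  rw [← SetLike.mem_coe, hull, NonemptyCompacts.coe_map]
  constructor
  · rintro ⟨⟨s, q⟩, hz, rfl⟩
    rw [NonemptyCompacts.coe_prod] at hz
    exact ⟨s, hz.1.1, hz.1.2, q, hz.2, rfl⟩
  · rintro ⟨s, h0, h1, q, hq, rfl⟩
    refine ⟨(s, q), ?_, rfl⟩
    rw [NonemptyCompacts.coe_prod]
    exact ⟨⟨h0, h1⟩, hq⟩

/-- affine image -/
noncomputable def aff (T : P) (c : ℝ) (A : N) : N :=
  NonemptyCompacts.map (fun p : P => T + c • p) (by fun_prop) A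

lemma continuous_aff : Continuous (fun z : P × ℝ × N => aff z.1 z.2.1 z.2.2) := by
  unfold aff
  exact Continuous.nonemptyCompacts_map' (f := fun z : P × ℝ × N => z.2.2)
    (g := fun z : P × ℝ × N => fun p => z.1 + z.2.1 • p) (by fun_prop) (by
      simp only [Function.uncurry_def]; fun_prop)

lemma mem_aff {T : P} {c : ℝ} {A : N} {p : P} : p ∈ aff T c A ↔ ∃ q ∈ A, p = T + c • q := by
  rw [← SetLike.mem_coe, aff, NonemptyCompacts.coe_map]
  constructor
  · rintro ⟨q, hq, rfl⟩
    exact ⟨q, hq, rfl⟩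
  · rintro ⟨q, hq, rfl⟩
    exact ⟨q, hq, rfl⟩

/-- clamp to `[0,1]` -/
noncomputable def cl (x : ℝ) : ℝ := max 0 (min 1 x)

lemma continuous_cl : Continuous cl := by unfold cl; fun_prop
lemma cl_nonneg (x : ℝ) : 0 ≤ cl x := le_max_left _ _
lemma cl_le_one (x : ℝ) : cl x ≤ 1 := max_le zero_le_one (min_le_left _ _)
lemma cl_of_one_le {x : ℝ} (h : 1 ≤ x) : cl x = 1 := by
  unfold cl; rw [min_eq_left h]; simp
lemma cl_of_nonpos {x : ℝ} (h : x ≤ 0) : cl x = 0 := by
  unfold cl; rw [min_eq_right (by linarith)]; simp [h]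

/-- the reference arc -/
noncomputable def ref (A : N) : N := arc (kap A) (aa A) (bb A)

/-- the ratio -/
noncomputable def lam (A : N) : ℝ := dist A (ref A) / aa A

/-- the tip -/
noncomputable def tip (A : N) : P :=
  (cl (2 - lam A) * aa A, kap A * (cl (2 - lam A) * aa A))

/-- retraction away from the vertex -/
noncomputable def r1 (A : N) : N :=
  arc (kap A) (cl (2 - lam A) * aa A) (cl (4 - lam A) * bb A) ⊔
    aff (tip A) (cl (lam A - 2)) (hull A)

open Classical in
/-- the retraction -/
noncomputable def ret (A : N) : N := if 0 < aa A then r1 A else hull A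

lemma continuousAt_r1 {A : N} (hA : 0 < aa A) : ContinuousAt r1 A := by
  have hk := continuousAt_kap hA
  have ha : ContinuousAt aa A := continuous_aa.continuousAt
  have hb : ContinuousAt bb A := continuous_bb.continuousAt
  have href : ContinuousAt ref A := by
    unfold ref
    exact (continuous_arc.continuousAt (x := (kap A, aa A, bb A))).comp₂_of_eq
      (f := fun z : ℝ × (ℝ × ℝ) => arc z.1 z.2.1 z.2.2) hk (ha.prodMk hb) rfl
  have hlam : ContinuousAt lam A := by
    unfold lam
    exact (continuousAt_id.dist href).div ha hA.ne'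
  have hc2 : ContinuousAt (fun A => cl (2 - lam A)) A :=
    continuous_cl.continuousAt.comp (continuousAt_const.sub hlam)
  have hc4 : ContinuousAt (fun A => cl (4 - lam A)) A :=
    continuous_cl.continuousAt.comp (continuousAt_const.sub hlam)
  have hc2' : ContinuousAt (fun A => cl (lam A - 2)) A :=
    continuous_cl.continuousAt.comp (hlam.sub continuousAt_const)
  have htip : ContinuousAt tip A := by
    unfold tip
    exact (hc2.mul ha).prodMk (hk.mul (hc2.mul ha))
  have h1 : ContinuousAt (fun A => arc (kap A) (cl (2 - lam A) * aa A) (cl (4 - lam A) * bb A)) A :=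
    ContinuousAt.comp (f := fun A => (kap A, cl (2 - lam A) * aa A, cl (4 - lam A) * bb A))
      (g := fun z : ℝ × ℝ × ℝ => arc z.1 z.2.1 z.2.2) continuous_arc.continuousAt
      (hk.prodMk ((hc2.mul ha).prodMk (hc4.mul hb)))
  have h2 : ContinuousAt (fun A => aff (tip A) (cl (lam A - 2)) (hull A)) A :=
    ContinuousAt.comp (f := fun A => (tip A, cl (lam A - 2), hull A))
      (g := fun z : P × ℝ × N => aff z.1 z.2.1 z.2.2) continuous_aff.continuousAt
      (htip.prodMk (hc2'.prodMk continuous_hull.continuousAt))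
  exact ContinuousAt.sup h1 h2


/-- the planar fan over `K` -/
def Fan (K : Set ℝ) : Set P := {p | ∃ κ ∈ K, ∃ x, 0 ≤ x ∧ x ≤ 1 ∧ p = (x, κ * x)}

section
variable {K : Set ℝ} (hK1 : K ⊆ Icc 0 1)

lemma fan_nonneg {p : P} (hp : p ∈ Fan K) : 0 ≤ p.1 := by
  obtain ⟨κ, hκ, x, h0, h1, rfl⟩ := hp
  exact h0

lemma fan_le_one {p : P} (hp : p ∈ Fan K) : p.1 ≤ 1 := by
  obtain ⟨κ, hκ, x, h0, h1, rfl⟩ := hp
  exact h1

lemma fan_slope {p : P} (hp : p ∈ Fan K) (h : 0 < p.1) : p.2 / p.1 ∈ K := by
  obtain ⟨κ, hκ, x, h0, h1, rfl⟩ := hp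
  simp only at h ⊢
  rwa [mul_div_cancel_right₀ _ h.ne']

lemma fan_smul {p : P} (hp : p ∈ Fan K) {s : ℝ} (h0 : 0 ≤ s) (h1 : s ≤ 1) : s • p ∈ Fan K := by
  obtain ⟨κ, hκ, x, hx0, hx1, rfl⟩ := hp
  refine ⟨κ, hκ, s * x, by positivity, by nlinarith, ?_⟩
  simp only [Prod.smul_mk, smul_eq_mul, Prod.mk.injEq, true_and]
  ring

lemma fan_zero_eq {p : P} (hp : p ∈ Fan K) (h : p.1 = 0) : p = 0 := by
  obtain ⟨κ, hκ, x, h0, h1, rfl⟩ := hp
  simp only at h
  simp [h]

lemma aa_nonneg {A : N} (hA : (A : Set P) ⊆ Fan K) : 0 ≤ aa A := by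
  obtain ⟨p, hp, h⟩ := aa_mem A
  rw [← h]
  exact fan_nonneg (hA hp)

lemma bb_le_one {A : N} (hA : (A : Set P) ⊆ Fan K) : bb A ≤ 1 := by
  obtain ⟨p, hp, h⟩ := bb_mem A
  rw [← h]
  exact fan_le_one (hA hp)

lemma kap_mem_K {A : N} (hA : (A : Set P) ⊆ Fan K) (ha : 0 < aa A) : kap A ∈ K := by
  obtain ⟨p, hp, h⟩ := kap_mem ha
  rw [← h]
  exact fan_slope (hA hp) (ha.trans_le (aa_le hp))

lemma dist_ray {κ x y : ℝ} (h0 : 0 ≤ κ) (h1 : κ ≤ 1) :
    dist ((x, κ * x) : P) (y, κ * y) = |x - y| := by
  rw [Prod.dist_eq, Real.dist_eq, Real.dist_eq]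
  simp only
  rw [← mul_sub, abs_mul, abs_of_nonneg h0]
  apply max_eq_left
  nlinarith [abs_nonneg (x - y)]

lemma arc_zero_mem {κ b x : ℝ} (h0 : 0 ≤ x) (h1 : x ≤ b) : ((x, κ * x) : P) ∈ arc κ 0 b :=
  (mem_arc (h0.trans h1) _).2 ⟨x, h0, h1, rfl⟩

/-- `hull A` is close to the full arc -/
lemma hull_near {A : N} (ha : 0 < aa A) {p : P} (hp : p ∈ hull A) :
    ∃ q ∈ arc (kap A) 0 (bb A), dist p q ≤ dist A (ref A) := by
  obtain ⟨s, h0, h1, q, hq, rfl⟩ := mem_hull.1 hp
  obtain ⟨q', hq', hd⟩ := exists_of_dist (B := ref A) hq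
  obtain ⟨x, hx0, hx1, rfl⟩ := (mem_arc (aa_le_bb A) _).1 hq'
  refine ⟨s • (x, kap A * x), ?_, ?_⟩
  · have : s • ((x, kap A * x) : P) = (s * x, kap A * (s * x)) := by
      simp only [Prod.smul_mk, smul_eq_mul, Prod.mk.injEq, true_and]
      ring
    rw [this]
    apply arc_zero_mem
    · have : 0 < x := ha.trans_le hx0
      positivity
    · have : 0 < x := ha.trans_le hx0
      nlinarith
  · rw [dist_smul₀, Real.norm_eq_abs, abs_of_nonneg h0]
    have := dist_nonneg (x := q) (y := ((x, kap A * x) : P))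
    nlinarith

lemma near_hull {A : N} (ha : 0 < aa A) {p : P} (hp : p ∈ arc (kap A) 0 (bb A)) :
    ∃ q ∈ hull A, dist p q ≤ dist A (ref A) := by
  have hb : 0 < bb A := ha.trans_le (aa_le_bb A)
  obtain ⟨x, hx0, hx1, rfl⟩ := (mem_arc hb.le _).1 hp
  have hmem : ((bb A, kap A * bb A) : P) ∈ ref A :=
    (mem_arc (aa_le_bb A) _).2 ⟨bb A, aa_le_bb A, le_rfl, rfl⟩
  obtain ⟨q', hq', hd⟩ := exists_of_dist (B := A) hmem
  have h0 : 0 ≤ x / bb A := by positivity
  have h1 : x / bb A ≤ 1 := by rw [div_le_one hb]; exact hx1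
  refine ⟨(x / bb A) • q', mem_hull.2 ⟨_, h0, h1, q', hq', rfl⟩, ?_⟩
  have : ((x, kap A * x) : P) = (x / bb A) • ((bb A, kap A * bb A) : P) := by
    simp only [Prod.smul_mk, smul_eq_mul, Prod.mk.injEq]
    constructor <;> field_simp
  rw [this, dist_smul₀, Real.norm_eq_abs, abs_of_nonneg h0]
  rw [dist_comm (ref A) A] at hd
  have := dist_nonneg (x := ((bb A, kap A * bb A) : P)) (y := q')
  nlinarith

lemma lam_nonneg {A : N} (ha : 0 < aa A) : 0 ≤ lam A := by
  unfold lam; positivity

lemma dist_ref {A : N} (ha : 0 < aa A) : dist A (ref A) = lam A * aa A := by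
  unfold lam; field_simp

include hK1 in
lemma key_bound {A : N} (hA : (A : Set P) ⊆ Fan K) (ha : 0 < aa A) :
    dist (r1 A) (hull A) ≤ 5 * aa A := by
  have hk := hK1 (kap_mem_K hA ha)
  have hab := aa_le_bb A
  have hb : 0 < bb A := ha.trans_le hab
  have hl := lam_nonneg ha
  rcases lt_or_ge (lam A) 4 with h4 | h4
  · have hd : dist A (ref A) ≤ 4 * aa A := by
      rw [dist_ref ha]; nlinarith
    apply dist_le_of (by positivity)
    · intro p hp
      rw [r1, mem_sup'] at hp
      rcases hp with hp | hp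
      · have : p ∈ arc (kap A) 0 (bb A) := by
          have hle : cl (2 - lam A) * aa A ≤ cl (4 - lam A) * bb A := by
            rcases le_or_gt (lam A) 2 with h | h
            · rw [cl_of_one_le (x := 4 - lam A) (by linarith)]
              nlinarith [cl_le_one (2 - lam A), cl_nonneg (2 - lam A)]
            · rw [cl_of_nonpos (x := 2 - lam A) (by linarith)]
              nlinarith [cl_nonneg (4 - lam A)]
          obtain ⟨x, hx0, hx1, rfl⟩ := (mem_arc hle _).1 hp
          apply arc_zero_mem
          · have := cl_nonneg (2 - lam A)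
            nlinarith
          · have := cl_le_one (4 - lam A)
            nlinarith
        obtain ⟨q, hq, hq'⟩ := near_hull ha this
        exact ⟨q, hq, by linarith⟩
      · obtain ⟨q, hq, rfl⟩ := mem_aff.1 hp
        rcases le_or_gt (lam A) 2 with h | h
        · rw [cl_of_nonpos (x := lam A - 2) (by linarith), zero_smul, add_zero]
          have : tip A ∈ arc (kap A) 0 (bb A) := by
            apply arc_zero_mem
            · have := cl_nonneg (2 - lam A)
              positivity
            · nlinarith [cl_le_one (2 - lam A), cl_nonneg (2 - lam A)]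
          obtain ⟨q, hq, hq'⟩ := near_hull ha this
          exact ⟨q, hq, by linarith⟩
        · have : tip A = 0 := by
            unfold tip
            rw [cl_of_nonpos (x := 2 - lam A) (by linarith)]
            simp
          rw [this, zero_add]
          obtain ⟨s, h0, h1, q', hq', rfl⟩ := mem_hull.1 hq
          refine ⟨cl (lam A - 2) • s • q', ?_, ?_⟩
          · rw [smul_smul]
            have := cl_nonneg (lam A - 2)
            have := cl_le_one (lam A - 2)
            exact mem_hull.2 ⟨_, by positivity, by nlinarith, q', hq', rfl⟩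
          · rw [dist_self]; positivity
    · intro q hq
      obtain ⟨q', hq', hqd⟩ := hull_near ha hq
      rcases le_or_gt (lam A) 2 with h | h
      · -- the arc starts at α
        obtain ⟨x, hx0, hx1, rfl⟩ := (mem_arc hb.le _).1 hq'
        set α := cl (2 - lam A) * aa A with hα
        have hα0 : 0 ≤ α := by have := cl_nonneg (2 - lam A); positivity
        have hα1 : α ≤ aa A := by
          have := cl_le_one (2 - lam A); nlinarith
        refine ⟨(max x α, kap A * max x α), ?_, ?_⟩
        · rw [r1, mem_sup']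
          left
          rw [cl_of_one_le (x := 4 - lam A) (by linarith), one_mul]
          exact (mem_arc (by linarith) _).2 ⟨_, le_max_right _ _, max_le hx1 (by linarith), rfl⟩
        · refine (dist_triangle _ ((x, kap A * x) : P) _).trans ?_
          rw [dist_ray hk.1 hk.2]
          have : |x - max x α| ≤ aa A := by
            rw [abs_le]
            constructor
            · rcases max_cases x α with h' | h' <;> linarith
            · linarith [le_max_left x α]
          linarith
      · rcases le_or_gt (lam A) 3 with h3 | h3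
        · refine ⟨q', ?_, by linarith⟩
          rw [r1, mem_sup']
          left
          rw [cl_of_one_le (x := 4 - lam A) (by linarith), one_mul,
            cl_of_nonpos (x := 2 - lam A) (by linarith), zero_mul]
          exact hq'
        · refine ⟨q, ?_, by rw [dist_self]; positivity⟩
          rw [r1, mem_sup']
          right
          rw [cl_of_one_le (x := lam A - 2) (by linarith)]
          have : tip A = 0 := by
            unfold tip
            rw [cl_of_nonpos (x := 2 - lam A) (by linarith)]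
            simp
          rw [this]
          exact mem_aff.2 ⟨q, hq, by simp⟩
  · -- `lam ≥ 4`
    have : r1 A = hull A := by
      have htip : tip A = 0 := by
        unfold tip
        rw [cl_of_nonpos (x := 2 - lam A) (by linarith)]
        simp
      unfold r1
      rw [cl_of_nonpos (x := 4 - lam A) (by linarith), cl_of_nonpos (x := 2 - lam A) (by linarith),
        cl_of_one_le (x := lam A - 2) (by linarith), htip]
      ext p
      simp only [NonemptyCompacts.coe_sup, mem_union, SetLike.mem_coe]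
      constructor
      · rintro (hp | hp)
        · obtain ⟨x, hx0, hx1, rfl⟩ := (mem_arc (by simp) _).1 hp
          obtain ⟨q, hq⟩ := A.nonempty
          have : x = 0 := by linarith
          subst this
          exact mem_hull.2 ⟨0, le_rfl, zero_le_one, q, hq, by ext <;> simp⟩
        · obtain ⟨q, hq, rfl⟩ := mem_aff.1 hp
          simpa using hq
      · intro hp
        right
        exact mem_aff.2 ⟨p, hp, by simp⟩
    rw [this, dist_self]
    positivity

include hK1 in
/-- continuity of the retraction on subsets of the fan -/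
theorem continuousOn_ret : ContinuousOn ret {A : N | (A : Set P) ⊆ Fan K} := by
  intro A hA
  have ha := aa_nonneg hA
  rcases ha.lt_or_eq with ha | ha
  · -- away from the vertex
    apply ContinuousAt.continuousWithinAt
    apply (continuousAt_r1 ha).congr
    have : ∀ᶠ B in 𝓝 A, 0 < aa B := continuous_aa.continuousAt.eventually_const_lt ha
    filter_upwards [this] with B hB
    rw [ret, if_pos hB]
  · -- at the vertex
    have hret : ret A = hull A := by rw [ret, if_neg (by rw [← ha]; exact lt_irrefl _)]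
    rw [ContinuousWithinAt, hret, tendsto_iff_dist_tendsto_zero]
    have hlim : Tendsto (fun B => 5 * aa B + dist (hull B) (hull A))
        (𝓝[{A : N | (A : Set P) ⊆ Fan K}] A) (𝓝 0) := by
      have h : Continuous (fun B => 5 * aa B + dist (hull B) (hull A)) :=
        (continuous_const.mul continuous_aa).add (continuous_hull.dist continuous_const)
      have := h.continuousWithinAt (s := {A : N | (A : Set P) ⊆ Fan K}) (x := A)
      rw [ContinuousWithinAt] at this
      simpa [← ha] using this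
    refine squeeze_zero' (Eventually.of_forall fun _ => dist_nonneg) ?_ hlim
    filter_upwards [self_mem_nhdsWithin] with B hB
    have hBn := aa_nonneg hB
    by_cases hB0 : 0 < aa B
    · rw [ret, if_pos hB0]
      refine (dist_triangle _ (hull B) _).trans ?_
      have := key_bound hK1 hB hB0
      linarith
    · rw [ret, if_neg hB0]
      linarith


/-! ### values of the retraction are subcontinua of the fan -/

lemma arc_connected (κ α β : ℝ) : IsConnected (arc κ α β : Set P) := by
  rw [arc, NonemptyCompacts.coe_map, coe_I01]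
  exact (isConnected_Icc zero_le_one).image _ (by fun_prop)

lemma hull_connected (A : N) : IsConnected (hull A : Set P) := by
  refine ⟨(hull A).nonempty, ?_⟩
  apply isPreconnected_of_forall (0 : P)
  intro p hp
  obtain ⟨s, h0, h1, q, hq, rfl⟩ := mem_hull.1 hp
  refine ⟨(fun t : ℝ => t • q) '' Icc 0 1, ?_, ⟨0, by simp, by simp⟩, ⟨s, ⟨h0, h1⟩, rfl⟩,
    isPreconnected_Icc.image _ (by fun_prop)⟩
  rintro _ ⟨t, ht, rfl⟩
  exact mem_hull.2 ⟨t, ht.1, ht.2, q, hq, rfl⟩

lemma aff_connected {A : N} (hA : IsConnected (A : Set P)) (T : P) (c : ℝ) :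
    IsConnected (aff T c A : Set P) := by
  rw [aff, NonemptyCompacts.coe_map]
  exact hA.image _ (by fun_prop)

lemma zero_mem_hull (A : N) : (0 : P) ∈ hull A := by
  obtain ⟨q, hq⟩ := A.nonempty
  exact mem_hull.2 ⟨0, le_rfl, zero_le_one, q, hq, by simp⟩

lemma r1_le {A : N} (ha : 0 < aa A) : cl (2 - lam A) * aa A ≤ cl (4 - lam A) * bb A := by
  have hab := aa_le_bb A
  have hb : 0 < bb A := ha.trans_le hab
  rcases le_or_gt (lam A) 2 with h | h
  · rw [cl_of_one_le (x := 4 - lam A) (by linarith)]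
    nlinarith [cl_le_one (2 - lam A), cl_nonneg (2 - lam A)]
  · rw [cl_of_nonpos (x := 2 - lam A) (by linarith)]
    nlinarith [cl_nonneg (4 - lam A)]

lemma r1_connected {A : N} (ha : 0 < aa A) : IsConnected (r1 A : Set P) := by
  rw [r1, NonemptyCompacts.coe_sup]
  refine IsConnected.union ?_ (arc_connected _ _ _) (aff_connected (hull_connected A) _ _)
  refine ⟨tip A, ?_, ?_⟩
  · exact (mem_arc (r1_le ha) _).2 ⟨_, le_rfl, r1_le ha, rfl⟩
  · exact mem_aff.2 ⟨0, zero_mem_hull A, by simp⟩

lemma ret_connected (A : N) : IsConnected (ret A : Set P) := by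
  rw [ret]
  split_ifs with h
  · exact r1_connected h
  · exact hull_connected A

lemma hull_fan {A : N} (hA : (A : Set P) ⊆ Fan K) : (hull A : Set P) ⊆ Fan K := by
  intro p hp
  obtain ⟨s, h0, h1, q, hq, rfl⟩ := mem_hull.1 hp
  exact fan_smul (hA hq) h0 h1

lemma arc_fan {A : N} (hA : (A : Set P) ⊆ Fan K) (ha : 0 < aa A) {x : ℝ} (h0 : 0 ≤ x)
    (h1 : x ≤ bb A) : ((x, kap A * x) : P) ∈ Fan K :=
  ⟨_, kap_mem_K hA ha, x, h0, h1.trans (bb_le_one hA), rfl⟩

lemma r1_fan {A : N} (hA : (A : Set P) ⊆ Fan K) (ha : 0 < aa A) : (r1 A : Set P) ⊆ Fan K := by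
  intro p hp
  have hab := aa_le_bb A
  have hb : 0 < bb A := ha.trans_le hab
  rw [SetLike.mem_coe, r1, mem_sup'] at hp
  rcases hp with hp | hp
  · obtain ⟨x, hx0, hx1, rfl⟩ := (mem_arc (r1_le ha) _).1 hp
    apply arc_fan hA ha
    · have := cl_nonneg (2 - lam A)
      nlinarith
    · have := cl_le_one (4 - lam A)
      nlinarith
  · obtain ⟨q, hq, rfl⟩ := mem_aff.1 hp
    rcases le_or_gt (lam A) 2 with h | h
    · rw [cl_of_nonpos (x := lam A - 2) (by linarith), zero_smul, add_zero]
      apply arc_fan hA ha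
      · have := cl_nonneg (2 - lam A)
        positivity
      · nlinarith [cl_le_one (2 - lam A), cl_nonneg (2 - lam A)]
    · have : tip A = 0 := by
        unfold tip
        rw [cl_of_nonpos (x := 2 - lam A) (by linarith)]
        simp
      rw [this, zero_add]
      exact fan_smul (hull_fan hA hq) (cl_nonneg _) (cl_le_one _)

lemma ret_fan {A : N} (hA : (A : Set P) ⊆ Fan K) : (ret A : Set P) ⊆ Fan K := by
  rw [ret]
  split_ifs with h
  · exact r1_fan hA h
  · exact hull_fan hA

/-! ### the retraction fixes subcontinua -/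

variable (hK : ∀ u w : ℝ, u < w → ∃ t, u < t ∧ t < w ∧ t ∉ K)

include hK in
lemma hull_eq {A : N} (hA : (A : Set P) ⊆ Fan K) (hc : IsConnected (A : Set P))
    (h0 : (0 : P) ∈ A) : hull A = A := by
  ext p
  simp only [SetLike.mem_coe]
  constructor
  swap
  · intro hp
    exact mem_hull.2 ⟨1, zero_le_one, le_rfl, p, hp, by simp⟩
  intro hp
  obtain ⟨s, hs0, hs1, q, hq, rfl⟩ := mem_hull.1 hp
  by_contra hcon
  have hs : 0 < s := by
    rcases hs0.lt_or_eq with h | h
    · exact h
    · exfalso; apply hcon; rw [← h, zero_smul]; exact h0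
  have hs' : s < 1 := by
    rcases hs1.lt_or_eq with h | h
    · exact h
    · exfalso; apply hcon; rw [h, one_smul]; exact hq
  have hq1 : 0 < q.1 := by
    rcases (fan_nonneg (hA hq)).lt_or_eq with h | h
    · exact h
    · exfalso; apply hcon; rw [fan_zero_eq (hA hq) h.symm, smul_zero]; exact h0
  obtain ⟨κ, hκ, x, hx0, hx1, rfl⟩ := hA hq
  simp only at hq1
  have hsx : 0 < s * x := by positivity
  -- a neighbourhood of `s • q` missing `A`
  have hnhds : (A : Set P)ᶜ ∈ 𝓝 (s • ((x, κ * x) : P)) :=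
    A.isCompact.isClosed.isOpen_compl.mem_nhds hcon
  obtain ⟨ε, hε, hball⟩ := Metric.mem_nhds_iff.1 hnhds
  obtain ⟨t1, ht1, ht1', ht1K⟩ := hK (κ - ε / 2) κ (by linarith)
  obtain ⟨t2, ht2, ht2', ht2K⟩ := hK κ (κ + ε / 2) (by linarith)
  -- two open sets
  let U : Set P := {z | s * x < z.1} ∩ ({z | t1 * z.1 < z.2} ∩ {z | z.2 < t2 * z.1})
  let V : Set P := {z | z.1 < s * x} ∪ {z | z.2 < t1 * z.1} ∪ {z | t2 * z.1 < z.2}
  have hU : IsOpen U := by
    apply IsOpen.inter (isOpen_lt (by fun_prop) (by fun_prop))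
    exact IsOpen.inter (isOpen_lt (by fun_prop) (by fun_prop)) (isOpen_lt (by fun_prop) (by fun_prop))
  have hV : IsOpen V := by
    apply IsOpen.union
    · exact IsOpen.union (isOpen_lt (by fun_prop) (by fun_prop)) (isOpen_lt (by fun_prop) (by fun_prop))
    · exact isOpen_lt (by fun_prop) (by fun_prop)
  have hcov : (A : Set P) ⊆ U ∪ V := by
    intro z hz
    by_cases h1 : z.1 < s * x
    · right; left; left; exact h1
    by_cases h2 : z.2 < t1 * z.1
    · right; left; right; exact h2
    by_cases h3 : t2 * z.1 < z.2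
    · right; right; exact h3
    left
    push Not at h1 h2 h3
    have hz1 : 0 < z.1 := by linarith
    have hzK := fan_slope (hA hz) hz1
    have h2' : t1 * z.1 < z.2 := by
      refine lt_of_le_of_ne h2 ?_
      intro h
      apply ht1K
      rw [← h, mul_div_cancel_right₀ _ hz1.ne'] at hzK
      exact hzK
    have h3' : z.2 < t2 * z.1 := by
      refine lt_of_le_of_ne h3 ?_
      intro h
      apply ht2K
      rw [h, mul_div_cancel_right₀ _ hz1.ne'] at hzK
      exact hzK
    refine ⟨lt_of_le_of_ne h1 ?_, h2', h3'⟩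
    intro h
    have : z ∈ ball (s • ((x, κ * x) : P)) ε := by
      rw [mem_ball, Prod.dist_eq]
      apply max_lt
      · simp only [Prod.smul_mk, smul_eq_mul]
        rw [← h, dist_self]; exact hε
      · simp only [Prod.smul_mk, smul_eq_mul]
        rw [Real.dist_eq, abs_lt]
        have hz1' : z.1 ≤ 1 := fan_le_one (hA hz)
        have e1 : s * (κ * x) = κ * z.1 := by rw [← h]; ring
        rw [e1]
        constructor
        · nlinarith
        · nlinarith
    exact hball this hz
  obtain ⟨z, hz, hzU, hzV⟩ := hc.isPreconnected U V hU hV hcov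
    ⟨_, hq, by
      refine ⟨?_, ?_, ?_⟩
      · show s * x < x; nlinarith
      · show t1 * x < κ * x; nlinarith
      · show κ * x < t2 * x; nlinarith⟩
    ⟨0, h0, by left; left; exact hsx⟩
  obtain ⟨h1, h2, h3⟩ := hzU
  rcases hzV with (h | h) | h
  · exact lt_asymm (show s * x < z.1 from h1) (show z.1 < s * x from h)
  · exact lt_asymm (show t1 * z.1 < z.2 from h2) (show z.2 < t1 * z.1 from h)
  · exact lt_asymm (show z.2 < t2 * z.1 from h3) (show t2 * z.1 < z.2 from h)

include hK in
lemma eq_ref {A : N} (hA : (A : Set P) ⊆ Fan K) (hc : IsConnected (A : Set P))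
    (ha : 0 < aa A) : A = ref A := by
  have hpos : ∀ z ∈ A, 0 < z.1 := fun z hz => ha.trans_le (aa_le hz)
  obtain ⟨p, hp, hpk⟩ := kap_mem ha
  have hsl : ∀ z ∈ A, z.2 = kap A * z.1 := by
    intro z hz
    have key : ∀ z w, z ∈ A → w ∈ A → z.2 / z.1 < w.2 / w.1 → False := by
      intro z w hz hw hlt
      obtain ⟨t, ht1, ht2, htK⟩ := hK _ _ hlt
      obtain ⟨y, hy, hy1, hy2⟩ := hc.isPreconnected {y : P | y.2 < t * y.1} {y : P | t * y.1 < y.2}
        (isOpen_lt (by fun_prop) (by fun_prop)) (isOpen_lt (by fun_prop) (by fun_prop))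
        (by
          intro y hy
          rcases lt_trichotomy y.2 (t * y.1) with h | h | h
          · left; exact h
          · exfalso
            apply htK
            have := fan_slope (hA hy) (hpos y hy)
            rwa [h, mul_div_cancel_right₀ _ (hpos y hy).ne'] at this
          · right; exact h)
        ⟨z, hz, by
          show z.2 < t * z.1
          rwa [div_lt_iff₀ (hpos z hz)] at ht1⟩
        ⟨w, hw, by
          show t * w.1 < w.2
          rwa [lt_div_iff₀ (hpos w hw)] at ht2⟩
      exact lt_asymm (show y.2 < t * y.1 from hy1) (show t * y.1 < y.2 from hy2)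
    have : z.2 / z.1 = kap A := by
      rw [← hpk]
      rcases lt_trichotomy (z.2 / z.1) (p.2 / p.1) with h | h | h
      · exact (key z p hz hp h).elim
      · exact h
      · exact (key p z hp hz h).elim
    rw [← this, div_mul_cancel₀ _ (hpos z hz).ne']
  ext z
  simp only [SetLike.mem_coe]
  constructor
  · intro hz
    exact (mem_arc (aa_le_bb A) _).2 ⟨z.1, aa_le hz, le_bb hz, by rw [← hsl z hz]⟩
  · intro hz
    obtain ⟨x, hx0, hx1, rfl⟩ := (mem_arc (aa_le_bb A) _).1 hz
    obtain ⟨p1, hp1, hp1'⟩ := aa_mem A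
    obtain ⟨p2, hp2, hp2'⟩ := bb_mem A
    have himg : IsPreconnected (Prod.fst '' (A : Set P)) := hc.isPreconnected.image _ (by fun_prop)
    have : x ∈ Prod.fst '' (A : Set P) := by
      apply himg.Icc_subset ⟨p1, hp1, rfl⟩ ⟨p2, hp2, rfl⟩
      rw [hp1', hp2']
      exact ⟨hx0, hx1⟩
    obtain ⟨w, hw, rfl⟩ := this
    rw [← hsl w hw]
    exact hw

include hK in
theorem ret_eq {A : N} (hA : (A : Set P) ⊆ Fan K) (hc : IsConnected (A : Set P)) :
    ret A = A := by
  have ha := aa_nonneg hA
  rcases ha.lt_or_eq with ha | ha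
  · rw [ret, if_pos ha]
    have hr := eq_ref hK hA hc ha
    have hl : lam A = 0 := by
      unfold lam
      rw [← hr, dist_self, zero_div]
    have e1 : cl (2 - lam A) = 1 := cl_of_one_le (by rw [hl]; norm_num)
    have e2 : cl (4 - lam A) = 1 := cl_of_one_le (by rw [hl]; norm_num)
    have e3 : cl (lam A - 2) = 0 := cl_of_nonpos (by rw [hl]; norm_num)
    have htip : tip A = (aa A, kap A * aa A) := by
      unfold tip; rw [e1, one_mul]
    unfold r1
    rw [e1, e2, e3, htip, one_mul, one_mul]
    change ref A ⊔ _ = A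
    rw [← hr]
    ext z
    simp only [SetLike.mem_coe, mem_sup']
    constructor
    · rintro (h | h)
      · exact h
      · obtain ⟨q, hq, rfl⟩ := mem_aff.1 h
        rw [zero_smul, add_zero, hr]
        exact (mem_arc (aa_le_bb A) _).2 ⟨_, le_rfl, aa_le_bb A, by rw [← hr]⟩
    · intro h; left; exact h
  · rw [ret, if_neg (by rw [← ha]; exact lt_irrefl _)]
    obtain ⟨p, hp, h⟩ := aa_mem A
    rw [← ha] at h
    have := fan_zero_eq (hA hp) h
    rw [this] at hp
    exact hull_eq hK hA hc hp

end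

end Helper874.Retr
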