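import Pool.Agent.H874R2.Retr

/-!
Transfer of the retraction to spaces embedded onto a planar fan, and cones.
-/

namespace Helper874.Retr

open Set TopologicalSpace Metric Filter Topology

universe u

/-- `C(M)` is a retract of `2^M`: there is a continuous self-map `r` of the hyperspace of nonempty
compact sets (Vietoris topology) with values in the connected sets, fixing each connected set. -/
def HyperRetract (M : Type u) [TopologicalSpace M] : Prop :=
  ∃ r : NonemptyCompacts M → NonemptyCompacts M, Continuous r ∧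
    (∀ A, IsConnected (r A : Set M)) ∧
    ∀ A : NonemptyCompacts M, IsConnected (A : Set M) → r A = A

theorem transfer {K : Set ℝ} (hK1 : K ⊆ Icc 0 1)
    (hK : ∀ u w : ℝ, u < w → ∃ t, u < t ∧ t < w ∧ t ∉ K)
    {M : Type u} [TopologicalSpace M] (φ : M → P) (hφ : IsEmbedding φ) (hr : range φ = Fan K) :
    HyperRetract M := by
  have hsub : ∀ A : NonemptyCompacts M, ((A.map φ hφ.continuous : N) : Set P) ⊆ Fan K := by
    intro A
    rw [NonemptyCompacts.coe_map, ← hr]
    exact image_subset_range _ _
  have hex : ∀ A : NonemptyCompacts M, ∃ B : NonemptyCompacts M,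
      B.map φ hφ.continuous = ret (A.map φ hφ.continuous) := by
    intro A
    have h1 := ret_fan (hsub A)
    have h2 : ret (A.map φ hφ.continuous) ∈ range (NonemptyCompacts.map φ hφ.continuous) := by
      rw [NonemptyCompacts.range_map hφ.isInducing]
      show _ ⊆ range φ
      rw [hr]; exact h1
    obtain ⟨B, hB⟩ := h2
    exact ⟨B, hB⟩
  choose r hr' using hex
  refine ⟨r, ?_, ?_, ?_⟩
  · have hemb := hφ.nonemptyCompacts_map
    rw [hemb.continuous_iff]
    have : NonemptyCompacts.map φ hφ.continuous ∘ r =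
        fun A => ret (A.map φ hφ.continuous) := by
      funext A; exact hr' A
    rw [this]
    exact (continuousOn_ret hK1).comp_continuous hφ.continuous.nonemptyCompacts_map hsub
  · intro A
    have h1 := ret_connected (A.map φ hφ.continuous)
    rw [← hr' A, NonemptyCompacts.coe_map] at h1
    refine ⟨(r A).nonempty, ?_⟩
    exact hφ.isInducing.isPreconnected_image.1 h1.isPreconnected
  · intro A hA
    apply NonemptyCompacts.map_injective hφ.continuous hφ.injective
    rw [hr' A]
    apply ret_eq hK (hsub A)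
    rw [NonemptyCompacts.coe_map]
    exact hA.image _ hφ.continuous.continuousOn

/-- the relation collapsing `Z × {1}` to a point -/
def coneSetoid (Z : Type u) : Setoid (Z × unitInterval) where
  r p q := p = q ∨ (p.2 = 1 ∧ q.2 = 1)
  iseqv := by
    refine ⟨fun p => Or.inl rfl, ?_, ?_⟩
    · rintro p q (h | h)
      · exact Or.inl h.symm
      · exact Or.inr ⟨h.2, h.1⟩
    · rintro p q r (h | h) (h' | h')
      · exact Or.inl (h.trans h')
      · subst h; exact Or.inr h'
      · subst h'; exact Or.inr h
      · exact Or.inr ⟨h.1, h'.2⟩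

/-- the cone `Z × [0,1] / (Z × {1})`, with the quotient topology -/
def Cone (Z : Type u) [TopologicalSpace Z] : Type u := Quotient (coneSetoid Z)

instance (Z : Type u) [TopologicalSpace Z] : TopologicalSpace (Cone Z) :=
  inferInstanceAs (TopologicalSpace (Quotient (coneSetoid Z)))

instance (Z : Type u) [TopologicalSpace Z] [CompactSpace Z] : CompactSpace (Cone Z) :=
  inferInstanceAs (CompactSpace (Quotient (coneSetoid Z)))

/-- map of the cone to the plane -/
noncomputable def coneMap {Z : Type u} [TopologicalSpace Z] (κ : Z → ℝ) : Cone Z → P :=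
  Quotient.lift (fun p : Z × unitInterval => ((1 - (p.2 : ℝ), κ p.1 * (1 - (p.2 : ℝ))) : P)) (by
    rintro p q (h | h)
    · rw [h]
    · simp [h.1, h.2])

section
variable {Z : Type u} [TopologicalSpace Z] [CompactSpace Z] {κ : Z → ℝ} (hκ : Continuous κ)
  (hinj : Function.Injective κ)

include hκ in
lemma coneMap_continuous : Continuous (coneMap κ) := by
  apply Continuous.quotient_lift
  fun_prop

include hinj in
lemma coneMap_injective : Function.Injective (coneMap κ) := by
  intro x y
  induction x using Quotient.inductionOn with | _ p => ?_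
  induction y using Quotient.inductionOn with | _ q => ?_
  intro h
  apply Quotient.sound
  have h' : ((1 - (p.2 : ℝ), κ p.1 * (1 - (p.2 : ℝ))) : P) =
    ((1 - (q.2 : ℝ), κ q.1 * (1 - (q.2 : ℝ))) : P) := h
  rw [Prod.mk.injEq] at h'
  obtain ⟨h1, h2⟩ := h'
  have h3 : (p.2 : ℝ) = q.2 := by linarith
  have h4 : p.2 = q.2 := Subtype.ext h3
  by_cases h5 : p.2 = 1
  · right; exact ⟨h5, h4 ▸ h5⟩
  · left
    have h6 : (1 : ℝ) - p.2 ≠ 0 := by
      intro h
      apply h5
      apply Subtype.ext
      show (p.2 : ℝ) = 1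
      linarith
    rw [← h1] at h2
    have h7 : κ p.1 = κ q.1 := mul_right_cancel₀ h6 h2
    exact Prod.ext (hinj h7) h4

include hκ hinj in
lemma coneMap_embedding : IsEmbedding (coneMap κ) :=
  ((coneMap_continuous hκ).isClosedEmbedding (coneMap_injective hinj)).isEmbedding

lemma coneMap_range : range (coneMap κ) = Fan (range κ) := by
  ext p
  constructor
  · rintro ⟨x, rfl⟩
    induction x using Quotient.inductionOn with | _ q => ?_
    refine ⟨κ q.1, ⟨q.1, rfl⟩, 1 - q.2, ?_, ?_, rfl⟩
    · linarith [q.2.2.2]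
    · linarith [q.2.2.1]
  · rintro ⟨_, ⟨z, rfl⟩, x, h0, h1, rfl⟩
    refine ⟨Quotient.mk _ (z, ⟨1 - x, by constructor <;> linarith⟩), ?_⟩
    show ((1 - (1 - x), κ z * (1 - (1 - x))) : P) = _
    simp

include hκ hinj in
/-- `K = κ(Z)` has empty interior -/
lemma range_empty_interior [TotallyDisconnectedSpace Z] :
    ∀ u w : ℝ, u < w → ∃ t, u < t ∧ t < w ∧ t ∉ range κ := by
  intro u w huw
  by_contra hcon
  push Not at hcon
  have hemb : IsEmbedding κ := (hκ.isClosedEmbedding hinj).isEmbedding
  have h1 : κ '' (κ ⁻¹' Ioo u w) = Ioo u w := by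
    rw [image_preimage_eq_inter_range]
    apply inter_eq_left.2
    intro t ht
    exact hcon t ht.1 ht.2
  have h2 : IsPreconnected (κ ⁻¹' Ioo u w) := by
    rw [← hemb.isInducing.isPreconnected_image, h1]
    exact isPreconnected_Ioo
  have h3 := h2.subsingleton
  have h4 : (Ioo u w).Subsingleton := by
    rw [← h1]; exact h3.image _
  have := h4 (x := (2 * u + w) / 3) ⟨by linarith, by linarith⟩ (y := (u + 2 * w) / 3)
    ⟨by linarith, by linarith⟩
  linarith

lemma cone_connected [Nonempty Z] : ConnectedSpace (Cone Z) := by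
  obtain ⟨z0⟩ := ‹Nonempty Z›
  have : PreconnectedSpace (Cone Z) := by
    constructor
    apply isPreconnected_of_forall (Quotient.mk (coneSetoid Z) (z0, 1))
    intro y _
    induction y using Quotient.inductionOn with | _ q => ?_
    refine ⟨(fun t : unitInterval => Quotient.mk (coneSetoid Z) (q.1, t)) '' univ, subset_univ _,
      ⟨1, trivial, ?_⟩, ⟨q.2, trivial, rfl⟩, isPreconnected_univ.image _ ?_⟩
    · exact Quotient.sound (Or.inr ⟨rfl, rfl⟩)
    · apply Continuous.continuousOn
      exact continuous_quotient_mk'.comp (by fun_prop)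
  exact ⟨⟨Quotient.mk (coneSetoid Z) (z0, 1)⟩⟩

/-- a cone with infinite totally disconnected base is not locally connected -/
lemma fan_sep {K : Set ℝ} (hK : ∀ u w : ℝ, u < w → ∃ t, u < t ∧ t < w ∧ t ∉ K)
    {S : Set P} (hS : S ⊆ Fan K) (hc : IsPreconnected S) (hpos : ∀ z ∈ S, 0 < z.1)
    {z w : P} (hz : z ∈ S) (hw : w ∈ S) : z.2 / z.1 = w.2 / w.1 := by
  have key : ∀ z w, z ∈ S → w ∈ S → z.2 / z.1 < w.2 / w.1 → False := by
    intro z w hz hw hlt
    obtain ⟨t, ht1, ht2, htK⟩ := hK _ _ hlt
    obtain ⟨y, hy, hy1, hy2⟩ := hc {y : P | y.2 < t * y.1} {y : P | t * y.1 < y.2}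
      (isOpen_lt (by fun_prop) (by fun_prop)) (isOpen_lt (by fun_prop) (by fun_prop))
      (by
        intro y hy
        rcases lt_trichotomy y.2 (t * y.1) with h | h | h
        · left; exact h
        · exfalso
          apply htK
          have := fan_slope (hS hy) (hpos y hy)
          rwa [h, mul_div_cancel_right₀ _ (hpos y hy).ne'] at this
        · right; exact h)
      ⟨z, hz, by
        show z.2 < t * z.1
        rwa [div_lt_iff₀ (hpos z hz)] at ht1⟩
      ⟨w, hw, by
        show t * w.1 < w.2
        rwa [lt_div_iff₀ (hpos w hw)] at ht2⟩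
    exact lt_asymm (show y.2 < t * y.1 from hy1) (show t * y.1 < y.2 from hy2)
  rcases lt_trichotomy (z.2 / z.1) (w.2 / w.1) with h | h | h
  · exact (key z w hz hw h).elim
  · exact h
  · exact (key w z hw hz h).elim

include hκ hinj in
lemma cone_not_locallyConnected [TotallyDisconnectedSpace Z] [Infinite Z] :
    ¬ LocallyConnectedSpace (Cone Z) := by
  intro hlc
  have hK := range_empty_interior hκ hinj
  -- an accumulation point of `Z`
  obtain ⟨z0, -, hz0⟩ := (infinite_univ (α := Z)).exists_accPt_of_subset_isCompact isCompact_univ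
    (subset_univ _)
  -- open set of points away from the vertex
  set φ := coneMap κ with hφ
  have hφc : Continuous φ := coneMap_continuous hκ
  let U : Set (Cone Z) := {x | 0 < (φ x).1}
  have hU : IsOpen U := isOpen_lt continuous_const (by fun_prop)
  let q : Z → Cone Z := fun z => Quotient.mk (coneSetoid Z) (z, 0)
  have hq : Continuous q := continuous_quotient_mk'.comp (by fun_prop)
  have hφq : ∀ z, φ (q z) = (1, κ z) := by
    intro z
    show ((1 - ((0 : unitInterval) : ℝ), κ z * (1 - ((0 : unitInterval) : ℝ))) : P) = _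
    simp
  have hz0U : q z0 ∈ U := by
    show 0 < (φ (q z0)).1
    rw [hφq]; norm_num
  obtain ⟨V, hVU, hV, hzV, hVc⟩ :=
    locallyConnectedSpace_iff_subsets_isOpen_isConnected.1 hlc (q z0) U (hU.mem_nhds hz0U)
  have hpre : q ⁻¹' V ∈ 𝓝 z0 := (hV.preimage hq).mem_nhds hzV
  obtain ⟨z1, hz1, hne⟩ : ∃ z1 ∈ q ⁻¹' V, z1 ≠ z0 := by
    obtain ⟨y, hy, hy'⟩ := accPt_iff_nhds.1 hz0 _ hpre
    exact ⟨y, hy.1, hy'⟩
  have := fan_sep hK (S := φ '' V) (by
      rw [← coneMap_range]; exact image_subset_range _ _) (hVc.isPreconnected.image _ hφc.continuousOn)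
    (by rintro _ ⟨x, hx, rfl⟩; exact hVU hx) ⟨_, hzV, rfl⟩ ⟨_, hz1, rfl⟩
  rw [hφq, hφq] at this
  simp only [div_one] at this
  exact hne (hinj this).symm

end

end Helper874.Retr
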