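import Pool.Agent.H874R2.Retr2

/-!
Compact metrizable totally disconnected spaces embed into `[0,1]`; conclusions for cones.
-/

namespace Helper874.Retr

open Set TopologicalSpace Metric Filter Topology

universe u

lemma exists_embedding (Z : Type u) [TopologicalSpace Z] [CompactSpace Z] [MetrizableSpace Z]
    [TotallyDisconnectedSpace Z] :
    ∃ κ : Z → ℝ, Continuous κ ∧ Function.Injective κ ∧ range κ ⊆ Icc 0 1 := by
  classical
  have hsc : SecondCountableTopology Z := by
    let _ := metrizableSpaceMetric Z
    infer_instance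
  have hcount : Countable (Clopens Z) :=
    TopologicalSpace.Clopens.countable_iff_secondCountable.2 hsc
  obtain ⟨c, hc⟩ := exists_surjective_nat (Clopens Z)
  let f : Z → ℕ → Bool := fun z n => decide (z ∈ c n)
  have hf : ∀ z, Summable (Cardinal.cantorFunctionAux (1 / 3) (f z)) := fun z =>
    Cardinal.summable_cantor_function _ (by norm_num) (by norm_num)
  have hle : ∀ z n, Cardinal.cantorFunctionAux (1 / 3) (f z) n ≤ (1 / 3 : ℝ) ^ n := by
    intro z n
    cases h : f z n
    · rw [Cardinal.cantorFunctionAux_false h]; positivity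
    · rw [Cardinal.cantorFunctionAux_true h]
  have hnn : ∀ z n, 0 ≤ Cardinal.cantorFunctionAux (1 / 3) (f z) n := fun z n =>
    Cardinal.cantorFunctionAux_nonneg (by norm_num)
  have hgeo : Summable (fun n : ℕ => (1 / 3 : ℝ) ^ n) :=
    summable_geometric_of_lt_one (by norm_num) (by norm_num)
  have hcont : Continuous (fun z => Cardinal.cantorFunction (1 / 3) (f z)) := by
    unfold Cardinal.cantorFunction
    refine continuous_tsum (u := fun n : ℕ => (1 / 3 : ℝ) ^ n) ?_ hgeo ?_
    · intro n
      have : (fun z => Cardinal.cantorFunctionAux (1 / 3) (f z) n) =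
          (c n : Set Z).indicator (fun _ => (1 / 3 : ℝ) ^ n) := by
        funext z
        by_cases h : z ∈ c n
        · rw [indicator_of_mem (SetLike.mem_coe.2 h)]
          exact Cardinal.cantorFunctionAux_true (by simp [f, h])
        · rw [indicator_of_notMem (fun h' => h (SetLike.mem_coe.1 h'))]
          exact Cardinal.cantorFunctionAux_false (by simp [f, h])
      rw [this]
      exact (continuous_const).indicator (by
        intro a ha
        rw [(c n).isClopen.frontier_eq] at ha
        exact absurd ha (notMem_empty _))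
    · intro n z
      rw [Real.norm_eq_abs, abs_of_nonneg (hnn z n)]
      exact hle z n
  refine ⟨fun z => (2 / 3) * Cardinal.cantorFunction (1 / 3) (f z), by fun_prop, ?_, ?_⟩
  · intro z w hzw
    have h1 : Cardinal.cantorFunction (1 / 3) (f z) = Cardinal.cantorFunction (1 / 3) (f w) := by
      simp only at hzw; linarith
    have h2 := Cardinal.cantorFunction_injective (by norm_num) (by norm_num) h1
    by_contra hne
    have : TotallySeparatedSpace Z := loc_compact_t2_tot_disc_iff_tot_sep.1 inferInstance
    obtain ⟨U, hU, hz, hw⟩ := exists_isClopen_of_totally_separated hne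
    obtain ⟨n, hn⟩ := hc ⟨U, hU⟩
    have h3 := congrFun h2 n
    have hz' : z ∈ c n := by rw [hn]; exact hz
    have hw' : w ∉ c n := by rw [hn]; exact hw
    simp [f, hz', hw'] at h3
  · rintro _ ⟨z, rfl⟩
    have h0 : 0 ≤ Cardinal.cantorFunction (1 / 3) (f z) := tsum_nonneg (hnn z)
    have h1 : Cardinal.cantorFunction (1 / 3) (f z) ≤ 3 / 2 := by
      have := (hf z).tsum_le_tsum (hle z) hgeo
      rw [tsum_geometric_of_lt_one (by norm_num) (by norm_num)] at this
      unfold Cardinal.cantorFunction
      refine this.trans ?_
      norm_num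
    constructor
    · simp only; linarith
    · simp only; linarith

theorem cone_hyperRetract (Z : Type u) [TopologicalSpace Z] [CompactSpace Z] [MetrizableSpace Z]
    [TotallyDisconnectedSpace Z] : HyperRetract (Cone Z) := by
  obtain ⟨κ, h1, h2, h3⟩ := exists_embedding Z
  exact transfer h3 (range_empty_interior h1 h2) (coneMap κ) (coneMap_embedding h1 h2) coneMap_range

theorem cone_metrizable (Z : Type u) [TopologicalSpace Z] [CompactSpace Z] [MetrizableSpace Z]
    [TotallyDisconnectedSpace Z] : MetrizableSpace (Cone Z) := by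
  obtain ⟨κ, h1, h2, h3⟩ := exists_embedding Z
  exact (coneMap_embedding h1 h2).metrizableSpace

theorem cone_not_lc (Z : Type u) [TopologicalSpace Z] [CompactSpace Z] [MetrizableSpace Z]
    [TotallyDisconnectedSpace Z] [Infinite Z] : ¬ LocallyConnectedSpace (Cone Z) := by
  obtain ⟨κ, h1, h2, h3⟩ := exists_embedding Z
  exact cone_not_locallyConnected h1 h2

/-- a space with exactly one limit point is infinite -/
lemma infinite_of_one_limit {Z : Type u} [TopologicalSpace Z] [T1Space Z]
    (h : ∃! z : Z, AccPt z (𝓟 univ)) : Infinite Z := by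
  obtain ⟨z, hz, -⟩ := h
  by_contra hfin
  rw [not_infinite_iff_finite] at hfin
  have : DiscreteTopology Z := Finite.instDiscreteTopology
  obtain ⟨y, hy, hne⟩ := accPt_iff_nhds.1 hz {z} (by simp [nhds_discrete])
  exact hne hy.1

/-- a T1 space with exactly one limit point is totally disconnected -/
lemma totallyDisconnected_of_one_limit {Z : Type u} [TopologicalSpace Z] [T1Space Z]
    (h : ∃! z : Z, AccPt z (𝓟 univ)) : TotallyDisconnectedSpace Z := by
  obtain ⟨z, hz, huniq⟩ := h
  have hopen : ∀ x : Z, x ≠ z → IsOpen ({x} : Set Z) := by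
    intro x hx
    have : ¬ AccPt x (𝓟 univ) := fun h => hx (huniq x h)
    rw [accPt_iff_nhds] at this
    push Not at this
    obtain ⟨U, hU, hU'⟩ := this
    have : U = {x} := by
      apply Subset.antisymm
      · intro y hy; exact hU' y ⟨hy, trivial⟩
      · intro y hy; rw [mem_singleton_iff.1 hy]; exact mem_of_mem_nhds hU
    rw [this] at hU
    rw [isOpen_singleton_iff_nhds_eq_pure]
    exact le_antisymm (by rw [← Filter.principal_singleton]; exact le_principal_iff.2 hU)
      (pure_le_nhds x)
  constructor
  intro S _ hS x hx y hy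
  by_contra hne
  have key : ∀ x y : Z, x ∈ S → y ∈ S → x ≠ y → x ≠ z → False := by
    intro x y hx hy hne hxz
    have hclop : IsClopen ({x} : Set Z) := ⟨isClosed_singleton, hopen x hxz⟩
    have := hS.subset_isClopen hclop ⟨x, hx, rfl⟩
    exact hne (this hy).symm
  by_cases hxz : x = z
  · have hyz : y ≠ z := fun h => hne (hxz.trans h.symm)
    exact key y x hy hx (fun h => hne h.symm) hyz
  · exact key x y hx hy hne hxz

end Helper874.Retr
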