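import Mathlib

/-!
# Tools: systems of distinct representatives, and many ultrafilters

* `sdr`: a family of sets indexed by `ι`, each of cardinality at least `#ι`, has an injective
  choice function.
* `mk_np`: there are at least `2 ^ 2 ^ ℵ₀` nonprincipal ultrafilters on `ℕ`.
-/

namespace H874R2.WD

open Set Cardinal Filter Topology

/-- A family of `κ` sets each of size at least `κ` has an injective choice function. -/
theorem sdr {ι α : Type} (U : ι → Set α) (h : ∀ i, #ι ≤ #(U i)) :
    ∃ g : ι → α, Function.Injective g ∧ ∀ i, g i ∈ U i := by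
  classical
  obtain ⟨r, wo, hr⟩ := Cardinal.exists_ord_eq ι
  have wf : WellFounded r := wo.wf
  have step : ∀ (x : ι) (f : (y : ι) → r y x → α), ∃ a, a ∈ U x ∧ ∀ y (hy : r y x), f y hy ≠ a := by
    intro x f
    by_contra hcon
    push Not at hcon
    have hsub : U x ⊆ Set.range (fun y : {y // r y x} => f y.1 y.2) := by
      intro a ha
      obtain ⟨y, hy, e⟩ := hcon a ha
      exact ⟨⟨y, hy⟩, e⟩
    have h1 : #(U x) ≤ #{y // r y x} := (mk_le_mk_of_subset hsub).trans mk_range_le
    have h2 : #{y // r y x} < #ι := by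
      rw [← Ordinal.card_typein (r := r) x]
      exact Cardinal.card_typein_lt x hr
    exact absurd ((h x).trans h1) (not_le.mpr h2)
  let F : (x : ι) → ((y : ι) → r y x → α) → α := fun x f => Classical.choose (step x f)
  let g : ι → α := wf.fix F
  have hg : ∀ x, g x = F x (fun y _ => g y) := fun x => wf.fix_eq F x
  have hg1 : ∀ x, g x ∈ U x := by
    intro x
    rw [hg x]
    exact (Classical.choose_spec (step x _)).1
  have hg2 : ∀ x y, r y x → g y ≠ g x := by
    intro x y hy
    have := (Classical.choose_spec (step x (fun y _ => g y))).2 y hy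
    rw [hg x]
    exact this
  refine ⟨g, ?_, hg1⟩
  intro x y e
  rcases (Std.Trichotomous.rel_or_eq_or_rel_swap (r := r) (a := x) (b := y)) with h | h | h
  · exact absurd e (hg2 y x h)
  · exact h
  · exact absurd e.symm (hg2 x y h)

/-- Codes of clopen subsets of the Cantor space. -/
abbrev E0 : Type := Σ n : ℕ, ((Fin n → Bool) → Bool)

/-- Finite-level evaluations on the Cantor space. -/
def ev (e : E0) (x : ℕ → Bool) : Bool := e.2 (fun i => x i)

theorem sep_fin (I : Finset (ℕ → Bool)) :
    ∃ n : ℕ, ∀ x ∈ I, ∀ y ∈ I, (∀ i < n, x i = y i) → x = y := by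
  classical
  have h1 : ∀ q : (ℕ → Bool) × (ℕ → Bool), ∃ m : ℕ, q.1 ≠ q.2 → q.1 m ≠ q.2 m := by
    intro q
    by_cases h : q.1 = q.2
    · exact ⟨0, fun h' => absurd h h'⟩
    · obtain ⟨m, hm⟩ := Function.ne_iff.mp h
      exact ⟨m, fun _ => hm⟩
  choose m hm using h1
  refine ⟨((I ×ˢ I).sup m) + 1, fun x hx y hy hxy => ?_⟩
  by_contra hne
  have h2 := hm (x, y) hne
  apply h2
  apply hxy
  have : m (x, y) ≤ (I ×ˢ I).sup m := Finset.le_sup (Finset.mk_mem_product hx hy)
  exact Nat.lt_succ_of_le this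

theorem dense_ev : DenseRange ev := by
  classical
  intro F
  rw [mem_closure_iff]
  intro U hU hF
  obtain ⟨I, u, hu, hsub⟩ := isOpen_pi_iff.mp hU F hF
  obtain ⟨n, hn⟩ := sep_fin I
  let g : (Fin n → Bool) → Bool := fun s =>
    if h : ∃ x ∈ I, (fun i : Fin n => x i) = s then F (Classical.choose h) else false
  refine ⟨ev ⟨n, g⟩, hsub ?_, ⟨⟨n, g⟩, rfl⟩⟩
  intro x hx
  have hex : ∃ y ∈ I, (fun i : Fin n => y i) = (fun i : Fin n => x i) := ⟨x, hx, rfl⟩
  have h3 : ev ⟨n, g⟩ x = F x := by
    have h4 : ev ⟨n, g⟩ x = F (Classical.choose hex) := by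
      change g (fun i => x i) = _
      simp only [g]
      rw [dif_pos hex]
    rw [h4]
    have h5 := Classical.choose_spec hex
    congr 1
    apply hn _ h5.1 x hx
    intro i hi
    have := congrFun h5.2 ⟨i, hi⟩
    exact this
  rw [h3]
  exact (hu x hx).2

/-- Nonprincipal ultrafilters on `ℕ`. -/
def NP : Type := {v : Ultrafilter ℕ // (v : Filter ℕ) ≤ cofinite}

theorem mk_np : #((ℕ → Bool) → Bool) ≤ #NP := by
  classical
  have hne : ∀ F : (ℕ → Bool) → Bool,
      ((atTop : Filter ℕ) ×ˢ comap ev (𝓝 F)).NeBot := by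
    intro F
    have h1 : (comap ev (𝓝 F)).NeBot := by
      refine Filter.comap_neBot fun t ht => ?_
      obtain ⟨y, hy, e, he⟩ := mem_closure_iff_nhds.mp (dense_ev F) t ht
      exact ⟨e, by rw [he]; exact hy⟩
    exact Filter.NeBot.prod inferInstance h1
  let enc : ℕ × E0 → ℕ := Encodable.encode
  have henc : Function.Injective enc := Encodable.encode_injective
  let w : ((ℕ → Bool) → Bool) → Ultrafilter (ℕ × E0) :=
    fun F => @Ultrafilter.of _ ((atTop : Filter ℕ) ×ˢ comap ev (𝓝 F)) (hne F)
  have hw : ∀ F, (w F : Filter _) ≤ (atTop : Filter ℕ) ×ˢ comap ev (𝓝 F) := fun F =>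
    @Ultrafilter.of_le _ _ (hne F)
  have hcof : ∀ F, (w F : Filter (ℕ × E0)) ≤ cofinite := by
    intro F s hs
    have h1 : Tendsto (fun q : ℕ × E0 => q.1) (w F : Filter (ℕ × E0)) (atTop : Filter ℕ) :=
      Tendsto.mono_left tendsto_fst (hw F)
    rw [← Nat.cofinite_eq_atTop] at h1
    have h2 : (Prod.fst '' sᶜ : Set ℕ)ᶜ ∈ (cofinite : Filter ℕ) := by
      rw [mem_cofinite, compl_compl]
      exact (mem_cofinite.mp hs).image _
    have h3 := h1 h2
    refine mem_of_superset h3 ?_
    intro x hx
    by_contra hxs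
    exact hx ⟨x, hxs, rfl⟩
  let k : ((ℕ → Bool) → Bool) → NP := fun F => ⟨(w F).map enc, by
    intro s hs
    have : enc ⁻¹' s ∈ (cofinite : Filter _) := henc.tendsto_cofinite hs
    exact hcof F this⟩
  have hk : Function.Injective k := by
    intro F F' e
    have e1 : (w F).map enc = (w F').map enc := congrArg Subtype.val e
    have e2 : (w F : Filter (ℕ × E0)) = (w F' : Filter (ℕ × E0)) := by
      have := congrArg (fun u : Ultrafilter ℕ => (u : Filter ℕ)) e1
      simp only [Ultrafilter.coe_map] at this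
      exact Filter.map_injective henc this
    have t1 : Tendsto (fun q : ℕ × E0 => ev q.2)
        (w F : Filter _) (𝓝 F) := by
      have h1 : Tendsto (Prod.snd) (w F : Filter (ℕ × E0))
        (comap ev (𝓝 F)) := tendsto_snd.mono_left (hw F)
      exact tendsto_comap.comp h1
    have t2 : Tendsto (fun q : ℕ × E0 => ev q.2)
        (w F : Filter _) (𝓝 F') := by
      rw [e2]
      have h1 : Tendsto (Prod.snd) (w F' : Filter (ℕ × E0))
        (comap ev (𝓝 F')) := tendsto_snd.mono_left (hw F')
      exact tendsto_comap.comp h1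
    exact tendsto_nhds_unique t1 t2
  exact mk_le_of_injective hk

end H874R2.WD
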