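import Pool.Agent.H874R2.WDa

/-!
# A thin family of ultrafilters on the Cantor space

`T` is a set of nonprincipal ultrafilters on the (discrete) set `ℕ → Bool` such that

* every `q ∈ T` converges to a point `z`, contains a relatively discrete countable set, and does
  not contain `{z}`;
* every injective sequence of points of `ℕ → Bool` and every sequence in `T` clusters in `T`.
-/

namespace H874R2.WD

open Set Cardinal Filter Topology

/-- The Cantor set. -/
abbrev Z : Type := ℕ → Bool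

/-- Ultrafilters on the Cantor set containing a countable set. -/
def UZ : Type := {p : Ultrafilter Z // ∃ C ∈ p, C.Countable}

/-- The cardinal `2 ^ 2 ^ ℵ₀`. -/
noncomputable def kap : Cardinal.{0} := 2 ^ ((2 : Cardinal.{0}) ^ ℵ₀)

theorem mk_ZB : #((ℕ → Bool) → Bool) = kap := by
  simp [kap]

theorem kap_pow : kap ^ ℵ₀ = kap := by
  unfold kap
  rw [← Cardinal.power_mul, Cardinal.mul_aleph0_eq]
  exact (Cardinal.cantor _).le

theorem aleph0_le_kap : ℵ₀ ≤ kap := by
  unfold kap
  exact (Cardinal.cantor _).le.trans (Cardinal.cantor _).le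

theorem kap_mul : kap * kap = kap := Cardinal.mul_eq_self aleph0_le_kap

theorem mk_ult : #(Ultrafilter ℕ) ≤ kap := by
  have h : Function.Injective (fun u : Ultrafilter ℕ => {s : Set ℕ | s ∈ u}) := by
    intro u v e
    ext s
    have := Set.ext_iff.mp e s
    exact this
  have := mk_le_of_injective h
  refine this.trans ?_
  simp [kap]

theorem mk_UZ : #UZ ≤ kap := by
  classical
  have h1 : ∀ p : UZ, ∃ (f : ℕ → Z) (g : Z → ℕ), (p.1.map g).map f = p.1 := by
    intro p
    obtain ⟨C, hC, hcount⟩ := p.2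
    have hne : C.Nonempty := p.1.nonempty_of_mem hC
    obtain ⟨f, hf⟩ := hcount.exists_eq_range hne
    have hg : ∀ y : Z, ∃ n : ℕ, y ∈ C → f n = y := by
      intro y
      by_cases hy : y ∈ C
      · rw [hf] at hy
        obtain ⟨n, hn⟩ := hy
        exact ⟨n, fun _ => hn⟩
      · exact ⟨0, fun h => absurd h hy⟩
    choose g hg using hg
    refine ⟨f, g, ?_⟩
    rw [Ultrafilter.map_map]
    apply Ultrafilter.coe_injective
    rw [Ultrafilter.coe_map]
    have : (f ∘ g) =ᶠ[(p.1 : Filter Z)] id := by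
      filter_upwards [hC] with y hy using hg y hy
    rw [Filter.map_congr this, Filter.map_id]
  choose f g hfg using h1
  have hinj : Function.Injective (fun p : UZ => (f p, p.1.map (g p))) := by
    intro p q e
    simp only [Prod.mk.injEq] at e
    apply Subtype.ext
    rw [← hfg p, ← hfg q, e.2, e.1]
  refine (mk_le_of_injective hinj).trans ?_
  have h2 : #(ℕ → Z) ≤ kap := by
    have : #(ℕ → Z) = 2 ^ ℵ₀ := by
      simp
    rw [this]
    unfold kap
    exact (Cardinal.cantor _).le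
  calc #((ℕ → Z) × Ultrafilter ℕ) = #(ℕ → Z) * #(Ultrafilter ℕ) := by simp
    _ ≤ kap * kap := mul_le_mul' h2 mk_ult
    _ = kap := kap_mul

theorem mk_req : #(Z × (ℕ → UZ)) ≤ kap := by
  have h2 : #Z ≤ kap := by
    have : #Z = 2 ^ ℵ₀ := by simp
    rw [this]
    unfold kap
    exact (Cardinal.cantor _).le
  have h3 : #(ℕ → UZ) ≤ kap := by
    have : #(ℕ → UZ) = #UZ ^ ℵ₀ := by simp
    rw [this]
    calc #UZ ^ ℵ₀ ≤ kap ^ ℵ₀ := Cardinal.power_le_power_right mk_UZ
      _ = kap := kap_pow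
  calc #(Z × (ℕ → UZ)) = #Z * #(ℕ → UZ) := by simp
    _ ≤ kap * kap := mul_le_mul' h2 h3
    _ = kap := kap_mul

/-- Points agreeing with `z` on the first `n` coordinates. -/
def Cyl (z : Z) (n : ℕ) : Set Z := {y | ∀ i < n, y i = z i}

/-- `y` first differs from `z` at the coordinate `d`. -/
def Dv (z y : Z) (d : ℕ) : Prop := y ∈ Cyl z d ∧ y d ≠ z d

theorem Dv.unique {z y : Z} {d e : ℕ} (h : Dv z y d) (h' : Dv z y e) : d = e := by
  rcases lt_trichotomy d e with hlt | heq | hgt
  · exact absurd (h'.1 d hlt) h.2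
  · exact heq
  · exact absurd (h.1 e hgt) h'.2

theorem exists_Dv {z y : Z} {n : ℕ} (h : y ∉ Cyl z n) : ∃ d < n, Dv z y d := by
  classical
  have hex : ∃ d, y d ≠ z d ∧ d < n := by
    by_contra hcon
    push Not at hcon
    apply h
    intro i hi
    by_contra hne
    exact absurd hi (not_lt.mpr (hcon i hne))
  refine ⟨Nat.find hex, (Nat.find_spec hex).2, ?_, (Nat.find_spec hex).1⟩
  intro i hi
  by_contra hne
  exact Nat.find_min hex hi ⟨hne, hi.trans (Nat.find_spec hex).2⟩

theorem exists_Dv' {z y : Z} (h : y ≠ z) : ∃ d, Dv z y d := by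
  obtain ⟨i, hi⟩ := Function.ne_iff.mp h
  have : y ∉ Cyl z (i + 1) := fun hy => hi (hy i (Nat.lt_succ_self i))
  obtain ⟨d, _, hd⟩ := exists_Dv this
  exact ⟨d, hd⟩

theorem Dv.le {z y : Z} {d n : ℕ} (h : Dv z y d) (hy : y ∈ Cyl z n) : n ≤ d := by
  by_contra hlt
  exact h.2 (hy d (not_le.mp hlt))

theorem Dv.ne {z y : Z} {d : ℕ} (h : Dv z y d) : y ≠ z := fun e => h.2 (by rw [e])

theorem Cyl_self (z : Z) (n : ℕ) : z ∈ Cyl z n := fun _ _ => rfl

theorem Cyl_mono (z : Z) {m n : ℕ} (h : m ≤ n) : Cyl z n ⊆ Cyl z m :=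
  fun _ hy i hi => hy i (hi.trans_le h)

theorem Cyl_comm {z y : Z} {n : ℕ} (h : y ∈ Cyl z n) : z ∈ Cyl y n := fun i hi => (h i hi).symm

theorem Cyl_trans {x y z : Z} {n : ℕ} (h : y ∈ Cyl z n) (h' : x ∈ Cyl y n) : x ∈ Cyl z n :=
  fun i hi => (h' i hi).trans (h i hi)

/-- Points close to `y` diverge from `z` where `y` does. -/
theorem Dv.of_Cyl {z y x : Z} {d : ℕ} (h : Dv z y d) (hx : x ∈ Cyl y (d + 1)) : Dv z x d := by
  refine ⟨fun i hi => ?_, ?_⟩
  · rw [hx i (hi.trans (Nat.lt_succ_self d))]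
    exact h.1 i hi
  · rw [hx d (Nat.lt_succ_self d)]
    exact h.2

/-- The points diverging from `z` in a direction in `A`. -/
def Dir (z : Z) (A : Set ℕ) : Set Z := {y | ∃ d ∈ A, Dv z y d}

/-- The direction in which `y` diverges from `z`. -/
noncomputable def dl (z y : Z) : ℕ := by
  classical
  exact if h : ∃ d, Dv z y d then Classical.choose h else 0

theorem dl_eq {z y : Z} {d : ℕ} (h : Dv z y d) : dl z y = d := by
  classical
  have hex : ∃ d, Dv z y d := ⟨d, h⟩
  unfold dl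
  rw [dif_pos hex]
  exact (Classical.choose_spec hex).unique h

/-- Relatively discrete sets. -/
def RD (R : Set Z) : Prop := ∀ y ∈ R, ∃ n, ∀ x ∈ R, x ∈ Cyl y n → x = y

/-- Admissible requests. -/
def Req (z : Z) (p : ℕ → Ultrafilter Z) : Prop :=
  ∃ A : ℕ → Set ℕ, (∀ k l, ∀ d, d ∈ A k → d ∈ A l → k = l) ∧ ∀ k, Dir z (A k) ∈ p k

theorem mem_bind {α β : Type} {v : Ultrafilter α} {p : α → Ultrafilter β} {s : Set β} :
    s ∈ v.bind p ↔ {k | s ∈ p k} ∈ v := Iff.rfl

theorem bind_map_inj {z : Z} {p : ℕ → Ultrafilter Z} (h : Req z p) :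
    Function.Injective (fun v : Ultrafilter ℕ => (v.bind p).map (dl z)) := by
  obtain ⟨A, hA, hp⟩ := h
  intro v v' e
  ext B
  have key : ∀ w : Ultrafilter ℕ,
      ((⋃ k ∈ B, A k) ∈ (w.bind p).map (dl z) ↔ B ∈ w) := by
    intro w
    rw [Ultrafilter.mem_map, mem_bind]
    have hset : {k | dl z ⁻¹' (⋃ k ∈ B, A k) ∈ p k} = B := by
      ext k
      constructor
      · intro hk
        obtain ⟨y, hy1, hy2⟩ := (p k).nonempty_of_mem (inter_mem (f := (p k : Filter Z)) hk (hp k))
        obtain ⟨d, hd, hdv⟩ := hy2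
        have hy1' : dl z y ∈ ⋃ k ∈ B, A k := hy1
        rw [dl_eq hdv] at hy1'
        simp only [mem_iUnion] at hy1'
        obtain ⟨l, hl, hdl⟩ := hy1'
        have : l = k := hA l k d hdl hd
        rw [← this]
        exact hl
      · intro hk
        refine mem_of_superset (hp k) ?_
        rintro y ⟨d, hd, hdv⟩
        change dl z y ∈ ⋃ k ∈ B, A k
        rw [dl_eq hdv]
        simp only [mem_iUnion]
        exact ⟨k, hk, hd⟩
    rw [hset]
  have e' : (v.bind p).map (dl z) = (v'.bind p).map (dl z) := e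
  rw [← key v, ← key v', e']

/-- Admissible requests, as a type. -/
def RQ : Type := {r : Z × (ℕ → UZ) // Req r.1 (fun k => (r.2 k).1)}

/-- The sequence of ultrafilters of a request. -/
def RQ.seq (r : RQ) : ℕ → Ultrafilter Z := fun k => (r.1.2 k).1

/-- The target of a request. -/
def RQ.base (r : RQ) : Z := r.1.1

theorem exists_v : ∃ v : RQ → Ultrafilter ℕ, (∀ r, (v r : Filter ℕ) ≤ cofinite) ∧
    Function.Injective (fun r : RQ => ((v r).bind r.seq).map (dl r.base)) := by
  classical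
  have h1 : ∀ r : RQ, #RQ ≤ #(range (fun v : NP => (v.1.bind r.seq).map (dl r.base))) := by
    intro r
    have hinj : Function.Injective (fun v : NP => (v.1.bind r.seq).map (dl r.base)) := by
      intro v v' e
      exact Subtype.ext (bind_map_inj r.2 e)
    rw [mk_range_eq _ hinj]
    calc #RQ ≤ #(Z × (ℕ → UZ)) := mk_subtype_le _
      _ ≤ kap := mk_req
      _ = #((ℕ → Bool) → Bool) := mk_ZB.symm
      _ ≤ #NP := mk_np
  obtain ⟨g, hg, hgU⟩ := sdr (fun r : RQ => range (fun v : NP => (v.1.bind r.seq).map (dl r.base))) h1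
  choose v hv using hgU
  refine ⟨fun r => (v r).1, fun r => (v r).2, ?_⟩
  intro r r' e
  apply hg
  rw [← hv r, ← hv r']
  exact e

/-- The index ultrafilter of a request. -/
noncomputable def vv : RQ → Ultrafilter ℕ := Classical.choose exists_v

theorem vv_le (r : RQ) : (vv r : Filter ℕ) ≤ cofinite := (Classical.choose_spec exists_v).1 r

/-- The answer to a request. -/
noncomputable def out (r : RQ) : Ultrafilter Z := (vv r).bind r.seq

theorem out_inj : Function.Injective (fun r : RQ => (out r).map (dl r.base)) :=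
  (Classical.choose_spec exists_v).2

/-- Ultrafilters generated from the principal ones by answering requests. -/
inductive G : Ultrafilter Z → Prop
  | pure (z : Z) : G (pure z)
  | out (r : RQ) (h : ∀ k, G (r.seq k)) : G (out r)

/-- The answers. -/
def T : Set (Ultrafilter Z) := {q | ∃ r : RQ, (∀ k, G (r.seq k)) ∧ q = out r}

theorem T_G {q : Ultrafilter Z} (h : q ∈ T) : G q := by
  obtain ⟨r, hr, rfl⟩ := h
  exact G.out r hr

theorem out_cyl (r : RQ) (n : ℕ) : Cyl r.base n ∈ out r := by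
  obtain ⟨A, hA, hp⟩ := r.2
  have hfin : {k | Cyl r.base n ∉ r.seq k}.Finite := by
    have h1 : ∀ k ∈ {k | Cyl r.base n ∉ r.seq k}, ∃ d < n, d ∈ A k := by
      intro k hk
      have h2 : (Cyl r.base n)ᶜ ∈ r.seq k := Ultrafilter.compl_mem_iff_notMem.mpr hk
      obtain ⟨y, hy1, hy2⟩ := (r.seq k).nonempty_of_mem
        (inter_mem (f := (r.seq k : Filter Z)) h2 (hp k))
      obtain ⟨d, hd, hdv⟩ := exists_Dv hy1
      obtain ⟨e, he, hev⟩ := hy2
      rw [hdv.unique hev] at hd
      exact ⟨e, hd, he⟩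
    choose! f hf using h1
    refine Set.Finite.of_finite_image (f := f) ((Set.finite_lt_nat n).subset ?_) ?_
    · rintro _ ⟨k, hk, rfl⟩
      exact (hf k hk).1
    · intro k hk l hl e
      have h3 := (hf k hk).2
      have h4 := (hf l hl).2
      rw [e] at h3
      exact hA k l _ h3 h4
  have h5 : {k | Cyl r.base n ∈ r.seq k} ∈ (vv r : Filter ℕ) := by
    apply vv_le r
    rw [mem_cofinite]
    exact hfin
  exact h5

theorem out_ne (r : RQ) : {r.base}ᶜ ∈ out r := by
  obtain ⟨A, hA, hp⟩ := r.2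
  have h5 : {k | ({r.base}ᶜ : Set Z) ∈ r.seq k} = Set.univ := by
    refine Set.eq_univ_of_forall fun k => ?_
    refine mem_of_superset (hp k) ?_
    rintro y ⟨d, hd, hdv⟩
    exact hdv.ne
  change {k | ({r.base}ᶜ : Set Z) ∈ r.seq k} ∈ vv r
  rw [h5]
  exact Filter.univ_mem

/-- Every generated ultrafilter contains a relatively discrete countable set. -/
theorem G_rd {q : Ultrafilter Z} (h : G q) : ∃ R ∈ q, RD R ∧ R.Countable := by
  induction h with
  | pure z =>
    refine ⟨{z}, Ultrafilter.mem_pure.mpr rfl, ?_, countable_singleton z⟩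
    intro y hy
    refine ⟨0, fun x hx _ => ?_⟩
    rw [mem_singleton_iff] at hx hy
    rw [hx, hy]
  | out r _ ih =>
    choose R hR hRD hRc using ih
    obtain ⟨A, hA, hp⟩ := r.2
    refine ⟨⋃ k, (R k ∩ Dir r.base (A k)), ?_, ?_, ?_⟩
    · have h5 : {k | (⋃ k, (R k ∩ Dir r.base (A k))) ∈ r.seq k} = Set.univ := by
        refine Set.eq_univ_of_forall fun k => ?_
        exact mem_of_superset (inter_mem (f := (r.seq k : Filter Z)) (hR k) (hp k))
          (subset_iUnion (fun k => R k ∩ Dir r.base (A k)) k)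
      change {k | (⋃ k, (R k ∩ Dir r.base (A k))) ∈ r.seq k} ∈ vv r
      rw [h5]
      exact Filter.univ_mem
    · intro y hy
      rw [mem_iUnion] at hy
      obtain ⟨k, hyR, d, hd, hdv⟩ := hy
      obtain ⟨n, hn⟩ := hRD k y hyR
      refine ⟨max n (d + 1), fun x hx hxy => ?_⟩
      rw [mem_iUnion] at hx
      obtain ⟨l, hxR, e, he, hev⟩ := hx
      have h1 : Dv r.base x d := hdv.of_Cyl (Cyl_mono y (le_max_right _ _) hxy)
      have h2 : e = d := hev.unique h1
      subst h2
      have h3 : l = k := hA l k e he hd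
      subst h3
      exact hn x hxR (Cyl_mono y (le_max_left _ _) hxy)
    · exact countable_iUnion fun k => (hRc k).mono inter_subset_left

theorem G_base {q : Ultrafilter Z} (h : G q) : ∃ z, ∀ n, Cyl z n ∈ q := by
  cases h with
  | pure z => exact ⟨z, fun n => Ultrafilter.mem_pure.mpr (Cyl_self z n)⟩
  | out r _ => exact ⟨r.base, fun n => out_cyl r n⟩

theorem base_unique {q : Ultrafilter Z} {z z' : Z} (h : ∀ n, Cyl z n ∈ q)
    (h' : ∀ n, Cyl z' n ∈ q) : z = z' := by
  funext i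
  obtain ⟨y, hy, hy'⟩ := q.nonempty_of_mem (inter_mem (f := (q : Filter Z)) (h (i + 1)) (h' (i + 1)))
  rw [← hy i (Nat.lt_succ_self i), ← hy' i (Nat.lt_succ_self i)]

theorem T_base {q : Ultrafilter Z} (h : q ∈ T) : ∃ z, (∀ n, Cyl z n ∈ q) ∧ {z}ᶜ ∈ q := by
  obtain ⟨r, _, rfl⟩ := h
  exact ⟨r.base, fun n => out_cyl r n, out_ne r⟩

/-- A relatively discrete member of `q ∈ T` misses the limit of `q`. -/
theorem T_notMem {q : Ultrafilter Z} (h : q ∈ T) {z : Z} (hz : ∀ n, Cyl z n ∈ q) {R : Set Z}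
    (hR : R ∈ q) (hRD : RD R) : z ∉ R := by
  intro hzR
  obtain ⟨z', hz', hne⟩ := T_base h
  have : z = z' := base_unique hz hz'
  subst this
  obtain ⟨n, hn⟩ := hRD z hzR
  obtain ⟨y, ⟨hy1, hy2⟩, hy3⟩ := q.nonempty_of_mem
    (inter_mem (f := (q : Filter Z)) (inter_mem hR (hz n)) hne)
  exact hy3 (hn y hy1 hy2)

theorem T_inj {q q' : Ultrafilter Z} (h : q ∈ T) (h' : q' ∈ T) {z : Z} (hz : ∀ n, Cyl z n ∈ q)
    (hz' : ∀ n, Cyl z n ∈ q') (e : q.map (dl z) = q'.map (dl z)) : q = q' := by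
  obtain ⟨r, _, rfl⟩ := h
  obtain ⟨r', _, rfl⟩ := h'
  have h1 : z = r.base := base_unique hz (out_cyl r)
  have h2 : z = r'.base := base_unique hz' (out_cyl r')
  have : r = r' := by
    apply out_inj
    change (out r).map (dl r.base) = (out r').map (dl r'.base)
    rw [← h1, ← h2]
    exact e
  rw [this]

/-- The basic closure property of `T`. -/
theorem T_CL (z : Z) (p : ℕ → Ultrafilter Z) (hp : ∀ k, G (p k)) (hreq : Req z p) :
    ∃ q ∈ T, ∀ R ∈ q, {k | R ∈ p k}.Infinite := by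
  have h1 : ∀ k, ∃ C ∈ p k, C.Countable := fun k => by
    obtain ⟨R, hR, _, hc⟩ := G_rd (hp k)
    exact ⟨R, hR, hc⟩
  let r : RQ := ⟨(z, fun k => ⟨p k, h1 k⟩), hreq⟩
  refine ⟨out r, ⟨r, hp, rfl⟩, fun R hR => ?_⟩
  have h2 : {k | R ∈ p k} ∈ vv r := hR
  intro hfin
  have h3 : {k | R ∈ p k}ᶜ ∈ (vv r : Filter ℕ) := by
    apply vv_le r
    rw [mem_cofinite, compl_compl]
    exact hfin
  exact (Ultrafilter.compl_mem_iff_notMem.mp h3) h2

end H874R2.WD
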