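import Pool.Agent.H874R2.WDb

/-!
# Cluster points in `T`
-/

namespace H874R2.WD

open Set Filter Topology

theorem isOpen_Cyl (z : Z) (n : ℕ) : IsOpen (Cyl z n) := by
  have : Cyl z n = ⋂ i ∈ Finset.range n, {y : Z | y i = z i} := by
    ext y
    simp [Cyl]
  rw [this]
  refine isOpen_biInter_finset fun i _ => ?_
  have hc : Continuous (fun y : Z => y i) := continuous_apply i
  exact (isOpen_discrete ({z i} : Set Bool)).preimage hc

theorem exists_cluster (zs : ℕ → Z) : ∃ z, ∀ N, ∃ᶠ k in atTop, zs k ∈ Cyl z N := by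
  obtain ⟨z, hz⟩ := exists_clusterPt_of_compactSpace (map zs atTop)
  refine ⟨z, fun N => ?_⟩
  have h : MapClusterPt z atTop zs := hz
  exact h.frequently ((isOpen_Cyl z N).mem_nhds (Cyl_self z N))

theorem frequently_infinite {P : ℕ → Prop} (h : ∃ᶠ k in atTop, P k) : {k | P k}.Infinite :=
  Nat.frequently_atTop_iff_infinite.mp h

theorem clusterA (p : ℕ → Ultrafilter Z) (hG : ∀ k, G (p k)) (zs : ℕ → Z)
    (hzs : ∀ k n, Cyl (zs k) n ∈ p k) (z : Z) (h : ∀ N, ∃ k, zs k ≠ z ∧ zs k ∈ Cyl z N) :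
    ∃ q ∈ T, ∀ R ∈ q, {k | R ∈ p k}.Infinite := by
  have h1 : ∀ N, ∃ k d, N ≤ d ∧ Dv z (zs k) d := by
    intro N
    obtain ⟨k, hk, hkN⟩ := h N
    obtain ⟨d, hd⟩ := exists_Dv' hk
    exact ⟨k, d, hd.le hkN, hd⟩
  choose kk dd hdd hDv using h1
  let N : ℕ → ℕ := fun j => Nat.rec 0 (fun _ n => dd n + 1) j
  have hN : ∀ j, N (j + 1) = dd (N j) + 1 := fun j => rfl
  let φ : ℕ → ℕ := fun j => kk (N j)
  let D : ℕ → ℕ := fun j => dd (N j)
  have hD : StrictMono D := by
    refine strictMono_nat_of_lt_succ fun j => ?_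
    have h2 := hdd (N (j + 1))
    have h3 := hN j
    change dd (N j) < dd (N (j + 1))
    omega
  have hφD : ∀ j, Dv z (zs (φ j)) (D j) := fun j => hDv (N j)
  have hφ : Function.Injective φ := by
    intro i j e
    apply hD.injective
    have h4 := hφD i
    rw [e] at h4
    exact h4.unique (hφD j)
  have hreq : Req z (fun j => p (φ j)) := by
    refine ⟨fun j => {D j}, ?_, ?_⟩
    · intro k l d hk hl
      rw [mem_singleton_iff] at hk hl
      exact hD.injective (hk.symm.trans hl)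
    · intro j
      refine mem_of_superset (hzs (φ j) (D j + 1)) ?_
      intro y hy
      exact ⟨D j, rfl, (hφD j).of_Cyl hy⟩
  obtain ⟨q, hq, hR⟩ := T_CL z (fun j => p (φ j)) (fun j => hG (φ j)) hreq
  refine ⟨q, hq, fun R hRq => ?_⟩
  have h5 := (hR R hRq).image (hφ.injOn)
  refine h5.mono ?_
  rintro _ ⟨j, hj, rfl⟩
  exact hj

/-- Every sequence in `T` clusters in `T`. -/
theorem T_cc (p : ℕ → Ultrafilter Z) (hp : ∀ k, p k ∈ T) :
    ∃ q ∈ T, ∀ R ∈ q, {k | R ∈ p k}.Infinite := by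
  classical
  choose zs hzs hne using fun k => T_base (hp k)
  obtain ⟨z, hz⟩ := exists_cluster zs
  by_cases hS : {k | zs k = z}.Infinite
  swap
  · refine clusterA p (fun k => T_G (hp k)) zs hzs z fun N => ?_
    have h1 : {k | zs k ∈ Cyl z N}.Infinite := frequently_infinite (hz N)
    have h2 : {k | zs k = z}.Finite := not_infinite.mp hS
    obtain ⟨k, hk, hk'⟩ := (h1.sdiff h2).nonempty
    exact ⟨k, hk', hk⟩
  by_cases hq : ∃ k0, {k | p k = p k0}.Infinite
  · obtain ⟨k0, hk0⟩ := hq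
    refine ⟨p k0, hp k0, fun R hR => hk0.mono ?_⟩
    intro k hk
    have : p k = p k0 := hk
    change R ∈ p k
    rw [this]
    exact hR
  push Not at hq
  let f : ℕ → Ultrafilter ℕ := fun k => (p k).map (dl z)
  have hinf : (f '' {k | zs k = z}).Infinite := by
    intro hfin
    apply hS
    refine Set.Finite.of_finite_fibers f hfin ?_
    rintro _ ⟨k0, hk0, rfl⟩
    refine (hq k0).subset ?_
    rintro k ⟨hk, hk'⟩
    have h1 : zs k = z := hk
    have h2 : zs k0 = z := hk0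
    have h3 : f k = f k0 := hk'
    exact T_inj (hp k) (hp k0) (z := z) (fun n => by rw [← h1]; exact hzs k n)
      (fun n => by rw [← h2]; exact hzs k0 n) h3
  have hinf' : Infinite ↥(f '' {k | zs k = z}) := hinf.to_subtype
  obtain ⟨U, hUi, hUo, hUd⟩ := exists_seq_infinite_isOpen_pairwise_disjoint
    ↥(f '' {k | zs k = z})
  have h1 : ∀ n, ∃ k, zs k = z ∧ ∃ h : f k ∈ f '' {k | zs k = z}, (⟨f k, h⟩ : ↥(f '' {k | zs k = z})) ∈ U n := by
    intro n
    obtain ⟨⟨_, k, hk, rfl⟩, hs⟩ := (hUi n).nonempty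
    exact ⟨k, hk, ⟨k, hk, rfl⟩, hs⟩
  choose kk hkz hkm hkU using h1
  have h2 : ∀ n, ∃ B : Set ℕ, B ∈ f (kk n) ∧ ∀ m, B ∈ f (kk m) → m = n := by
    intro n
    obtain ⟨V, hV, hVU⟩ := isOpen_induced_iff.mp (hUo n)
    have h3 : f (kk n) ∈ V := by
      have h4 : (⟨f (kk n), hkm n⟩ : ↥(f '' {k | zs k = z})) ∈ Subtype.val ⁻¹' V := by
        rw [hVU]
        exact hkU n
      exact h4
    obtain ⟨W, ⟨B, rfl⟩, hBn, hBV⟩ :=
      ultrafilterBasis_is_basis.exists_subset_of_mem_open h3 hV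
    refine ⟨B, hBn, fun m hm => ?_⟩
    by_contra hmn
    have h5 : f (kk m) ∈ V := hBV hm
    have h6 : (⟨f (kk m), hkm m⟩ : ↥(f '' {k | zs k = z})) ∈ U n := by
      rw [← hVU]
      exact h5
    exact Set.disjoint_left.mp (hUd hmn) (hkU m) h6
  choose B hB hB' using h2
  let A : ℕ → Set ℕ := fun n => B n ∩ ⋂ m ∈ Finset.range n, (B m)ᶜ
  have hA : ∀ n, A n ∈ f (kk n) := by
    intro n
    refine inter_mem (f := (f (kk n) : Filter ℕ)) (hB n) ?_
    refine (Filter.biInter_finset_mem _).mpr fun m hm => ?_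
    rw [Finset.mem_range] at hm
    apply Ultrafilter.compl_mem_iff_notMem.mpr
    intro hcon
    have := hB' m n hcon
    omega
  have hAd : ∀ k l, k < l → ∀ d, d ∈ A k → d ∉ A l := by
    intro k l hkl d hk hl
    have h7 := hl.2
    simp only [mem_iInter] at h7
    exact h7 k (Finset.mem_range.mpr hkl) hk.1
  have hreq : Req z (fun n => p (kk n)) := by
    refine ⟨A, ?_, ?_⟩
    · intro k l d hk hl
      rcases lt_trichotomy k l with h | h | h
      · exact absurd hl (hAd k l h d hk)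
      · exact h
      · exact absurd hk (hAd l k h d hl)
    · intro n
      have h8 : dl z ⁻¹' (A n) ∈ p (kk n) := hA n
      have h9 : ({z}ᶜ : Set Z) ∈ p (kk n) := by
        have := hne (kk n)
        rw [hkz n] at this
        exact this
      refine mem_of_superset (inter_mem (f := (p (kk n) : Filter Z)) h8 h9) ?_
      rintro y ⟨hy1, hy2⟩
      obtain ⟨d, hd⟩ := exists_Dv' (z := z) (y := y) hy2
      refine ⟨d, ?_, hd⟩
      have h10 : dl z y ∈ A n := hy1
      rw [dl_eq hd] at h10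
      exact h10
  obtain ⟨q, hqT, hR⟩ := T_CL z (fun n => p (kk n)) (fun n => T_G (hp (kk n))) hreq
  refine ⟨q, hqT, fun R hRq => ?_⟩
  have hkinj : Function.Injective kk := by
    intro m n e
    have h11 : B n ∈ f (kk m) := by
      rw [e]
      exact hB n
    exact hB' n m h11
  have h5 := (hR R hRq).image (hkinj.injOn)
  refine h5.mono ?_
  rintro _ ⟨j, hj, rfl⟩
  exact hj

/-- Every sequence of points of the Cantor set which clusters to `z` through points other than
`z` clusters in `T`. -/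
theorem Z_cc (zs : ℕ → Z) (z : Z) (h : ∀ N, ∃ k, zs k ≠ z ∧ zs k ∈ Cyl z N) :
    ∃ q ∈ T, ∀ R ∈ q, {k | zs k ∈ R}.Infinite := by
  obtain ⟨q, hq, hR⟩ := clusterA (fun k => pure (zs k)) (fun k => G.pure (zs k)) zs
    (fun k n => Ultrafilter.mem_pure.mpr (Cyl_self (zs k) n)) z h
  refine ⟨q, hq, fun R hRq => ?_⟩
  have := hR R hRq
  simpa only [Ultrafilter.mem_pure] using this

/-- Every sequence of points of the Cantor set with finite fibres clusters in `T`. -/
theorem Z_cc' (zs : ℕ → Z) (h : ∀ z, {k | zs k = z}.Finite) :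
    ∃ q ∈ T, ∀ R ∈ q, {k | zs k ∈ R}.Infinite := by
  obtain ⟨z, hz⟩ := exists_cluster zs
  refine Z_cc zs z fun N => ?_
  obtain ⟨k, hk, hk'⟩ := ((frequently_infinite (hz N)).sdiff (h z)).nonempty
  exact ⟨k, hk', hk⟩

end H874R2.WD
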