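import Pool.Agent.H874R2.WDc

/-!
# A perfect image of a Tychonoff `wΔ`-space which is not a `wΔ`-space
-/

namespace H874R2.WD

open Set Filter Topology

/-- The star of a point with respect to a family of sets. -/
def st {X : Type} (x : X) (G : Set (Set X)) : Set X := ⋃₀ {g | g ∈ G ∧ x ∈ g}

/-- `wΔ`-spaces. -/
def IsWDelta (X : Type) [TopologicalSpace X] : Prop :=
  ∃ G : ℕ → Set (Set X), (∀ n, (∀ g ∈ G n, IsOpen g) ∧ ⋃₀ G n = univ) ∧
    ∀ (x : X) (u : ℕ → X), (∀ n, u n ∈ st x (G n)) → ∃ y, MapClusterPt y atTop u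

/-- Perfect maps: continuous closed surjections with compact fibres. -/
def IsPerfect {X Y : Type} [TopologicalSpace X] [TopologicalSpace Y] (f : X → Y) : Prop :=
  Continuous f ∧ IsClosedMap f ∧ Function.Surjective f ∧ ∀ y, IsCompact (f ⁻¹' {y})

/-- The points of the space `Y`. -/
inductive Y : Type
  | d (z : Z) (j : ℕ) : Y
  | i (z : Z) : Y
  | t (q : T) : Y

/-- Basic open sets of `Y`. -/
def N (R : Set Z) (m : ℕ) : Set Y :=
  {y | (∃ q : T, R ∈ q.1 ∧ y = Y.t q) ∨ (∃ z ∈ R, y = Y.i z) ∨ (∃ z ∈ R, ∃ j, m ≤ j ∧ y = Y.d z j)}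

theorem t_mem_N {R : Set Z} {m : ℕ} {q : T} : Y.t q ∈ N R m ↔ R ∈ q.1 := by
  constructor
  · rintro (⟨q', h, e⟩ | ⟨z, _, e⟩ | ⟨z, _, j, _, e⟩)
    · cases e
      exact h
    · cases e
    · cases e
  · intro h
    exact Or.inl ⟨q, h, rfl⟩

theorem i_mem_N {R : Set Z} {m : ℕ} {z : Z} : Y.i z ∈ N R m ↔ z ∈ R := by
  constructor
  · rintro (⟨q', h, e⟩ | ⟨z, h, e⟩ | ⟨z, _, j, _, e⟩)
    · cases e
    · cases e
      exact h
    · cases e
  · intro h
    exact Or.inr (Or.inl ⟨z, h, rfl⟩)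

theorem d_mem_N {R : Set Z} {m : ℕ} {z : Z} {j : ℕ} : Y.d z j ∈ N R m ↔ z ∈ R ∧ m ≤ j := by
  constructor
  · rintro (⟨q', h, e⟩ | ⟨z, h, e⟩ | ⟨z, h, j, hj, e⟩)
    · cases e
    · cases e
    · cases e
      exact ⟨h, hj⟩
  · intro h
    exact Or.inr (Or.inr ⟨z, h.1, j, h.2, rfl⟩)

theorem N_inter {R R' : Set Z} {m m' : ℕ} : N (R ∩ R') (max m m') ⊆ N R m ∩ N R' m' := by
  intro y hy
  cases y with
  | d z j =>
    rw [d_mem_N] at hy
    exact ⟨d_mem_N.mpr ⟨hy.1.1, (le_max_left _ _).trans hy.2⟩,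
      d_mem_N.mpr ⟨hy.1.2, (le_max_right _ _).trans hy.2⟩⟩
  | i z =>
    rw [i_mem_N] at hy
    exact ⟨i_mem_N.mpr hy.1, i_mem_N.mpr hy.2⟩
  | t q =>
    rw [t_mem_N] at hy
    exact ⟨t_mem_N.mpr (mem_of_superset hy inter_subset_left),
      t_mem_N.mpr (mem_of_superset hy inter_subset_right)⟩

instance : TopologicalSpace Y where
  IsOpen O := ∀ q : T, Y.t q ∈ O → ∃ R ∈ q.1, ∃ m, N R m ⊆ O
  isOpen_univ := fun q _ => ⟨univ, Filter.univ_mem, 0, subset_univ _⟩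
  isOpen_inter := by
    intro O O' h h' q hq
    obtain ⟨R, hR, m, hm⟩ := h q hq.1
    obtain ⟨R', hR', m', hm'⟩ := h' q hq.2
    exact ⟨R ∩ R', inter_mem hR hR', max m m', N_inter.trans (inter_subset_inter hm hm')⟩
  isOpen_sUnion := by
    intro S hS q hq
    obtain ⟨O, hO, hqO⟩ := hq
    obtain ⟨R, hR, m, hm⟩ := hS O hO q hqO
    exact ⟨R, hR, m, hm.trans (subset_sUnion_of_mem hO)⟩

theorem isOpen_iffY {O : Set Y} :
    IsOpen O ↔ ∀ q : T, Y.t q ∈ O → ∃ R ∈ q.1, ∃ m, N R m ⊆ O := Iff.rfl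

theorem isOpen_N (R : Set Z) (m : ℕ) : IsOpen (N R m) := by
  rw [isOpen_iffY]
  intro q hq
  exact ⟨R, t_mem_N.mp hq, m, subset_rfl⟩

theorem isOpen_of_no_t {O : Set Y} (h : ∀ q : T, Y.t q ∉ O) : IsOpen O := by
  rw [isOpen_iffY]
  intro q hq
  exact absurd hq (h q)

theorem compl_singleton_mem {q : Ultrafilter Z} (h : q ∈ T) (z : Z) : {z}ᶜ ∈ q := by
  obtain ⟨z', hz', hne⟩ := T_base h
  by_cases e : z = z'
  · rw [e]
    exact hne
  · obtain ⟨i, hi⟩ := Function.ne_iff.mp e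
    refine mem_of_superset (hz' (i + 1)) ?_
    intro y hy hyz
    rw [mem_singleton_iff] at hyz
    apply hi
    rw [← hyz]
    exact hy i (Nat.lt_succ_self i)

theorem isClosed_N (R : Set Z) (m : ℕ) : IsClosed (N R m) := by
  rw [← isOpen_compl_iff, isOpen_iffY]
  intro q hq
  have h1 : R ∉ q.1 := fun h => hq (t_mem_N.mpr h)
  refine ⟨Rᶜ, Ultrafilter.compl_mem_iff_notMem.mpr h1, 0, ?_⟩
  intro y hy hy'
  cases y with
  | d z j => exact (d_mem_N.mp hy).1 (d_mem_N.mp hy').1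
  | i z => exact (i_mem_N.mp hy) (i_mem_N.mp hy')
  | t q' =>
    exact (Ultrafilter.compl_mem_iff_notMem.mp (t_mem_N.mp hy)) (t_mem_N.mp hy')

theorem isClosed_d (z : Z) (j : ℕ) : IsClosed ({Y.d z j} : Set Y) := by
  rw [← isOpen_compl_iff, isOpen_iffY]
  intro q _
  refine ⟨{z}ᶜ, compl_singleton_mem q.2 z, 0, ?_⟩
  intro y hy hy'
  rw [mem_singleton_iff] at hy'
  rw [hy'] at hy
  exact (d_mem_N.mp hy).1 rfl

theorem isClosed_i (z : Z) : IsClosed ({Y.i z} : Set Y) := by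
  rw [← isOpen_compl_iff, isOpen_iffY]
  intro q _
  refine ⟨{z}ᶜ, compl_singleton_mem q.2 z, 0, ?_⟩
  intro y hy hy'
  rw [mem_singleton_iff] at hy'
  rw [hy'] at hy
  exact (i_mem_N.mp hy) rfl

theorem isOpen_d (z : Z) (j : ℕ) : IsOpen ({Y.d z j} : Set Y) :=
  isOpen_of_no_t fun q h => by cases (mem_singleton_iff.mp h)

theorem isOpen_i (z : Z) : IsOpen ({Y.i z} : Set Y) :=
  isOpen_of_no_t fun q h => by cases (mem_singleton_iff.mp h)

theorem basis_clopen : TopologicalSpace.IsTopologicalBasis {s : Set Y | IsClopen s} := by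
  refine TopologicalSpace.isTopologicalBasis_of_isOpen_of_nhds (fun s hs => hs.isOpen) ?_
  intro y O hy hO
  cases y with
  | d z j =>
    exact ⟨{Y.d z j}, ⟨isClosed_d z j, isOpen_d z j⟩, rfl, singleton_subset_iff.mpr hy⟩
  | i z =>
    exact ⟨{Y.i z}, ⟨isClosed_i z, isOpen_i z⟩, rfl, singleton_subset_iff.mpr hy⟩
  | t q =>
    obtain ⟨R, hR, m, hm⟩ := isOpen_iffY.mp hO q hy
    exact ⟨N R m, ⟨isClosed_N R m, isOpen_N R m⟩, t_mem_N.mpr hR, hm⟩

instance : T1Space Y where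
  t1 := by
    intro y
    cases y with
    | d z j => exact isClosed_d z j
    | i z => exact isClosed_i z
    | t q =>
      rw [← isOpen_compl_iff, isOpen_iffY]
      intro q' hq'
      have hne : q'.1 ≠ q.1 := by
        intro e
        apply hq'
        rw [mem_singleton_iff]
        congr 1
        exact Subtype.ext e
      obtain ⟨R, hR, hR'⟩ : ∃ R, R ∈ q'.1 ∧ R ∉ q.1 := by
        by_contra hcon
        push Not at hcon
        apply hne
        exact (Ultrafilter.eq_of_le (f := q.1) (g := q'.1) (fun s hs => hcon s hs)).symm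
      refine ⟨R, hR, 0, ?_⟩
      intro y hy hy'
      rw [mem_singleton_iff] at hy'
      rw [hy'] at hy
      exact hR' (t_mem_N.mp hy)

instance : CompletelyRegularSpace Y :=
  CompletelyRegularSpace.of_isTopologicalBasis_clopens basis_clopen

instance : T35Space Y where

theorem nhds_t {q : T} {s : Set Y} (hs : s ∈ 𝓝 (Y.t q)) : ∃ R ∈ q.1, ∃ m, N R m ⊆ s := by
  obtain ⟨O, hOs, hO, hq⟩ := mem_nhds_iff.mp hs
  obtain ⟨R, hR, m, hm⟩ := isOpen_iffY.mp hO q hq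
  exact ⟨R, hR, m, hm.trans hOs⟩

theorem mk_Z : Cardinal.mk (ℕ → Bool) = 2 ^ Cardinal.aleph0 := by simp

/-- `Y` is not a `wΔ`-space. -/
theorem not_wDelta : ¬ IsWDelta Y := by
  rintro ⟨V, hV, hw⟩
  have h1 : ∀ n (q : T), ∃ v ∈ V n, Y.t q ∈ v ∧ ∃ R ∈ q.1, ∃ m, N R m ⊆ v := by
    intro n q
    have h2 : Y.t q ∈ ⋃₀ V n := by
      rw [(hV n).2]
      exact mem_univ _
    obtain ⟨v, hv, hqv⟩ := h2
    obtain ⟨R, hR, m, hm⟩ := isOpen_iffY.mp ((hV n).1 v hv) q hqv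
    exact ⟨v, hv, hqv, R, hR, m, hm⟩
  choose v hv hqv R hR m hm using h1
  have h3 : ∀ n, ((⋃ q : T, R n q)ᶜ).Finite := by
    intro n
    by_contra hinf
    have hinf' : ((⋃ q : T, R n q)ᶜ).Infinite := hinf
    let zs : ℕ → Z := fun k => (hinf'.natEmbedding _ k : Z)
    have hzs : Function.Injective zs := fun k l e =>
      (hinf'.natEmbedding _).injective (Subtype.ext e)
    obtain ⟨q, hq, hqR⟩ := Z_cc' zs (fun z => by
      refine Set.Subsingleton.finite ?_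
      intro k hk l hl
      exact hzs (hk.trans hl.symm))
    obtain ⟨k, hk⟩ := (hqR (R n ⟨q, hq⟩) (hR n ⟨q, hq⟩)).nonempty
    have h4 : zs k ∈ (⋃ q : T, R n q)ᶜ := (hinf'.natEmbedding _ k).2
    exact h4 (mem_iUnion.mpr ⟨⟨q, hq⟩, hk⟩)
  have h5 : (⋃ n, (⋃ q : T, R n q)ᶜ).Countable := countable_iUnion fun n => (h3 n).countable
  obtain ⟨z, hz⟩ : ∃ z : Z, z ∉ ⋃ n, (⋃ q : T, R n q)ᶜ := by
    by_contra hcon
    push Not at hcon
    have h6 : (univ : Set Z).Countable := h5.mono (fun z _ => hcon z)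
    rw [countable_univ_iff] at h6
    have h10 : Cardinal.mk (ℕ → Bool) ≤ Cardinal.aleph0 := Cardinal.mk_le_aleph0_iff.mpr h6
    rw [mk_Z] at h10
    exact absurd h10 (not_le.mpr (Cardinal.cantor _))
  have h7 : ∀ n, ∃ q : T, z ∈ R n q := by
    intro n
    by_contra hcon
    apply hz
    rw [mem_iUnion]
    refine ⟨n, fun h8 => hcon ?_⟩
    exact mem_iUnion.mp h8
  choose q hq using h7
  obtain ⟨y, hy⟩ := hw (Y.i z) (fun n => Y.d z (n + m n (q n))) (fun n => by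
    refine ⟨v n (q n), ⟨hv n (q n), hm n (q n) (i_mem_N.mpr (hq n))⟩, hm n (q n) ?_⟩
    exact d_mem_N.mpr ⟨hq n, Nat.le_add_left _ _⟩)
  rw [mapClusterPt_iff_frequently] at hy
  cases y with
  | d z' j =>
    have h9 := hy {Y.d z' j} ((isOpen_d z' j).mem_nhds rfl)
    obtain ⟨n, hn, hn'⟩ := (frequently_atTop.mp h9) (j + 1)
    rw [mem_singleton_iff] at hn'
    cases hn'
    omega
  | i z' =>
    have h9 := hy {Y.i z'} ((isOpen_i z').mem_nhds rfl)
    obtain ⟨n, hn'⟩ := h9.exists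
    cases (mem_singleton_iff.mp hn')
  | t q' =>
    have h9 := hy (N {z}ᶜ 0) ((isOpen_N _ _).mem_nhds (t_mem_N.mpr (compl_singleton_mem q'.2 z)))
    obtain ⟨n, hn'⟩ := h9.exists
    exact (d_mem_N.mp hn').1 rfl

/-- The isolated points `i z`. -/
def isI : Set Y := {y | ∃ z, y = Y.i z}

/-- The isolated points `d z j`. -/
def isD : Set Y := {y | ∃ z j, y = Y.d z j}

theorem isOpen_isI : IsOpen isI := isOpen_of_no_t fun q h => by
  obtain ⟨z, e⟩ := h
  cases e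

theorem isOpen_isD : IsOpen isD := isOpen_of_no_t fun q h => by
  obtain ⟨z, j, e⟩ := h
  cases e

/-- The closed subspace of `Y × Bool` which is the topological sum of the closed subspaces
`Y ∖ isI` and `Y ∖ isD` of `Y`. -/
def XS : Set (Y × Bool) := {x | (x.2 = false → x.1 ∉ isI) ∧ (x.2 = true → x.1 ∉ isD)}

/-- The space `X`. -/
abbrev X : Type := XS

theorem isClosed_XS : IsClosed XS := by
  have h : XS = (isIᶜ ×ˢ {false}) ∪ (isDᶜ ×ˢ {true}) := by
    ext ⟨y, b⟩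
    cases b <;> simp [XS]
  rw [h]
  exact (isOpen_isI.isClosed_compl.prod (isClosed_discrete _)).union
    (isOpen_isD.isClosed_compl.prod (isClosed_discrete _))

/-- The projection. -/
def f (x : X) : Y := x.1.1

theorem f_perfect : IsPerfect f := by
  have h1 : IsClosedMap f := by
    have h2 : IsClosedMap (Prod.fst : Y × Bool → Y) := isClosedMap_fst_of_compactSpace
    exact h2.comp isClosed_XS.isClosedEmbedding_subtypeVal.isClosedMap
  refine ⟨continuous_fst.comp continuous_subtype_val, h1, ?_, ?_⟩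
  · intro y
    by_cases hy : y ∈ isI
    · refine ⟨⟨(y, true), ⟨fun h => absurd h (by simp), fun _ => ?_⟩⟩, rfl⟩
      obtain ⟨z, rfl⟩ := hy
      rintro ⟨z', j, e⟩
      cases e
    · exact ⟨⟨(y, false), ⟨fun _ => hy, fun h => absurd h (by simp)⟩⟩, rfl⟩
  · intro y
    refine Set.Finite.isCompact ?_
    refine Set.Finite.of_injOn (f := fun x : X => x.1.2) (t := Set.univ) (mapsTo_univ _ _) ?_
      Set.finite_univ
    intro x hx x' hx' e
    apply Subtype.ext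
    apply Prod.ext
    · have h3 : f x = y := hx
      have h4 : f x' = y := hx'
      exact h3.trans h4.symm
    · exact e

theorem f_two (y : Y) : (f ⁻¹' {y}).encard ≤ 2 := by
  have h : (f ⁻¹' {y}).InjOn (fun x : X => x.1.2) := by
    intro x hx x' hx' e
    apply Subtype.ext
    apply Prod.ext
    · have h3 : f x = y := hx
      have h4 : f x' = y := hx'
      exact h3.trans h4.symm
    · exact e
  calc (f ⁻¹' {y}).encard = ((fun x : X => x.1.2) '' (f ⁻¹' {y})).encard := h.encard_image.symm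
    _ ≤ (Set.univ : Set Bool).encard := Set.encard_le_encard (subset_univ _)
    _ = 2 := by
      have h5 : (Set.univ : Set Bool) = {false, true} := by
        ext b
        cases b <;> simp
      rw [h5]
      exact Set.encard_pair (by simp)

/-- Reduction of cluster points along a subsequence. -/
theorem cluster_of_subseq {W : Type} [TopologicalSpace W] {u : ℕ → W} {φ : ℕ → ℕ}
    (hφ : StrictMono φ) {x : W} (h : ∀ s ∈ 𝓝 x, {k | u (φ k) ∈ s}.Infinite) :
    MapClusterPt x atTop u := by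
  rw [mapClusterPt_iff_frequently]
  intro s hs
  rw [Nat.frequently_atTop_iff_infinite]
  refine ((h s hs).image hφ.injective.injOn).mono ?_
  rintro _ ⟨k, hk, rfl⟩
  exact hk

theorem nhds_X {x : X} {s : Set X} (hs : s ∈ 𝓝 x) :
    ∃ s' ∈ 𝓝 x.1.1, ∀ x' : X, x'.1.2 = x.1.2 → x'.1.1 ∈ s' → x' ∈ s := by
  rw [nhds_subtype, mem_comap] at hs
  obtain ⟨w, hw, hws⟩ := hs
  rw [← Prod.mk.eta (p := x.1), nhds_prod_eq, mem_prod_iff] at hw
  obtain ⟨s', hs', b, hb, hsb⟩ := hw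
  refine ⟨s', hs', fun x' h1 h2 => hws (hsb ⟨h2, ?_⟩)⟩
  rw [h1]
  exact mem_of_mem_nhds hb

/-- Clustering in a copy at a point of `T`. -/
theorem nhds_X_t {q : T} {b : Bool} (hx : (Y.t q, b) ∈ XS) {s : Set X}
    (hs : s ∈ 𝓝 (⟨(Y.t q, b), hx⟩ : X)) :
    ∃ R ∈ q.1, ∃ m, ∀ x' : X, x'.1.2 = b → x'.1.1 ∈ N R m → x' ∈ s := by
  obtain ⟨s', hs', h⟩ := nhds_X hs
  obtain ⟨R, hR, m, hm⟩ := nhds_t hs'
  exact ⟨R, hR, m, fun x' h1 h2 => h x' h1 (hm h2)⟩

theorem t_mem_XS (q : T) (b : Bool) : (Y.t q, b) ∈ XS := by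
  refine ⟨fun _ => ?_, fun _ => ?_⟩
  · rintro ⟨z, e⟩
    cases e
  · rintro ⟨z, j, e⟩
    cases e

/-- A sequence in a copy of `Y` which meets `T` infinitely often clusters. -/
theorem cluster_T (u : ℕ → X) (b : Bool) (hu : ∃ᶠ n in atTop, (u n).1.2 = b ∧ ∃ q : T, (u n).1.1 = Y.t q) :
    ∃ y, MapClusterPt y atTop u := by
  obtain ⟨φ, hφ, h⟩ := extraction_of_frequently_atTop hu
  choose hb q hq using h
  obtain ⟨p, hp, hR⟩ := T_cc (fun k => (q k).1) (fun k => (q k).2)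
  refine ⟨⟨(Y.t ⟨p, hp⟩, b), t_mem_XS _ _⟩, cluster_of_subseq hφ fun s hs => ?_⟩
  obtain ⟨R, hRp, m, hm⟩ := nhds_X_t (t_mem_XS _ _) hs
  refine (hR R hRp).mono ?_
  intro k hk
  refine hm _ (hb k) ?_
  rw [hq k]
  exact t_mem_N.mpr hk

end H874R2.WD
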