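import Pool.Agent.H874R2.WDd

/-!
# The space `X` is a `wΔ`-space
-/

namespace H874R2.WD

open Set Filter Topology

/-- The open covers witnessing that `X` is a `wΔ`-space. -/
def GX (n : ℕ) : Set (Set X) :=
  {g | (∃ R : Set Z, RD R ∧ (∃ s, R ⊆ Cyl s n) ∧ g = {x : X | x.1.2 = false ∧ x.1.1 ∈ N R n}) ∨
    (∃ z j, g = {x : X | x.1.2 = false ∧ x.1.1 = Y.d z j}) ∨ g = {x : X | x.1.2 = true}}

theorem isOpen_part (O : Set Y) (hO : IsOpen O) (b : Bool) :
    IsOpen {x : X | x.1.2 = b ∧ x.1.1 ∈ O} := by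
  have h1 : IsOpen {x : X | x.1.2 = b} := by
    have hc : Continuous (fun x : X => x.1.2) := continuous_snd.comp continuous_subtype_val
    exact (isOpen_discrete ({b} : Set Bool)).preimage hc
  have h2 : IsOpen {x : X | x.1.1 ∈ O} := by
    have hc : Continuous (fun x : X => x.1.1) := continuous_fst.comp continuous_subtype_val
    exact hO.preimage hc
  exact h1.inter h2

theorem GX_open (n : ℕ) : ∀ g ∈ GX n, IsOpen g := by
  rintro g (⟨R, _, _, rfl⟩ | ⟨z, j, rfl⟩ | rfl)
  · exact isOpen_part _ (isOpen_N R n) false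
  · exact isOpen_part _ (isOpen_d z j) false
  · have := isOpen_part univ isOpen_univ true
    simpa using this

theorem GX_cover (n : ℕ) : ⋃₀ GX n = univ := by
  refine Set.eq_univ_of_forall fun x => ?_
  obtain ⟨⟨y, b⟩, hx⟩ := x
  cases b with
  | true => exact ⟨_, Or.inr (Or.inr rfl), rfl⟩
  | false =>
    cases y with
    | d z j => exact ⟨_, Or.inr (Or.inl ⟨z, j, rfl⟩), rfl, rfl⟩
    | i z => exact absurd ⟨z, rfl⟩ (hx.1 rfl)
    | t q =>
      obtain ⟨z, hz, _⟩ := T_base q.2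
      obtain ⟨R, hR, hRD, _⟩ := G_rd (T_G q.2)
      refine ⟨_, Or.inl ⟨R ∩ Cyl z n, ?_, ⟨z, inter_subset_right⟩, rfl⟩, rfl, ?_⟩
      · intro y hy
        obtain ⟨m, hm⟩ := hRD y hy.1
        exact ⟨m, fun x hx hxy => hm x hx.1 hxy⟩
      · exact t_mem_N.mpr (inter_mem (f := (q.1 : Filter Z)) hR (hz n))

/-- Sequences in the countably compact part cluster. -/
theorem cluster_K (u : ℕ → X) (hu : ∀ n, (u n).1.2 = true) : ∃ y, MapClusterPt y atTop u := by
  by_cases h : ∃ᶠ n in atTop, (u n).1.2 = true ∧ ∃ q : T, (u n).1.1 = Y.t q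
  · exact cluster_T u true h
  rw [not_frequently] at h
  have h1 : ∃ᶠ n in atTop, ∃ z, (u n).1.1 = Y.i z := by
    refine Eventually.frequently ?_
    filter_upwards [h] with n hn
    have h2 := (u n).2.2 (hu n)
    rcases hy : (u n).1.1 with ⟨z, j⟩ | z | q
    · exact absurd ⟨z, j, hy⟩ h2
    · exact ⟨z, rfl⟩
    · exact absurd ⟨hu n, q, hy⟩ hn
  obtain ⟨φ, hφ, h2⟩ := extraction_of_frequently_atTop h1
  choose zs hzs using h2
  by_cases h3 : ∃ z, {k | zs k = z}.Infinite
  · obtain ⟨z, hz⟩ := h3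
    obtain ⟨k0, hk0⟩ := hz.nonempty
    refine ⟨u (φ k0), cluster_of_subseq hφ fun s hs => hz.mono ?_⟩
    intro k hk
    have h4 : u (φ k) = u (φ k0) := by
      apply Subtype.ext
      apply Prod.ext
      · rw [hzs k, hzs k0]
        have h5 : zs k = z := hk
        have h6 : zs k0 = z := hk0
        rw [h5, h6]
      · rw [hu, hu]
    change u (φ k) ∈ s
    rw [h4]
    exact mem_of_mem_nhds hs
  · push Not at h3
    obtain ⟨q, hq, hR⟩ := Z_cc' zs h3
    refine ⟨⟨(Y.t ⟨q, hq⟩, true), t_mem_XS _ _⟩, cluster_of_subseq hφ fun s hs => ?_⟩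
    obtain ⟨R, hRq, m, hm⟩ := nhds_X_t (t_mem_XS _ _) hs
    refine (hR R hRq).mono ?_
    intro k hk
    refine hm _ (hu _) ?_
    rw [hzs k]
    exact i_mem_N.mpr hk

theorem X_wDelta : IsWDelta X := by
  refine ⟨GX, fun n => ⟨GX_open n, GX_cover n⟩, ?_⟩
  rintro ⟨⟨y, b⟩, hx⟩ u hu
  cases b with
  | true =>
    refine cluster_K u fun n => ?_
    obtain ⟨g, ⟨hg, hxg⟩, hug⟩ := hu n
    rcases hg with ⟨R, _, _, rfl⟩ | ⟨z, j, rfl⟩ | rfl
    · cases hxg.1
    · cases hxg.1
    · exact hug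
  | false =>
    cases y with
    | i z => exact absurd ⟨z, rfl⟩ (hx.1 rfl)
    | d z j =>
      refine ⟨⟨(Y.d z j, false), hx⟩, ?_⟩
      rw [mapClusterPt_iff_frequently]
      intro s hs
      refine Eventually.frequently ?_
      filter_upwards [eventually_gt_atTop j] with n hn
      obtain ⟨g, ⟨hg, hxg⟩, hug⟩ := hu n
      have h1 : u n = ⟨(Y.d z j, false), hx⟩ := by
        rcases hg with ⟨R, _, _, rfl⟩ | ⟨z', j', rfl⟩ | rfl
        · have := (d_mem_N.mp hxg.2).2
          omega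
        · apply Subtype.ext
          apply Prod.ext
          · have h2 : (u n).1.1 = Y.d z' j' := hug.2
            have h3 : Y.d z j = Y.d z' j' := hxg.2
            rw [h2, ← h3]
          · exact hug.1
        · cases hxg
      rw [h1]
      exact mem_of_mem_nhds hs
    | t q =>
      have h1 : ∀ n, ∃ R : Set Z, RD R ∧ (∃ s, R ⊆ Cyl s n) ∧ R ∈ q.1 ∧ (u n).1.2 = false ∧
          (u n).1.1 ∈ N R n := by
        intro n
        obtain ⟨g, ⟨hg, hxg⟩, hug⟩ := hu n
        rcases hg with ⟨R, h1, h2, rfl⟩ | ⟨z', j', rfl⟩ | rfl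
        · exact ⟨R, h1, h2, t_mem_N.mp hxg.2, hug.1, hug.2⟩
        · cases hxg.2
        · cases hxg
      choose R hRD hRs hRq hb hN using h1
      obtain ⟨z, hz, _⟩ := T_base q.2
      by_cases h : ∃ᶠ n in atTop, (u n).1.2 = false ∧ ∃ q : T, (u n).1.1 = Y.t q
      · exact cluster_T u false h
      rw [not_frequently] at h
      have h1 : ∃ᶠ n in atTop, ∃ z' j', (u n).1.1 = Y.d z' j' := by
        refine Eventually.frequently ?_
        filter_upwards [h] with n hn
        have h2 := (u n).2.1 (hb n)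
        rcases hy : (u n).1.1 with ⟨z, j⟩ | z | q'
        · exact ⟨z, j, rfl⟩
        · exact absurd ⟨z, hy⟩ h2
        · exact absurd ⟨hb n, q', hy⟩ hn
      obtain ⟨φ, hφ, h2⟩ := extraction_of_frequently_atTop h1
      choose zs js hzs using h2
      have h3 : ∀ k, zs k ∈ R (φ k) ∧ φ k ≤ js k := by
        intro k
        have := hN (φ k)
        rw [hzs k] at this
        exact d_mem_N.mp this
      have h4 : ∀ k, zs k ≠ z ∧ zs k ∈ Cyl z (φ k) := by
        intro k
        refine ⟨?_, ?_⟩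
        · intro e
          apply T_notMem q.2 hz (hRq (φ k)) (hRD (φ k))
          rw [← e]
          exact (h3 k).1
        · obtain ⟨s, hs⟩ := hRs (φ k)
          obtain ⟨w, hw1, hw2⟩ := q.1.nonempty_of_mem
            (inter_mem (f := (q.1 : Filter Z)) (hRq (φ k)) (hz (φ k)))
          have h5 : zs k ∈ Cyl s (φ k) := hs (h3 k).1
          have h6 : w ∈ Cyl s (φ k) := hs hw1
          intro i hi
          rw [h5 i hi, ← h6 i hi, hw2 i hi]
      obtain ⟨q', hq', hR'⟩ := Z_cc zs z fun M =>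
        ⟨M, (h4 M).1, Cyl_mono z (hφ.le_apply) (h4 M).2⟩
      refine ⟨⟨(Y.t ⟨q', hq'⟩, false), t_mem_XS _ _⟩, cluster_of_subseq hφ fun s hs => ?_⟩
      obtain ⟨R', hR'q, m, hm⟩ := nhds_X_t (t_mem_XS _ _) hs
      refine ((hR' R' hR'q).sdiff (Set.finite_lt_nat m)).mono ?_
      rintro k ⟨hk, hk'⟩
      refine hm _ (hb _) ?_
      rw [hzs k]
      refine d_mem_N.mpr ⟨hk, ?_⟩
      have h7 : ¬ k < m := hk'
      have h8 : k ≤ φ k := hφ.le_apply
      have h9 := (h3 k).2
      omega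

end H874R2.WD
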